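import Pool.Agent.Helper73.DC.Defs

set_option autoImplicit false

/-! Project DC (helper73), MP_26f0da_lc: statements, wave 1 (machines), with proofs in words.

THEOREM of the project.  Every deterministic context-free language, and more generally every language in LogDCFL, lies in
DSPACE((log n)^2/log log n) (Turing machines with a read-only input tape).

Wave 1: bounded functions (class E2) are computed by counter programs, counter programs by counter machines, and counter machines
with counters <= 2^(O(S)) by Turing machines in space O(S). -/

namespace Pool.Agent.Helper73.DC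

open Finset

/-! ### A. Counter machine -> Turing machine -/

/-- MODULE TI.  The Turing machine simulates `inc i l'`.
Proof.  First step: head `i` moves from cell 0 to cell 1 (phase car); cell 0 is blank (Rep) and is rewritten unchanged.  Let j0 be
the least j < ℓ with digit b j = false, or j0 = ℓ if there is none.  In phase car the machine changes the digits 0, .., j0-1 (all
true) into false (induction on j), then (cell j0+1 holds some false, or is blank if j0 = ℓ) writes some true and moves left
(phase ret), then walks left over the cells j0, .., 1 (all some _) and stops at the blank cell 0 in state (l', st).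
New digits: false below j0, true at j0, unchanged above; new length ℓ' = ℓ if j0 < ℓ, ℓ + 1 if j0 = ℓ; the value increases by 1:
sum_(j<j0) 2^j = 2^(j0) - 1.  If j0 = ℓ then v = 2^ℓ - 1, so 2^ℓ <= v + 1.  The heads never pass cell j0 + 1 <= ℓ + 1. -/
def StTI : Prop :=
  ∀ {α : Type} (M : CM α) (w : List α) (lab l' : M.Lab) (i : Fin M.m) (ll v : ℕ) (c : (tmOf M).Cfg),
    M.ins lab = some (Ins.inc i l') → c.q = (lab, Ph.st) → (∀ t, c.hd t = 0) → Rep ll (c.tp i) v →
    ∃ (c' : (tmOf M).Cfg) (ll' : ℕ), (tmOf M).RB w (ll + 2) c c' ∧ c'.q = (l', Ph.st) ∧ c'.pos = min c.pos (w.length + 1) ∧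
      (∀ t, c'.hd t = 0) ∧ (∀ t, t ≠ i → c'.tp t = c.tp t) ∧ Rep ll' (c'.tp i) (v + 1) ∧
      (ll' = ll ∨ (ll' = ll + 1 ∧ 2 ^ ll ≤ v + 1))

/-- MODULE TD.  The Turing machine simulates `dec i l0 l1`.
Proof.  First step: head `i` moves from cell 0 to cell 1 (phase car).  If v > 0 let j0 be the least j < ℓ with digit true: phase
car changes the digits below j0 (all false) into true, then writes false at j0 and moves left (phase ret), walks left to the blank
cell 0 and enters (l1, st); value: v - 1, since 2^(j0) = 1 + sum_(j<j0) 2^j.  If v = 0 all digits are false: phase car changes all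
of them into true up to the blank cell ℓ+1, moves left in phase rs, changes all ones back into zeros and enters (l0, st) at the
blank cell 0; the tape is unchanged and v - 1 = 0 = v.  The length does not change, heads stay on cells <= ℓ + 1. -/
def StTD : Prop :=
  ∀ {α : Type} (M : CM α) (w : List α) (lab l0 l1 : M.Lab) (i : Fin M.m) (ll v : ℕ) (c : (tmOf M).Cfg),
    M.ins lab = some (Ins.dec i l0 l1) → c.q = (lab, Ph.st) → (∀ t, c.hd t = 0) → Rep ll (c.tp i) v →
    ∃ c' : (tmOf M).Cfg, (tmOf M).RB w (ll + 2) c c' ∧ c'.q = (if v = 0 then l0 else l1, Ph.st) ∧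
      c'.pos = min c.pos (w.length + 1) ∧
      (∀ t, c'.hd t = 0) ∧ (∀ t, t ≠ i → c'.tp t = c.tp t) ∧ Rep ll (c'.tp i) (v - 1)

/-- MODULE TM (hypotheses StTI, StTD).  Counter machines with counters `<= B |w|`, B(n) <= 2^(C S(n) + C), are simulated in space
O(S).
Proof.  Machine tmOf M.  Invariant between a counter configuration d and a Turing configuration c: c.q = (d.l, st), c.pos = d.pos <=
|w| + 1, all heads 0, and for every t a length ℓ_t with Rep ℓ_t (c.tp t) (d.cnt t) and (ℓ_t = 0 or 2^(ℓ_t - 1) <= B |w|).  It holds at
the start (Rep 0 of the blank tape, value 0).  If it holds and M.step w d = some d' with all counters of d' at most B |w|, then the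
machine reaches (RB with b = C S + C + 3, as ℓ_t <= C S + C + 1 by 2^(ℓ_t - 1) <= B <= 2^(C S + C)) a configuration related to d':
inc: StTI (monotonicity of RB in b; new length: 2^ℓ <= v + 1 <= B), dec: StTD, mv and rd: one step (min of positions).  If M.ins d.l =
none the machine halts at c (δ = none).  So from the halting run of M (a chain of reachable configurations, induction on the chain)
we get a run of tmOf M from init to a halting configuration, all of whose configurations have heads < b; as the step function is
deterministic every configuration reachable from init lies on this run (if c is reachable and the run of RB ends in a halting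
configuration, c is on it: induction), so all heads are < b = C S + C + 3 <= C' S + C' with C' = C + 3. -/
def StTM : Prop :=
  ∀ {α : Type} (M : CM α) (L : Set (List α)) (B S : ℕ → ℕ) (C : ℕ), M.Decides L B →
    (∀ n, B n ≤ 2 ^ (C * S n + C)) → L ∈ DSPACE (α := α) S

/-! ### B. Counter programs -> counter machines -/

/-- MODULE FG1.  Flow graphs for single instructions and for `len`.
Proof.  (inc, dec) one label, one step.  (len i) labels A, B, D, E: A: mv R → B; B: rd (rm → D, other → E); E: inc i → A;
D: mv L → F; F: rd (lm → exit, other → D).  From cell 0 the machine moves to the cells 1, .., |w| and increments at every letter, finds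
the right end marker in cell |w| + 1, then moves left to cell 0.  The counter goes from s i to s i + |w| <= B.  Induction on the
position (symAt w i is ch _ for 1 <= i <= |w|, rm for i > |w|, lm only for i = 0). -/
def StFG1 : Prop :=
  ∀ {α : Type} (m : ℕ) (i : Fin m),
    (∃ G : FG α m, ∀ (w : List α) (B : ℕ) (s : Fin m → ℕ), (∀ j, s j ≤ B) → s i + 1 ≤ B →
      G.Sim w B s (Function.update s i (s i + 1))) ∧
    (∃ G : FG α m, ∀ (w : List α) (B : ℕ) (s : Fin m → ℕ), (∀ j, s j ≤ B) → G.Sim w B s (Function.update s i (s i - 1))) ∧
    (∃ G : FG α m, ∀ (w : List α) (B : ℕ) (s : Fin m → ℕ), (∀ j, s j ≤ B) → s i + w.length ≤ B →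
      G.Sim w B s (Function.update s i (s i + w.length)))

/-- MODULE FG2.  Flow graph for `letr`.
Proof.  Labels: A: mv R → B; B: dec i (zero → D, else → A); D: rd (ch a → (a, cd a), other → E) [the counter is now 0 and the head on
cell min (x+1) (|w|+1), x the original value]; (a, j) with j : Fin (cd a + 1) (a finite type: Σ a, Fin (cd a + 1)): inc i, then →
(a, j-1) or E if j = 0; so cd a + 1 increments; E: rd (lm → exit, other → E'); E': mv L → E.
symAt w (x+1) = ch a iff w[x]? = some a; if w[x]? = none then cell min (x+1) (|w|+1) = |w| + 1 holds rm (if x >= |w|).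
All counters stay <= B: the values of counter i are <= x <= B or <= cd a + 1 = lett w x <= B. -/
def StFG2 : Prop :=
  ∀ {α : Type} [Fintype α] (m : ℕ) (i : Fin m),
    ∃ G : FG α m, ∀ (w : List α) (B : ℕ) (s : Fin m → ℕ), (∀ j, s j ≤ B) → lett w (s i) ≤ B →
      G.Sim w B s (Function.update s i (lett w (s i)))

/-- MODULE FG3.  Composition and loops of flow graphs.
Proof.  (seq) labels G₁.Lab ⊕ G₂.Lab; exits of G₁ go to the entry of G₂.  Map runs of G₁ (`Relation.ReflTransGen` induction; replace
the targets in an instruction by a map X → Y: `Ins.apply` commutes with it).  (loop) labels Unit ⊕ Unit ⊕ G.Lab: test label T: dec i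
(zero → exit, else → U); U: inc i → entry of G; exits of G go to T.  Induction on Lp.  When s i = 0 the test does not change s. -/
def StFG3 : Prop :=
  ∀ {α : Type} (m : ℕ),
    (∀ G₁ G₂ : FG α m, ∃ G : FG α m, ∀ (w : List α) (B : ℕ) (s t u : Fin m → ℕ),
      G₁.Sim w B s t → G₂.Sim w B t u → G.Sim w B s u) ∧
    (∀ (G₁ : FG α m) (i : Fin m), ∃ G : FG α m, ∀ (w : List α) (B : ℕ) (s u : Fin m → ℕ),
      (∀ j, s j ≤ B) → Lp (fun a b => G₁.Sim w B a b ∧ ∀ j, b j ≤ B) i s u → G.Sim w B s u)

/-- MODULE PD (hypotheses StFG1, StFG2, StFG3).  A program deciding L gives a counter machine deciding L.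
Proof.  (a) For every P with P.regs m there is G : FG α m with: Run w B P s s', (∀ j, s j <= B) imply G.Sim w B (s restricted to Fin m)
(s' restricted) and (∀ j, s' j <= B).  Induction on P (the loop: from Run (loop i P) s u get Lp, by induction on the derivation of
Run; generalise the program index).  (b) every P has some m >= 1 with P.regs m.  (c) The counter machine: labels Option G.Lab ⊕ Bool:
l0 = entry of G; the instructions of G; at `none`: dec 0 (zero → inr false, else → inr true); inr _ : no instruction; accepting:
inr true.  As the step function is deterministic and the run ends in a halting configuration, all reachable configurations are on the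
run, so their counters are <= B |w|. -/
def StPD : Prop :=
  ∀ {α : Type} [Fintype α] (P : Prog) (L : Set (List α)) (B : ℕ → ℕ),
    (∀ w : List α, ∃ s' : ℕ → ℕ, Run w (B w.length) P (fun _ => 0) s' ∧ (s' 0 ≠ 0 ↔ w ∈ L)) →
    ∃ M : CM α, M.Decides L B

/-! ### C. E2 functions -> programs -/

/-- MODULE CB.  The base functions are computable.
Proof.  zero: K = 0, program: e.g. `inc out; dec out` (needs B >= 1: B >= 2^c with c = 1).  get i: K = i + 1: copy register ρ i into
out with one scratch register base: `loop (ρ i) (dec (ρ i); inc out; inc base)`, `loop base (dec base; inc (ρ i))`.  The registers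
ρ i, out, base are different.  len: `len out`.  Bounds: (|w| + sumK K v + 2)^1 <= B.  Updates: final registers equal
`Function.update s out (..)` (funext). -/
def StCB : Prop :=
  ∀ {α : Type} [Fintype α],
    Comp (α := α) (fun _ _ => 0) ∧ (∀ i : ℕ, Comp (α := α) (fun _ v => v i)) ∧ Comp (α := α) (fun w _ => w.length)

/-- MODULE CS.  Successor and letters.
Proof.  succ: run the program of F into out, then `inc out`.  letr: run the program of F into out, then `letr out`.
Bounds: lett w x <= |α| (cd a < |α|), so use the exponent c' = c + |α| + 1: (X + 2)^(c') >= (X+2)^c + 1 and >= |α|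
(2^(|α|) >= |α|).  Supp is clear. -/
def StCS : Prop :=
  ∀ {α : Type} [Fintype α] (F : VF α), Comp F → Comp (fun w v => F w v + 1) ∧ Comp (fun w v => lett w (F w v))

/-- MODULE CR.  Bounded recursion.
Proof.  K' = max of the K of F, G, H and of the bound.  Registers: cnt = base, y = base + 1, acc = base + 2, tmp = base + 3, scratch from
base' = base + 4.  Program: P_H(ρ, cnt, base'); P_F(ρ, acc, base'); loop cnt (dec cnt; P_G(scons y (scons acc ρ), tmp, base');
loop acc (dec acc); loop tmp (dec tmp; inc acc); inc y); loop acc (dec acc; inc out); loop y (dec y).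
Invariant of the loop after y rounds: cnt = H - y, y, acc = prec F G w v y, other registers as at the start (v the context
fun i => s (ρ i), whose first K' entries do not change: ρ i < base, ρ i ≠ out; by Supp the values of F, G, H only depend on them).
Bounds: with X = |w| + sumK K' v + 2: H <= X^(cH) (as its program works for every B >= X^(cH)... see `Comp`: take B minimal; the value
must be <= B because Run keeps all values <= B: use Run to derive it, or prove it as a lemma: if Comp F then
F w v <= (|w| + sumK K v + 2)^c ), acc <= X^c, G is evaluated at a context of size <= X + X^(cH) + X^c <= X^(cH + c + 2), so everything is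
<= X^(c') with c' = (cH + c + 3)(cG + 2) + cF + 2.
(Lemma for the value bound: run the program with a suitable ρ injective into {0..K-1}, out = K, base = K + 1 and
B = (|w| + sumK K v + 2)^c (>= v i for i < K as c >= 1 may be assumed); Run preserves `all registers <= B`.) -/
def StCR : Prop :=
  ∀ {α : Type} [Fintype α] (F G H : VF α) (K c : ℕ), Comp F → Comp G → Comp H →
    (∀ w v y, y ≤ H w v → prec F G w v y ≤ (w.length + sumK K v + 2) ^ c) →
    Comp (fun w v => prec F G w v (H w v))

/-- MODULE TOP (hypotheses StTM, StPD, StCB, StCS, StCR).  Decision by an E2 function of N = (|w| + 2)^(R |w|).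
Proof.  Every E2 function is Comp (induction: StCB, StCS, StCR).  Program: register numbers: out = 0; the input register x of F and
a zero register: context scons N (fun _ => 0): ρ 0 = x, ρ (i+1) = zero register.  First R := Rf (Comp), then x := 1, then
`loop R (dec R; tmp := x * (|w| + 2) [a Comp function of the context (x, ..): the E2 function (w, v) ↦ v 0 * (|w| + 2) — show
directly that it is E2 by two nested nrec, or take it as prec with step IH + (|w|+2) and count v 0, the inner sum being again a
prec]; clear x; move tmp to x)`, then `out := F`.  All values are at most (N + |w| + Rf + 2)^c' for a constant c' and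
Rf <= N (2^R >= R), |w| <= |w| + 2; so B(n) = ((n+2)^(Rf n + 1) + n + 2)^(c') <= 2^(C ((Rf n + 1) log2 (n+2)) + C), as
n + 2 < 2^(log2 (n+2) + 1) <= 2^(2 log2 (n+2)).  Registers are 0 at the start. -/
def StTOP : Prop :=
  ∀ {α : Type} [Fintype α] (F : VF α) (Rf : ℕ → ℕ) (L : Set (List α)), E2 F → E2 (α := α) (fun w _ => Rf w.length) →
    (∀ w : List α, F w (scons ((w.length + 2) ^ Rf w.length) (fun _ => 0)) ≠ 0 ↔ w ∈ L) →
    L ∈ DSPACE (α := α) (fun n => (Rf n + 1) * Nat.log 2 (n + 2))

end Pool.Agent.Helper73.DC
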