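import Mathlib

set_option autoImplicit false

/-! Project DC (helper73), MP_26f0da_lc: definitions, part 1: Turing machines with a read-only input, DSPACE, counter machines,
counter programs, the class E2 of (polynomially) bounded recursive functions. -/

namespace Pool.Agent.Helper73.DC

/-! ### Input tape -/

/-- What the input head can see: the left end marker, the right end marker or a letter. -/
inductive Sym (α : Type) where
  | lm : Sym α
  | rm : Sym α
  | ch : α → Sym α

/-- The symbol at cell `i` of the input tape `⊢ w ⊣` (cell 0 is the left end marker, the letters are in the cells `1, .., |w|`). -/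
def symAt {α : Type} (w : List α) (i : ℕ) : Sym α :=
  if i = 0 then Sym.lm else
    match w[i - 1]? with
    | some a => Sym.ch a
    | none => Sym.rm

/-- Moves of a head: left, stay, right. -/
inductive Mv where
  | L : Mv
  | S : Mv
  | R : Mv
deriving DecidableEq

/-- The new position of a head on a one-way infinite tape (a head does not leave cell 0 to the left). -/
def mvN : Mv → ℕ → ℕ
  | Mv.L, i => i - 1
  | Mv.S, i => i
  | Mv.R, i => i + 1

/-! ### Off-line Turing machines -/

/-- A deterministic Turing machine with a read-only two-way input tape and `tapes` work tapes (one-way infinite).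
`δ q x y = none`: the machine halts; otherwise new state, move of the input head, symbols written and moves on the work tapes. -/
structure OTM (α : Type) where
  tapes : ℕ
  Q : Type
  Γ : Type
  finQ : Finite Q
  finΓ : Finite Γ
  blank : Γ
  q0 : Q
  acc : Q → Prop
  δ : Q → Sym α → (Fin tapes → Γ) → Option (Q × Mv × (Fin tapes → Γ × Mv))

/-- Configurations: state, position of the input head, positions of the work heads, contents of the work tapes. -/
structure OTM.Cfg {α : Type} (M : OTM α) where
  q : M.Q
  pos : ℕ
  hd : Fin M.tapes → ℕ
  tp : Fin M.tapes → ℕ → M.Γ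

/-- The initial configuration: all work tapes are blank, all heads are on cell 0. -/
def OTM.init {α : Type} (M : OTM α) : M.Cfg :=
  { q := M.q0, pos := 0, hd := fun _ => 0, tp := fun _ _ => M.blank }

/-- One step on the input `w` (the input head stays between the end markers). -/
def OTM.step {α : Type} (M : OTM α) (w : List α) (c : M.Cfg) : Option M.Cfg :=
  match M.δ c.q (symAt w c.pos) (fun t => c.tp t (c.hd t)) with
  | none => none
  | some (q, d, f) => some
      { q := q
        pos := min (mvN d c.pos) (w.length + 1)
        hd := fun t => mvN (f t).2 (c.hd t)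
        tp := fun t => Function.update (c.tp t) (c.hd t) (f t).1 }

/-- Reachability of configurations. -/
def OTM.Reaches {α : Type} (M : OTM α) (w : List α) : M.Cfg → M.Cfg → Prop :=
  Relation.ReflTransGen (fun a b => M.step w a = some b)

/-- `M` halts on every input, accepts exactly the words of `L`, and on input `w` it never visits a work tape cell with number
`>= s |w|` (so it uses at most `s |w|` cells of every work tape). -/
def OTM.Decides {α : Type} (M : OTM α) (L : Set (List α)) (s : ℕ → ℕ) : Prop :=
  ∀ w : List α,
    (∃ c, M.Reaches w M.init c ∧ M.step w c = none ∧ (M.acc c.q ↔ w ∈ L)) ∧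
    (∀ c, M.Reaches w M.init c → ∀ t, c.hd t < s w.length)

/-- The class DSPACE(S(n)): the languages over `α` decided by a deterministic Turing machine with a read-only input tape in
space `O(S(n))`. -/
def DSPACE {α : Type} (S : ℕ → ℕ) : Set (Set (List α)) :=
  {L | ∃ (M : OTM α) (C : ℕ), M.Decides L (fun n => C * S n + C)}

/-! ### Counter machines -/

/-- Instructions of a counter machine: increment, decrement (first target if the counter is zero), move the input head,
branch on the symbol under the input head. -/
inductive Ins (α : Type) (m : ℕ) (X : Type) where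
  | inc : Fin m → X → Ins α m X
  | dec : Fin m → X → X → Ins α m X
  | mv : Mv → X → Ins α m X
  | rd : (Sym α → X) → Ins α m X

/-- A flow graph: a finite labelled counter program with one entry; the exit is `none`. -/
structure FG (α : Type) (m : ℕ) where
  Lab : Type
  fin : Finite Lab
  entry : Lab
  ins : Lab → Ins α m (Option Lab)

/-- Configurations of a flow graph: label (`none` = exit), position of the input head, counters. -/
structure CCfg (m : ℕ) (Λ : Type) where
  l : Λ
  pos : ℕ
  cnt : Fin m → ℕ

/-- The effect of an instruction. -/
def Ins.apply {α : Type} {m : ℕ} {X Y : Type} (w : List α) (I : Ins α m X) (c : CCfg m Y) : CCfg m X :=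
  match I with
  | Ins.inc i x => { l := x, pos := c.pos, cnt := Function.update c.cnt i (c.cnt i + 1) }
  | Ins.dec i x y =>
      { l := if c.cnt i = 0 then x else y, pos := c.pos, cnt := Function.update c.cnt i (c.cnt i - 1) }
  | Ins.mv d x => { l := x, pos := min (mvN d c.pos) (w.length + 1), cnt := c.cnt }
  | Ins.rd f => { l := f (symAt w c.pos), pos := c.pos, cnt := c.cnt }

/-- One step of a flow graph whose successor has all counters `<= B`. -/
def FG.Step {α : Type} {m : ℕ} (G : FG α m) (w : List α) (B : ℕ) (c d : CCfg m (Option G.Lab)) : Prop :=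
  ∃ l, c.l = some l ∧ d = (G.ins l).apply w c ∧ ∀ i, d.cnt i ≤ B

/-- Started at the entry with the input head on cell 0 and counters `s`, the flow graph reaches the exit with the input head on
cell 0 and counters `s'`, and all counters stay `<= B`. -/
def FG.Sim {α : Type} {m : ℕ} (G : FG α m) (w : List α) (B : ℕ) (s s' : Fin m → ℕ) : Prop :=
  Relation.ReflTransGen (G.Step w B) { l := some G.entry, pos := 0, cnt := s } { l := none, pos := 0, cnt := s' }

/-- A counter machine (with accepting labels); it halts at the labels without instruction. -/
structure CM (α : Type) where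
  m : ℕ
  Lab : Type
  fin : Finite Lab
  l0 : Lab
  acc : Lab → Prop
  ins : Lab → Option (Ins α m Lab)

/-- One step of a counter machine. -/
def CM.step {α : Type} (M : CM α) (w : List α) (c : CCfg M.m M.Lab) : Option (CCfg M.m M.Lab) :=
  (M.ins c.l).map (fun I => I.apply w c)

/-- Reachability. -/
def CM.Reaches {α : Type} (M : CM α) (w : List α) : CCfg M.m M.Lab → CCfg M.m M.Lab → Prop :=
  Relation.ReflTransGen (fun a b => M.step w a = some b)

/-- Initial configuration. -/
def CM.init {α : Type} (M : CM α) : CCfg M.m M.Lab := { l := M.l0, pos := 0, cnt := fun _ => 0 }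

/-- `M` decides `L` and all its counters stay `<= B |w|`. -/
def CM.Decides {α : Type} (M : CM α) (L : Set (List α)) (B : ℕ → ℕ) : Prop :=
  ∀ w : List α,
    (∃ c, M.Reaches w M.init c ∧ M.step w c = none ∧ (M.acc c.l ↔ w ∈ L)) ∧
    (∀ c, M.Reaches w M.init c → ∀ i, c.cnt i ≤ B w.length)

/-! ### Counter programs -/

/-- A numbering of the letters. -/
noncomputable def cd {α : Type} [Fintype α] (a : α) : ℕ := (Fintype.equivFin α a : ℕ)

/-- The code of the letter number `x` of `w` (0 if there is none). -/
noncomputable def lett {α : Type} [Fintype α] (w : List α) (x : ℕ) : ℕ :=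
  match w[x]? with
  | some a => cd a + 1
  | none => 0

/-- Structured counter programs (registers are numbered by ℕ): increment, decrement, sequence, `while register i ≠ 0 do`,
`register i := lett w (register i)`, `register i := register i + |w|`. -/
inductive Prog where
  | inc : ℕ → Prog
  | dec : ℕ → Prog
  | seq : Prog → Prog → Prog
  | loop : ℕ → Prog → Prog
  | letr : ℕ → Prog
  | len : ℕ → Prog

/-- Execution of a program on the input `w`: from the registers `s` to the registers `s'`, all intermediate values `<= B`. -/
inductive Run {α : Type} [Fintype α] (w : List α) (B : ℕ) : Prog → (ℕ → ℕ) → (ℕ → ℕ) → Prop where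
  | inc (i : ℕ) (s : ℕ → ℕ) : s i + 1 ≤ B → Run w B (Prog.inc i) s (Function.update s i (s i + 1))
  | dec (i : ℕ) (s : ℕ → ℕ) : Run w B (Prog.dec i) s (Function.update s i (s i - 1))
  | seq (P R : Prog) (s t u : ℕ → ℕ) : Run w B P s t → Run w B R t u → Run w B (Prog.seq P R) s u
  | loop0 (i : ℕ) (P : Prog) (s : ℕ → ℕ) : s i = 0 → Run w B (Prog.loop i P) s s
  | loopS (i : ℕ) (P : Prog) (s t u : ℕ → ℕ) : s i ≠ 0 → Run w B P s t → Run w B (Prog.loop i P) t u →
      Run w B (Prog.loop i P) s u
  | letr (i : ℕ) (s : ℕ → ℕ) : lett w (s i) ≤ B → Run w B (Prog.letr i) s (Function.update s i (lett w (s i)))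
  | len (i : ℕ) (s : ℕ → ℕ) : s i + w.length ≤ B → Run w B (Prog.len i) s (Function.update s i (s i + w.length))

/-- All registers occurring in the program are `< m`. -/
def Prog.regs (m : ℕ) : Prog → Prop
  | Prog.inc i => i < m
  | Prog.dec i => i < m
  | Prog.seq P R => P.regs m ∧ R.regs m
  | Prog.loop i P => i < m ∧ P.regs m
  | Prog.letr i => i < m
  | Prog.len i => i < m

/-! ### The class E2 -/

/-- Functions of the word and of a context (an infinite vector of which only finitely many entries are used). -/
abbrev VF (α : Type) := List α → (ℕ → ℕ) → ℕ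

/-- `scons a v = (a, v 0, v 1, ..)`. -/
def scons (a : ℕ) (v : ℕ → ℕ) : ℕ → ℕ
  | 0 => a
  | n + 1 => v n

/-- Primitive recursion: value at 0 is `F`, value at `y + 1` is `G (y, value at y, v)`. -/
def prec {α : Type} (F G : VF α) (w : List α) (v : ℕ → ℕ) : ℕ → ℕ
  | 0 => F w v
  | y + 1 => G w (scons y (scons (prec F G w v y) v))

/-- Size of the first `K` entries. -/
def sumK (K : ℕ) (v : ℕ → ℕ) : ℕ := ∑ i ∈ Finset.range K, v i

/-- The class E2 (computable with counters bounded by a polynomial in the inputs): closed under primitive recursion as long as all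
values are polynomially bounded. -/
inductive E2 {α : Type} [Fintype α] : VF α → Prop where
  | zero : E2 (fun _ _ => 0)
  | succ (F : VF α) : E2 F → E2 (fun w v => F w v + 1)
  | get (i : ℕ) : E2 (fun _ v => v i)
  | len : E2 (fun w _ => w.length)
  | letr (F : VF α) : E2 F → E2 (fun w v => lett w (F w v))
  | nrec (F G H : VF α) (K c : ℕ) : E2 F → E2 G → E2 H →
      (∀ w v y, y ≤ H w v → prec F G w v y ≤ (w.length + sumK K v + 2) ^ c) →
      E2 (fun w v => prec F G w v (H w v))

/-- `F` depends only on the word and the first `K` entries of the context. -/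
def Supp {α : Type} (K : ℕ) (F : VF α) : Prop :=
  ∀ (w : List α) (v v' : ℕ → ℕ), (∀ i < K, v i = v' i) → F w v = F w v'

/-- `F` is computed by a program: for every register map `ρ` of the context, output register `out` and first scratch register
`base`.  Only the first `K` entries of the context are used, all values are at most `(|w| + sumK K v + 2)^c`. -/
def Comp {α : Type} [Fintype α] (F : VF α) : Prop :=
  ∃ (K c : ℕ), Supp K F ∧ ∀ (ρ : ℕ → ℕ) (out base : ℕ), (∀ i < K, ρ i < base) → out < base → (∀ i < K, ρ i ≠ out) →
    ∃ P : Prog, ∀ (w : List α) (s : ℕ → ℕ) (B : ℕ), s out = 0 → (∀ j, base ≤ j → s j = 0) → (∀ j, s j ≤ B) →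
      (w.length + sumK K (fun i => s (ρ i)) + 2) ^ c ≤ B →
      Run w B P s (Function.update s out (F w (fun i => s (ρ i))))

/-! ### The Turing machine of a counter machine -/

/-- Phases of the simulation of one instruction. -/
inductive Ph where
  | st : Ph
  | car : Ph
  | ret : Ph
  | rs : Ph
deriving DecidableEq, Fintype

/-- Write `g` and move by `d` on tape `i`, nothing on the other tapes. -/
def act1 {m : ℕ} (i : Fin m) (x : Fin m → Option Bool) (g : Option Bool) (d : Mv) : Fin m → Option Bool × Mv :=
  fun t => if t = i then (g, d) else (x t, Mv.S)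

/-- The machine simulating the counter machine `M`: counter `t` is kept in binary (least significant digit first) in the cells
`1, 2, ..` of the work tape `t`; cell 0 stays blank; between two instructions all work heads are on cell 0.
`inc i`: go right changing ones into zeros up to the first zero or blank, which becomes a one; return to cell 0.
`dec i`: go right changing zeros into ones up to the first one, which becomes a zero; return (`ret`).  If a blank is reached
instead (the counter was zero) return changing all ones back into zeros (`rs`). -/
noncomputable def tmOf {α : Type} (M : CM α) : OTM α where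
  tapes := M.m
  Q := M.Lab × Ph
  Γ := Option Bool
  finQ := by
    have := M.fin
    infer_instance
  finΓ := inferInstance
  blank := none
  q0 := (M.l0, Ph.st)
  acc := fun q => M.acc q.1
  δ := fun q x y =>
    match M.ins q.1 with
    | none => none
    | some (Ins.inc i l) =>
      match q.2 with
      | Ph.st => some ((q.1, Ph.car), Mv.S, act1 i y (y i) Mv.R)
      | Ph.car =>
        if y i = some true then some ((q.1, Ph.car), Mv.S, act1 i y (some false) Mv.R)
        else some ((q.1, Ph.ret), Mv.S, act1 i y (some true) Mv.L)
      | Ph.ret =>
        if y i = none then some ((l, Ph.st), Mv.S, act1 i y none Mv.S)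
        else some ((q.1, Ph.ret), Mv.S, act1 i y (y i) Mv.L)
      | Ph.rs => none
    | some (Ins.dec i l l') =>
      match q.2 with
      | Ph.st => some ((q.1, Ph.car), Mv.S, act1 i y (y i) Mv.R)
      | Ph.car =>
        if y i = some false then some ((q.1, Ph.car), Mv.S, act1 i y (some true) Mv.R)
        else if y i = some true then some ((q.1, Ph.ret), Mv.S, act1 i y (some false) Mv.L)
        else some ((q.1, Ph.rs), Mv.S, act1 i y none Mv.L)
      | Ph.ret =>
        if y i = none then some ((l', Ph.st), Mv.S, act1 i y none Mv.S)
        else some ((q.1, Ph.ret), Mv.S, act1 i y (y i) Mv.L)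
      | Ph.rs =>
        if y i = none then some ((l, Ph.st), Mv.S, act1 i y none Mv.S)
        else some ((q.1, Ph.rs), Mv.S, act1 i y (some false) Mv.L)
    | some (Ins.mv d l) =>
      match q.2 with
      | Ph.st => some ((l, Ph.st), d, fun t => (y t, Mv.S))
      | _ => none
    | some (Ins.rd f) =>
      match q.2 with
      | Ph.st => some ((f x, Ph.st), Mv.S, fun t => (y t, Mv.S))
      | _ => none

/-- The tape `τ` holds the number `v` with `ℓ` binary digits (leading zeros allowed). -/
def Rep (l : ℕ) (τ : ℕ → Option Bool) (v : ℕ) : Prop :=
  ∃ b : ℕ → Bool, (∀ j, τ j = if 1 ≤ j ∧ j ≤ l then some (b (j - 1)) else none) ∧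
    v = ∑ j ∈ Finset.range l, if b j = true then 2 ^ j else 0

/-- Reachability such that all work heads of all later configurations are on cells `< b`. -/
def OTM.RB {α : Type} (M : OTM α) (w : List α) (b : ℕ) : M.Cfg → M.Cfg → Prop :=
  Relation.ReflTransGen (fun a c => M.step w a = some c ∧ ∀ t, c.hd t < b)

/-- Iterated execution of `R` while entry `i` is not zero. -/
inductive Lp {m : ℕ} (R : (Fin m → ℕ) → (Fin m → ℕ) → Prop) (i : Fin m) : (Fin m → ℕ) → (Fin m → ℕ) → Prop where
  | done (s : Fin m → ℕ) : s i = 0 → Lp R i s s
  | step (s t u : Fin m → ℕ) : s i ≠ 0 → R s t → Lp R i t u → Lp R i s u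

end Pool.Agent.Helper73.DC
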