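import Pool.Agent.Helper73.DC.Defs

set_option autoImplicit false

/-! Project DC (helper73): core library of E2 functions. -/

namespace Pool.Agent.Helper73.DC

open Finset

variable {α : Type} [Fintype α]

omit [Fintype α] in
theorem sumK_mono {K K' : ℕ} (h : K ≤ K') (v : ℕ → ℕ) : sumK K v ≤ sumK K' v := by
  unfold sumK
  exact Finset.sum_le_sum_of_subset (Finset.range_mono h)

theorem le_sumK {K i : ℕ} (h : i < K) (v : ℕ → ℕ) : v i ≤ sumK K v := by
  unfold sumK
  exact Finset.single_le_sum (f := v) (fun _ _ => Nat.zero_le _) (Finset.mem_range.2 h)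

theorem sumK_scons (K a : ℕ) (v : ℕ → ℕ) : sumK (K + 1) (scons a v) = a + sumK K v := by
  unfold sumK
  rw [Finset.sum_range_succ']
  simp only [scons]
  omega

theorem sumK_scons2 (K a b : ℕ) (v : ℕ → ℕ) :
    sumK (K + 2) (scons a (scons b v)) = a + b + sumK K v := by
  rw [sumK_scons, sumK_scons]; omega

theorem lett_le (w : List α) (x : ℕ) : lett w x ≤ Fintype.card α := by
  unfold lett
  cases h : w[x]? with
  | none => simp
  | some a =>
    simp only [cd]
    exact (Fintype.equivFin α a).2

theorem two_le_pow_aux (X c : ℕ) (hX : 2 ≤ X) : X ^ c + 1 ≤ X ^ (c + 1) := by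
  have h1 : 1 ≤ X ^ c := Nat.one_le_pow _ _ (by omega)
  calc X ^ c + 1 ≤ X ^ c + X ^ c := by omega
    _ = X ^ c * 2 := by ring
    _ ≤ X ^ c * X := Nat.mul_le_mul_left _ hX
    _ = X ^ (c + 1) := (pow_succ _ _).symm

theorem pow_mono2 {X Y c d : ℕ} (hX : 1 ≤ Y) (h : X ≤ Y) (hc : c ≤ d) : X ^ c ≤ Y ^ d :=
  (Nat.pow_le_pow_left h c).trans (Nat.pow_le_pow_right hX hc)

/-- E2 functions are polynomially bounded. -/
theorem E2.poly {F : VF α} (hF : E2 F) : ∃ K c, ∀ w v, F w v ≤ (w.length + sumK K v + 2) ^ c := by
  induction hF with
  | zero => exact ⟨0, 0, fun w v => by simp⟩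
  | succ F hF ih =>
    obtain ⟨K, c, h⟩ := ih
    exact ⟨K, c + 1, fun w v => (Nat.add_le_add_right (h w v) 1).trans (two_le_pow_aux _ _ (by omega))⟩
  | get i =>
    refine ⟨i + 1, 1, fun w v => ?_⟩
    have := le_sumK (show i < i + 1 by omega) v
    rw [pow_one]
    show v i ≤ _
    omega
  | len =>
    refine ⟨0, 1, fun w v => ?_⟩
    rw [pow_one]
    show w.length ≤ _
    omega
  | letr F hF ih =>
    refine ⟨0, Fintype.card α, fun w v => (lett_le w _).trans ?_⟩
    calc Fintype.card α ≤ 2 ^ Fintype.card α := Nat.lt_two_pow_self.le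
      _ ≤ _ := Nat.pow_le_pow_left (by omega) _
  | nrec F G H K c hF hG hH hb ihF ihG ihH =>
    exact ⟨K, c, fun w v => hb w v (H w v) le_rfl⟩

/-- E2 functions depend on finitely many entries. -/
theorem E2.supp {F : VF α} (hF : E2 F) : ∃ K, Supp K F := by
  induction hF with
  | zero => exact ⟨0, fun w v v' _ => rfl⟩
  | succ F hF ih =>
    obtain ⟨K, h⟩ := ih
    exact ⟨K, fun w v v' hv => by simp only [h w v v' hv]⟩
  | get i => exact ⟨i + 1, fun w v v' hv => hv i (Nat.lt_succ_self i)⟩
  | len => exact ⟨0, fun w v v' _ => rfl⟩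
  | letr F hF ih =>
    obtain ⟨K, h⟩ := ih
    exact ⟨K, fun w v v' hv => by simp only [h w v v' hv]⟩
  | nrec F G H K c hF hG hH hb ihF ihG ihH =>
    obtain ⟨KF, hKF⟩ := ihF
    obtain ⟨KG, hKG⟩ := ihG
    obtain ⟨KH, hKH⟩ := ihH
    refine ⟨max KF (max KG KH), fun w v v' hv => ?_⟩
    have e1 : H w v = H w v' := hKH w v v' (fun i hi => hv i (by omega))
    have e2 : ∀ y, prec F G w v y = prec F G w v' y := by
      intro y
      induction y with
      | zero => exact hKF w v v' (fun i hi => hv i (by omega))
      | succ y ih =>
        simp only [prec]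
        rw [ih]
        apply hKG
        intro i hi
        match i with
        | 0 => rfl
        | 1 => rfl
        | i + 2 => exact hv i (by omega)
    show prec F G w v (H w v) = prec F G w v' (H w v')
    rw [e1, e2]

/-- Bounded recursion with an E2 bound. -/
theorem E2.brec {F G H B : VF α} (hF : E2 F) (hG : E2 G) (hH : E2 H) (hB : E2 B)
    (hb : ∀ w v y, y ≤ H w v → prec F G w v y ≤ B w v) : E2 (fun w v => prec F G w v (H w v)) := by
  obtain ⟨K, c, h⟩ := hB.poly
  exact E2.nrec F G H K c hF hG hH (fun w v y hy => (hb w v y hy).trans (h w v))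

/-- Renaming of variables. -/
theorem E2.rename {F : VF α} (hF : E2 F) : ∀ r : ℕ → ℕ, E2 (fun w v => F w (fun i => v (r i))) := by
  induction hF with
  | zero => exact fun r => E2.zero
  | succ F hF ih => exact fun r => E2.succ _ (ih r)
  | get i => exact fun r => E2.get (r i)
  | len => exact fun r => E2.len
  | letr F hF ih => exact fun r => E2.letr _ (ih r)
  | nrec F G H K c hF hG hH hb ihF ihG ihH =>
    intro r
    let r' : ℕ → ℕ := fun i => match i with
      | 0 => 0
      | 1 => 1
      | i + 2 => r i + 2
    have hG' := ihG r'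
    have key : ∀ w v y, prec (fun w v => F w (fun i => v (r i))) (fun w v => G w (fun i => v (r' i))) w v y
        = prec F G w (fun i => v (r i)) y := by
      intro w v y
      induction y with
      | zero => rfl
      | succ y ih =>
        simp only [prec]
        rw [ih]
        congr 1
        funext i
        match i with
        | 0 => rfl
        | 1 => rfl
        | i + 2 => rfl
    obtain ⟨M, hM⟩ : ∃ M, ∀ i < K, r i < M := by
      refine ⟨(∑ i ∈ range K, r i) + 1, fun i hi => ?_⟩
      have : r i ≤ ∑ i ∈ range K, r i :=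
        Finset.single_le_sum (f := r) (fun _ _ => Nat.zero_le _) (Finset.mem_range.2 hi)
      omega
    have hs : ∀ v : ℕ → ℕ, sumK K (fun i => v (r i)) ≤ K * sumK M v := by
      intro v
      have : sumK K (fun i => v (r i)) ≤ ∑ i ∈ range K, sumK M v := by
        unfold sumK
        exact Finset.sum_le_sum (fun i hi => le_sumK (hM i (Finset.mem_range.1 hi)) v)
      simpa using this
    have res := E2.nrec (fun w v => F w (fun i => v (r i))) (fun w v => G w (fun i => v (r' i)))
      (fun w v => H w (fun i => v (r i))) M ((K + 1) * c) (ihF r) hG' (ihH r) (by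
        intro w v y hy
        rw [key]
        refine (hb w _ y hy).trans ?_
        rw [pow_mul]
        apply Nat.pow_le_pow_left
        have h2 : K + 1 ≤ (w.length + sumK M v + 2) ^ K := by
          calc K + 1 ≤ 2 ^ K := Nat.lt_two_pow_self
            _ ≤ _ := Nat.pow_le_pow_left (by omega) _
        calc w.length + sumK K (fun i => v (r i)) + 2
            ≤ w.length + K * sumK M v + 2 := by have := hs v; omega
          _ ≤ (K + 1) * (w.length + sumK M v + 2) := by nlinarith
          _ ≤ (w.length + sumK M v + 2) ^ K * (w.length + sumK M v + 2) := Nat.mul_le_mul_right _ h2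
          _ = (w.length + sumK M v + 2) ^ (K + 1) := (pow_succ _ _).symm)
    have e : (fun w v => prec (fun w v => F w (fun i => v (r i))) (fun w v => G w (fun i => v (r' i))) w v
        (H w (fun i => v (r i)))) = (fun w (v : ℕ → ℕ) => prec F G w (fun i => v (r i)) (H w (fun i => v (r i)))) := by
      funext w v
      exact key w v _
    rw [e] at res
    exact res

/-- Shift of the context by two. -/
theorem E2.sh2 {F : VF α} (hF : E2 F) : E2 (fun w v => F w (fun i => v (i + 2))) := hF.rename _

theorem E2.sh1 {F : VF α} (hF : E2 F) : E2 (fun w v => F w (fun i => v (i + 1))) := hF.rename _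

theorem E2.const (n : ℕ) : E2 (α := α) (fun _ _ => n) := by
  induction n with
  | zero => exact E2.zero
  | succ n ih => exact E2.succ _ ih

theorem E2.add {F G : VF α} (hF : E2 F) (hG : E2 G) : E2 (fun w v => F w v + G w v) := by
  obtain ⟨K, c, h⟩ := hF.poly
  obtain ⟨K', c', h'⟩ := hG.poly
  have key : ∀ w v y, prec F (fun _ v => v 1 + 1) w v y = F w v + y := by
    intro w v y
    induction y with
    | zero => rfl
    | succ y ih => simp only [prec, scons]; rw [ih]; omega
  have res := E2.nrec F (fun _ v => v 1 + 1) G (K + K') (c + c' + 1) hF (E2.succ _ (E2.get 1)) hG (by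
    intro w v y hy
    rw [key]
    set X := w.length + sumK (K + K') v + 2 with hX
    have m1 : F w v ≤ X ^ (c + c') :=
      (h w v).trans (pow_mono2 (by omega) (by have := sumK_mono (Nat.le_add_right K K') v; omega) (by omega))
    have m2 : G w v ≤ X ^ (c + c') :=
      (h' w v).trans (pow_mono2 (by omega) (by have := sumK_mono (Nat.le_add_left K' K) v; omega) (by omega))
    calc F w v + y ≤ X ^ (c + c') + X ^ (c + c') := by omega
      _ = X ^ (c + c') * 2 := by ring
      _ ≤ X ^ (c + c') * X := Nat.mul_le_mul_left _ (by omega)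
      _ = X ^ (c + c' + 1) := (pow_succ _ _).symm)
  have e : (fun w v => prec F (fun _ v => v 1 + 1) w v (G w v)) = (fun w v => F w v + G w v) := by
    funext w v; exact key w v _
  rw [e] at res
  exact res

theorem E2.mul {F G : VF α} (hF : E2 F) (hG : E2 G) : E2 (fun w v => F w v * G w v) := by
  obtain ⟨K, c, h⟩ := hF.poly
  obtain ⟨K', c', h'⟩ := hG.poly
  have key : ∀ w v y, prec (fun _ _ => 0) (fun w v => v 1 + F w (fun i => v (i + 2))) w v y = F w v * y := by
    intro w v y
    induction y with
    | zero => rfl
    | succ y ih => simp only [prec, scons]; rw [ih]; ring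
  have res := E2.nrec (fun _ _ => 0) (fun w v => v 1 + F w (fun i => v (i + 2))) G (K + K') (c + c') E2.zero
    (E2.add (E2.get 1) hF.sh2) hG (by
    intro w v y hy
    rw [key]
    set X := w.length + sumK (K + K') v + 2 with hX
    have m1 : F w v ≤ X ^ c :=
      (h w v).trans (pow_mono2 (by omega) (by have := sumK_mono (Nat.le_add_right K K') v; omega) le_rfl)
    have m2 : G w v ≤ X ^ c' :=
      (h' w v).trans (pow_mono2 (by omega) (by have := sumK_mono (Nat.le_add_left K' K) v; omega) le_rfl)
    calc F w v * y ≤ X ^ c * X ^ c' := Nat.mul_le_mul m1 (hy.trans m2)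
      _ = X ^ (c + c') := (pow_add _ _ _).symm)
  have e : (fun w v => prec (fun _ _ => 0) (fun w v => v 1 + F w (fun i => v (i + 2))) w v (G w v))
      = (fun w v => F w v * G w v) := by
    funext w v; exact key w v _
  rw [e] at res
  exact res

theorem E2.powc {F : VF α} (hF : E2 F) (c : ℕ) : E2 (fun w v => F w v ^ c) := by
  induction c with
  | zero => simpa using E2.const (α := α) 1
  | succ c ih =>
    have := ih.mul hF
    simpa [pow_succ] using this

theorem E2.fsum {ι : Type} (s : Finset ι) (F : ι → VF α) (hF : ∀ i ∈ s, E2 (F i)) :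
    E2 (fun w v => ∑ i ∈ s, F i w v) := by
  classical
  induction s using Finset.induction_on with
  | empty => simpa using E2.zero (α := α)
  | insert a s ha ih =>
    have h1 := (hF a (Finset.mem_insert_self a s)).add (ih (fun i hi => hF i (Finset.mem_insert_of_mem hi)))
    simpa [Finset.sum_insert ha] using h1

/-- General substitution. -/
theorem E2.subst {F : VF α} (hF : E2 F) : ∀ σ : ℕ → VF α, (∀ i, E2 (σ i)) →
    E2 (fun w v => F w (fun i => σ i w v)) := by
  induction hF with
  | zero => exact fun σ _ => E2.zero
  | succ F hF ih => exact fun σ h => E2.succ _ (ih σ h)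
  | get i => exact fun σ h => h i
  | len => exact fun σ _ => E2.len
  | letr F hF ih => exact fun σ h => E2.letr _ (ih σ h)
  | nrec F G H K c hF hG hH hb ihF ihG ihH =>
    intro σ hσ
    let σ' : ℕ → VF α := fun i => match i with
      | 0 => fun _ v => v 0
      | 1 => fun _ v => v 1
      | i + 2 => fun w v => σ i w (fun j => v (j + 2))
    have hσ' : ∀ i, E2 (σ' i) := by
      intro i
      match i with
      | 0 => exact E2.get 0
      | 1 => exact E2.get 1
      | i + 2 => exact (hσ i).sh2
    have hG' := ihG σ' hσ'
    have key : ∀ w v y, prec (fun w v => F w (fun i => σ i w v)) (fun w v => G w (fun i => σ' i w v)) w v y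
        = prec F G w (fun i => σ i w v) y := by
      intro w v y
      induction y with
      | zero => rfl
      | succ y ih =>
        simp only [prec]
        rw [ih]
        congr 1
        funext i
        match i with
        | 0 => rfl
        | 1 => rfl
        | i + 2 => rfl
    have hB : E2 (fun w v => (w.length + (∑ i ∈ range K, σ i w v) + 2) ^ c) :=
      ((E2.len.add (E2.fsum (range K) σ (fun i _ => hσ i))).add (E2.const 2)).powc c
    have res := E2.brec (ihF σ hσ) hG' (ihH σ hσ) hB (by
      intro w v y hy
      rw [key]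
      exact hb w _ y hy)
    have e : (fun w v => prec (fun w v => F w (fun i => σ i w v)) (fun w v => G w (fun i => σ' i w v)) w v
        (H w (fun i => σ i w v))) = (fun w v => prec F G w (fun i => σ i w v) (H w (fun i => σ i w v))) := by
      funext w v
      exact key w v _
    rw [e] at res
    exact res

/-- Substitution for the first variable: the context gets the additional entry `G w v` in front. -/
theorem E2.sub1 {F G : VF α} (hF : E2 F) (hG : E2 G) : E2 (fun w v => F w (scons (G w v) v)) := by
  have := hF.subst (fun i => match i with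
    | 0 => G
    | i + 1 => fun _ v => v i) (by
      intro i
      match i with
      | 0 => exact hG
      | i + 1 => exact E2.get i)
  have e : (fun w v => F w (scons (G w v) v)) = (fun w v => F w (fun i => (match i with
    | 0 => G
    | i + 1 => fun _ v => v i : VF α) w v)) := by
    funext w v
    congr 1
    funext i
    cases i <;> rfl
  rw [e]
  exact this

/-- Substitution in a context with two additional entries. -/
theorem E2.sub2 {F G H : VF α} (hF : E2 F) (hG : E2 G) (hH : E2 H) :
    E2 (fun w v => F w (scons (G w v) (scons (H w v) v))) := by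
  have := hF.subst (fun i => match i with
    | 0 => G
    | 1 => H
    | i + 2 => fun _ v => v i) (by
      intro i
      match i with
      | 0 => exact hG
      | 1 => exact hH
      | i + 2 => exact E2.get i)
  have e : (fun w v => F w (scons (G w v) (scons (H w v) v))) = (fun w v => F w (fun i => (match i with
    | 0 => G
    | 1 => H
    | i + 2 => fun _ v => v i : VF α) w v)) := by
    funext w v
    congr 1
    funext i
    match i with
    | 0 => rfl
    | 1 => rfl
    | i + 2 => rfl
  rw [e]
  exact this

end Pool.Agent.Helper73.DC
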