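import Pool.Agent.Helper73.DC.St8
import Pool.Agent.Helper92.DC.M_D1

set_option autoImplicit false

/-! Project DC (helper73), MP_26f0da_lc: module G1 (adapted from module D1 of helper92). -/

namespace Pool.Agent.Helper73.DC.G1

open Pool.Agent.Helper73.DC
open Pool.Agent.Helper92.DC
open Finset
open scoped Classical

section
variable {α : Type} [Fintype α]

theorem edg (h5 : StL5) {F G H : VF α} (hF : E2 F) (hG : E2 G) (hH : E2 H) : E2 (fun w v => dg (F w v) (G w v) (H w v)) :=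
  (h5 (α := α) F G H F F hF hG hH hF hF).2.1

variable (T : MTab)

/-- Bound for the codes of symbol tuples. -/
noncomputable def A0 (α : Type) [Fintype α] (k : ℕ) : ℕ := k * ((Fintype.card α + 2) * (Fintype.card α + 2) ^ k)

noncomputable def bg (α : Type) [Fintype α] (T : MTab) : ℕ := T.F + T.NQ + A0 α T.k + 1

theorem sy_le (w : List α) (i : ℕ) : sy w i ≤ Fintype.card α + 2 := by
  unfold sy
  split_ifs
  · omega
  · have := lett_le w (i - 1)
    omega

theorem sc_le (w : List α) (x : ℕ) : T.sc w x ≤ A0 α T.k := by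
  unfold MTab.sc A0
  calc ∑ j ∈ range T.k, sy w (dg (w.length + 2) x j) * (Fintype.card α + 2) ^ j
      ≤ ∑ _j ∈ range T.k, (Fintype.card α + 2) * (Fintype.card α + 2) ^ T.k := by
        apply Finset.sum_le_sum
        intro j hj
        exact Nat.mul_le_mul (sy_le w _) (Nat.pow_le_pow_right (by omega) (Finset.mem_range.1 hj).le)
    _ = _ := by simp

theorem scbg (w : List α) (x : ℕ) : T.sc w x < bg α T := by
  have := sc_le T w x
  unfold bg
  omega

theorem P_pos (n : ℕ) : 0 < T.P n := by unfold MTab.P; positivity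

theorem kd_lt' {w : List α} {x : ℕ} (h0 : T.kd w x ≠ 0) (h6 : T.kd w x ≠ 6) : x < T.ac w.length := by
  by_contra hx
  unfold MTab.kd at h0 h6
  rw [if_neg hx] at h0 h6
  by_cases h : x = T.ac w.length
  · rw [if_pos h] at h0
    exact h0 rfl
  · rw [if_neg h] at h6
    exact h6 rfl

theorem div_lt' {w : List α} {x : ℕ} (h : x < T.ac w.length) : x / T.P w.length < T.F :=
  Nat.div_lt_of_lt_mul (by rw [mul_comm]; exact h)

theorem qbg {w : List α} {x : ℕ} (h : x < T.ac w.length) : x / T.P w.length < bg α T := by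
  have := div_lt' T h
  unfold bg
  omega

theorem E_n2 : E2 (α := α) (fun w _ => w.length + 2) := E2.succ _ (E2.succ _ E2.len)

theorem E_P : E2 (α := α) (fun w _ => T.P w.length) := E_n2.powc T.k

theorem E_Q' (h4 : StL4) {X : VF α} (hX : E2 X) : E2 (fun w v => X w v / T.P w.length) := (h4 X _ hX (E_P T)).1
theorem E_I' (h4 : StL4) {X : VF α} (hX : E2 X) : E2 (fun w v => X w v % T.P w.length) := (h4 X _ hX (E_P T)).2

theorem E_sy (h1 : StL1) (h2 : StL2) {X : VF α} (hX : E2 X) : E2 (fun w v => sy w (X w v)) :=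
  eite h2 (eeq h2 hX (E2.const 0)) (E2.const 0) ((E2.letr _ (h1 _ _ hX (E2.const 1)).1).add (E2.const 1))

theorem E_sc (h1 : StL1) (h2 : StL2) (h5 : StL5) {X : VF α} (hX : E2 X) : E2 (fun w v => T.sc w (X w v)) :=
  E2.fsum (range T.k) (fun j w v => sy w (dg (w.length + 2) (X w v) j) * (Fintype.card α + 2) ^ j)
    (fun j _ => (E_sy h1 h2 (edg h5 E_n2 hX (E2.const j))).mul (E2.const _))

theorem E_ac' : E2 (α := α) (fun w _ => T.ac w.length) := (E2.const T.F).mul (E_P T)

theorem E_kd' (h1 : StL1) (h2 : StL2) (h4 : StL4) (h5 : StL5) (h6 : StL6) : E2 (α := α) (fun w v => T.kd w (v 0)) := by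
  have hX : E2 (α := α) (fun _ v => v 0) := E2.get 0
  have h := eite h2 (elt h2 hX (E_ac' T)) (etab h6 (bg α T) T.tk (E_Q' T h4 hX) (E_sc T h1 h2 h5 (E_I' T h4 hX)))
    (eite h2 (eeq h2 hX (E_ac' T)) (E2.const 0) (E2.const 6))
  convert h using 3 with w v
  unfold MTab.kd
  by_cases h1 : v 0 < T.ac w.length
  · rw [if_pos h1, if_pos h1, tabf_eq (qbg T h1) (scbg T w _)]
  · rw [if_neg h1, if_neg h1]

theorem E_cl' (h1 : StL1) (h2 : StL2) (h4 : StL4) (h5 : StL5) (h6 : StL6) : E2 (α := α) (fun w v => T.cl w (v 0)) := by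
  have hX : E2 (α := α) (fun _ v => v 0) := E2.get 0
  have hk := E_kd' (α := α) T h1 h2 h4 h5 h6
  have h := eite h2 (eeq h2 hk (E2.const 5))
    (((etab h6 (bg α T) T.tn (E_Q' T h4 hX) (E_sc T h1 h2 h5 (E_I' T h4 hX))).mul (E_P T)).add (E_I' T h4 hX))
    (eite h2 (eeq h2 hk (E2.const 4)) hX (E_ac' T))
  convert h using 3 with w v
  unfold MTab.cl
  by_cases h1 : T.kd w (v 0) = 5
  · have h3 := kd_lt' T (w := w) (x := v 0) (by omega) (by omega)
    rw [if_pos h1, if_pos h1, tabf_eq (qbg T h3) (scbg T w _)]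
  · rw [if_neg h1, if_neg h1]

/-- Truncated version of `np`. -/
noncomputable def npt (w : List α) (t x : ℕ) : ℕ :=
  ∑ j ∈ range T.k, min (mvc (tabf (bg α T) (fun t c => T.tm t c j) t (T.sc w x)) (dg (w.length + 2) x j)) (w.length + 1) *
    (w.length + 2) ^ j

theorem npt_eq {w : List α} {t x : ℕ} (ht : t < bg α T) : npt T w t x = T.np w t x := by
  unfold npt MTab.np
  apply Finset.sum_congr rfl
  intro j _
  rw [tabf_eq ht (scbg T w x)]

theorem E_mvc (h1 : StL1) (h2 : StL2) {C X : VF α} (hC : E2 C) (hX : E2 X) : E2 (fun w v => mvc (C w v) (X w v)) :=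
  eite h2 (eeq h2 hC (E2.const 0)) ((h1 _ _ hX (E2.const 1)).1) (eite h2 (eeq h2 hC (E2.const 1)) hX (hX.add (E2.const 1)))

theorem E_npt (h1 : StL1) (h2 : StL2) (h5 : StL5) (h6 : StL6) {X Y : VF α} (hX : E2 X) (hY : E2 Y) :
    E2 (fun w v => npt T w (X w v) (Y w v)) :=
  E2.fsum (range T.k) (fun j w v => min (mvc (tabf (bg α T) (fun t c => T.tm t c j) (X w v) (T.sc w (Y w v)))
      (dg (w.length + 2) (Y w v) j)) (w.length + 1) * (w.length + 2) ^ j)
    (fun j _ => ((h1 _ _ (E_mvc h1 h2 (etab h6 (bg α T) (fun t c => T.tm t c j) hX (E_sc T h1 h2 h5 hY))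
      (edg h5 E_n2 hY (E2.const j))) (E2.succ _ E2.len)).2.1).mul (E_n2.powc j))

theorem E_rs' (h1 : StL1) (h2 : StL2) (h4 : StL4) (h5 : StL5) (h6 : StL6) :
    E2 (α := α) (fun w v => T.rs w (v 0) (v 1)) := by
  have hX : E2 (α := α) (fun _ v => v 0) := E2.get 0
  have hR : E2 (α := α) (fun _ v => v 1) := E2.get 1
  have hR1 : E2 (α := α) (fun _ v => v 1 - 1) := (h1 (fun _ v => v 1) (fun _ _ => 1) hR (E2.const 1)).1
  have hk := E_kd' (α := α) T h1 h2 h4 h5 h6
  have htn := (etab h6 (bg α T) T.tn (E_Q' T h4 hX) (E_sc T h1 h2 h5 (E_I' T h4 hX))).mul (E_P T)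
  have h := eite h2 (eeq h2 hk (E2.const 3)) (htn.add (E_npt T h1 h2 h5 h6 (E_Q' T h4 hX) (E_I' T h4 hX)))
        (eite h2 (eeq h2 hk (E2.const 4)) hX
          (eite h2 (eand h2 (eeq h2 hk (E2.const 5)) (eand h2 (enot h2 (eeq h2 hR (E2.const 0)))
              (elt h2 (E_Q' T h4 hR1) (E2.const T.NQ))))
            (((etab h6 (bg α T) T.ts (E_Q' T h4 hX) (E_Q' T h4 hR1)).mul (E_P T)).add (E_I' T h4 hR1))
            (E_ac' T)))
  convert h using 3 with w v
  unfold MTab.rs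
  by_cases c3 : T.kd w (v 0) = 3
  · have h3 := kd_lt' T (w := w) (x := v 0) (by omega) (by omega)
    rw [if_pos c3, if_pos c3, tabf_eq (qbg T h3) (scbg T w _), npt_eq T (qbg T h3)]
  · rw [if_neg c3, if_neg c3]
    by_cases c4 : T.kd w (v 0) = 4
    · rw [if_pos c4, if_pos c4]
    · rw [if_neg c4, if_neg c4]
      by_cases c5 : T.kd w (v 0) = 5 ∧ v 1 ≠ 0 ∧ (v 1 - 1) / T.P w.length < T.NQ
      · have h3 := kd_lt' T (w := w) (x := v 0) (by omega) (by omega)
        have h7 : (v 1 - 1) / T.P w.length < bg α T := by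
          unfold bg
          omega
        rw [if_pos c5, if_pos c5, tabf_eq (qbg T h3) h7]
      · rw [if_neg c5, if_neg c5]

theorem E_lf' (h1 : StL1) (h2 : StL2) (h4 : StL4) (h5 : StL5) (h6 : StL6) : E2 (α := α) (fun w v => T.lf w (v 0)) := by
  have hX : E2 (α := α) (fun _ v => v 0) := E2.get 0
  have hk := E_kd' (α := α) T h1 h2 h4 h5 h6
  have h := eite h2 (eeq h2 hk (E2.const 0)) (E2.const 1)
    (eite h2 (eand h2 (eeq h2 hk (E2.const 1)) (elt h2 hX (E_ac' T)))
      ((((etab1 h6 (bg α T) T.tq (E_Q' T h4 hX)).mul (E_P T)).add (E_I' T h4 hX)).add (E2.const 2)) (E2.const 0))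
  convert h using 3 with w v
  unfold MTab.lf
  by_cases c : T.kd w (v 0) = 0
  · rw [if_pos c, if_pos c]
  · rw [if_neg c, if_neg c]
    by_cases c1 : T.kd w (v 0) = 1 ∧ v 0 < T.ac w.length
    · rw [if_pos c1, if_pos c1, if_pos (qbg T c1.2)]
    · rw [if_neg c1, if_neg c1]

theorem val_lt' {t F P i : ℕ} (ht : t < F) (hi : i < P) : t * P + i ≤ F * P := by
  have h1 : (t + 1) * P ≤ F * P := Nat.mul_le_mul_right _ ht
  have h2 : (t + 1) * P = t * P + P := by ring
  omega

theorem mod_lt' (x n : ℕ) : x % T.P n < T.P n := Nat.mod_lt _ (P_pos T n)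

theorem dsum_lt (n k : ℕ) (d : ℕ → ℕ) (hd : ∀ j, d j ≤ n + 1) : ∑ j ∈ range k, d j * (n + 2) ^ j < (n + 2) ^ k := by
  induction k with
  | zero => simp
  | succ k ih =>
    rw [Finset.sum_range_succ]
    have h1 : d k * (n + 2) ^ k ≤ (n + 1) * (n + 2) ^ k := Nat.mul_le_mul_right _ (hd k)
    have h2 : (n + 2) ^ (k + 1) = (n + 1) * (n + 2) ^ k + (n + 2) ^ k := by ring
    omega

theorem np_lt (w : List α) (t x : ℕ) : T.np w t x < T.P w.length :=
  dsum_lt w.length T.k _ (fun _ => min_le_right _ _)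

theorem cl_le' (w : List α) (x : ℕ) : T.cl w x ≤ T.F * T.P w.length := by
  unfold MTab.cl
  split_ifs with c5 c4
  · exact val_lt' (T.hn _ _) (mod_lt' T _ _)
  · exact (kd_lt' T (w := w) (x := x) (by omega) (by omega)).le
  · exact le_rfl

theorem rs_le' (w : List α) (x r : ℕ) : T.rs w x r ≤ T.F * T.P w.length := by
  unfold MTab.rs
  split_ifs with c3 c4 c5
  · exact val_lt' (T.hn _ _) (np_lt T _ _ _)
  · exact (kd_lt' T (w := w) (x := x) (by omega) (by omega)).le
  · exact val_lt' (T.hs _ _) (mod_lt' T _ _)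
  · exact le_rfl

theorem lf_le' (w : List α) (x : ℕ) : T.lf w x ≤ (T.NQ + 1) * T.P w.length := by
  have hP := P_pos T w.length
  have h1 : 1 ≤ (T.NQ + 1) * T.P w.length := Nat.one_le_iff_ne_zero.2 (by positivity)
  unfold MTab.lf
  split_ifs with c c0
  · exact h1
  · have h2 := T.hq (x / T.P w.length)
    have h3 : (T.tq (x / T.P w.length) + 1) * T.P w.length ≤ T.NQ * T.P w.length := Nat.mul_le_mul_right _ h2
    have h4 := mod_lt' T x w.length
    have h5 : (T.tq (x / T.P w.length) + 1) * T.P w.length = T.tq (x / T.P w.length) * T.P w.length + T.P w.length := by ring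
    have h6 : (T.NQ + 1) * T.P w.length = T.NQ * T.P w.length + T.P w.length := by ring
    omega
  · exact Nat.zero_le _

theorem pow_big' {M c n k : ℕ} (h : c ≤ M) : c * (n + 2) ^ k + 1 < (n + 2) ^ (M + k + 1) := by
  have h1 : c < (n + 2) ^ M := by
    calc c ≤ M := h
      _ < 2 ^ M := Nat.lt_two_pow_self
      _ ≤ (n + 2) ^ M := Nat.pow_le_pow_left (by omega) _
  have h2 : 1 ≤ (n + 2) ^ k := Nat.one_le_pow _ _ (by omega)
  have h3 : (c + 1) * (n + 2) ^ k ≤ (n + 2) ^ M * (n + 2) ^ k := Nat.mul_le_mul_right _ h1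
  have h4 : (n + 2) ^ (M + k + 1) = (n + 2) ^ M * (n + 2) ^ k * (n + 2) := by ring
  have h5 : (n + 2) ^ M * (n + 2) ^ k * 2 ≤ (n + 2) ^ M * (n + 2) ^ k * (n + 2) := Nat.mul_le_mul_left _ (by omega)
  have h6 : (c + 1) * (n + 2) ^ k = c * (n + 2) ^ k + (n + 2) ^ k := by ring
  have h7 : 1 ≤ (n + 2) ^ M * (n + 2) ^ k := Nat.one_le_iff_ne_zero.2 (by positivity)
  omega

end

end Pool.Agent.Helper73.DC.G1

namespace Pool.Agent.Helper73.DC

open Pool.Agent.Helper73.DC.G1

theorem mG1 : StL1 → StL2 → StL3 → StL4 → StL5 → StL6 → StG1 := by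
  intro h1 h2 _ h4 h5 h6 α _ T
  refine ⟨E_cl' T h1 h2 h4 h5 h6, E_rs' T h1 h2 h4 h5 h6, E_lf' T h1 h2 h4 h5 h6,
    fun t => (E2.const t).mul (E_P T), (T.F + T.NQ + 2) + T.k + 1, fun w x r => ⟨?_, ?_, ?_, ?_⟩⟩
  · have h := pow_big' (M := T.F + T.NQ + 2) (c := T.F) (n := w.length) (k := T.k) (by omega)
    have h' := cl_le' T w x
    unfold MTab.P at h'
    omega
  · have h := pow_big' (M := T.F + T.NQ + 2) (c := T.F) (n := w.length) (k := T.k) (by omega)
    have h' := rs_le' T w x r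
    unfold MTab.P at h'
    omega
  · have h := pow_big' (M := T.F + T.NQ + 2) (c := T.NQ + 1) (n := w.length) (k := T.k) (by omega)
    have h' := lf_le' T w x
    unfold MTab.P at h'
    omega
  · have h := pow_big' (M := T.F + T.NQ + 2) (c := T.F) (n := w.length) (k := T.k) (by omega)
    unfold MTab.ac MTab.P
    omega

end Pool.Agent.Helper73.DC
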