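import Pool.Agent.Helper73.DC.St8
import Pool.Agent.Helper8.DC.M_TI
import Pool.Agent.Helper8.DC.M_FG1
import Pool.Agent.Helper8.DC.M_FG2
import Pool.Agent.Helper8.DC.M_FG3
import Pool.Agent.Helper8.DC.M_PD
import Pool.Agent.Helper8.DC.M_CB
import Pool.Agent.Helper8.DC.M_CS
import Pool.Agent.Helper51.DC.M_TD
import Pool.Agent.Helper51.DC.M_L1
import Pool.Agent.Helper51.DC.M_P9
import Pool.Agent.Helper69.DC.M_TM
import Pool.Agent.Helper69.DC.M_L3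
import Pool.Agent.Helper69.DC.M_L4
import Pool.Agent.Helper69.DC.M_L5
import Pool.Agent.Helper78.DC.M_CR
import Pool.Agent.Helper78.DC.M_TOP
import Pool.Agent.Helper64.DC.M_L2
import Pool.Agent.Helper64.DC.M_L6
import Pool.Agent.Helper64.DC.M_L7
import Pool.Agent.Helper72.DC.M_L8
import Pool.Agent.Helper72.DC.M_M2
import Pool.Agent.Helper71.DC.M_F1
import Pool.Agent.Helper28.DC.M_F2
import Pool.Agent.Helper28.DC.M_P3
import Pool.Agent.Helper28.DC.M_A2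
import Pool.Agent.Helper42.DC.M_F3
import Pool.Agent.Helper42.DC.M_M5
import Pool.Agent.Helper2.DC.M_F4
import Pool.Agent.Helper2.DC.M_F5
import Pool.Agent.Helper2.DC.M_M1
import Pool.Agent.Helper2.DC.M_M3
import Pool.Agent.Helper90.DC.M_F6
import Pool.Agent.Helper82.DC.M_F7
import Pool.Agent.Helper82.DC.M_P1
import Pool.Agent.Helper82.DC.M_P2
import Pool.Agent.Helper83.DC.M_M4
import Pool.Agent.Helper83.DC.M_M6
import Pool.Agent.Helper83.DC.M_M7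
import Pool.Agent.Helper34.DC.M_P4
import Pool.Agent.Helper34.DC.M_A1
import Pool.Agent.Helper36.DC.M_P5
import Pool.Agent.Helper93.DC.M_P6
import Pool.Agent.Helper93.DC.M_A5
import Pool.Agent.Helper95.DC.M_P7
import Pool.Agent.Helper4.DC.M_P8
import Pool.Agent.Helper47.DC.M_P10
import Pool.Agent.Helper79.DC.M_A3
import Pool.Agent.Helper79.DC.M_D4
import Pool.Agent.Helper62.DC.M_A4
import Pool.Agent.Helper37.DC.SS
import Pool.Agent.Helper92.DC.M_D1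
import Pool.Agent.Helper41.DC.M_D3
import Pool.Agent.Helper6.DC.M_D7
import Pool.Agent.Helper37.DC.SC
import Pool.Agent.Helper38.DC.M_P0
import Pool.Agent.Helper73.DC.M_G1
import Pool.Agent.Helper57.DC.M_D2
import Pool.Agent.Helper82.DC.M_D5
import Pool.Agent.Helper82.DC.M_D6
import Pool.Agent.Helper72.DC.M_G2
import Pool.Agent.Helper12.DC.M_G3
import Pool.Agent.Helper84.DC.M_G4
import Pool.Agent.Helper6.DC.M_G5
import Pool.Agent.Helper16.DC.M_G6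
import Pool.Agent.Helper92.DC.M_G7

set_option autoImplicit false

/-! Project DC (helper73), MP_26f0da_lc: assembly of the modules. -/

namespace Pool.Agent.Helper73.DC

theorem tTM : StTM := Pool.Agent.Helper69.DC.mTM Pool.Agent.Helper8.DC.hTI Pool.Agent.Helper51.DC.mTD
theorem tPD : StPD := Pool.Agent.Helper8.DC.hPD Pool.Agent.Helper8.DC.hFG1 Pool.Agent.Helper8.DC.hFG2 Pool.Agent.Helper8.DC.hFG3
theorem tTOP : StTOP := Pool.Agent.Helper78.DC.mTOP tTM tPD Pool.Agent.Helper8.DC.hCB Pool.Agent.Helper8.DC.hCS Pool.Agent.Helper78.DC.mCR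

theorem tL1 : StL1 := Pool.Agent.Helper51.DC.mL1
theorem tL2 : StL2 := Pool.Agent.Helper64.DC.mL2 tL1
theorem tL3 : StL3 := Pool.Agent.Helper69.DC.mL3 tL1 tL2
theorem tL4 : StL4 := Pool.Agent.Helper69.DC.mL4 tL1 tL2 tL3
theorem tL5 : StL5 := Pool.Agent.Helper69.DC.mL5 tL1 tL2 tL3 tL4
theorem tL6 : StL6 := Pool.Agent.Helper64.DC.mL6 tL1 tL2
theorem tL7 : StL7 := Pool.Agent.Helper64.DC.mL7
theorem tL8 : StL8 := Pool.Agent.Helper72.DC.mL8 tL1 tL2 tL3 tL4 tL5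

theorem tF3 : StF3 := Pool.Agent.Helper42.DC.mF3
theorem tF4 : StF4 := Pool.Agent.Helper2.DC.mF4 tL1 tL2 tL3 tL4 tL5 tL6 tF3
theorem tF5 : StF5 := Pool.Agent.Helper2.DC.mF5 tL1 tL2 tL3 tL4 tL5 tL6
theorem tF6 : StF6 :=
  Pool.Agent.Helper90.DC.mF6 tL1 tL2 tL3 tL4 tL5 tL6 tL7 tL8 Pool.Agent.Helper71.DC.mF1 Pool.Agent.Helper28.DC.mF2 tF3 tF4 tF5
theorem tF7 : StF7 := Pool.Agent.Helper82.DC.mF7

theorem tM2 : StM2 := Pool.Agent.Helper72.DC.mM2 Pool.Agent.Helper2.DC.mM1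
theorem tM3 : StM3 := Pool.Agent.Helper2.DC.mM3
theorem tM4 : StM4 := Pool.Agent.Helper83.DC.mM4 tL1 tL2 tL3 tL4 tL5 tL6
theorem tM5 : StM5 := Pool.Agent.Helper42.DC.mM5 tL1 tL2 tL3 tL4 tL5 tL8
theorem tM6 : StM6 := Pool.Agent.Helper83.DC.mM6
theorem tM7 : StM7 := Pool.Agent.Helper83.DC.mM7 tL1 tL2 tL3 tL4 tL5 tL7 tM6

theorem tP1 : StP1 := Pool.Agent.Helper82.DC.mP1
theorem tP2 : StP2 := Pool.Agent.Helper82.DC.mP2 tP1
theorem tP3 : StP3 := Pool.Agent.Helper28.DC.mP3 tP1 tP2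
theorem tP4 : StP4 := Pool.Agent.Helper34.DC.mP4 tP3 tM3
theorem tP5 : StP5 := Pool.Agent.Helper36.DC.mP5 tP4 tM3 tM5
theorem tP6 : StP6 := Pool.Agent.Helper93.DC.mP6 tP5 tM2 tM6
theorem tP7 : StP7 := Pool.Agent.Helper95.DC.mP7 tP6
theorem tP8 : StP8 := Pool.Agent.Helper4.DC.mP8
theorem tP9 : StP9 := Pool.Agent.Helper51.DC.mP9 tF3 tP7 tP8
theorem tP10 : StP10 := Pool.Agent.Helper47.DC.mP10 tP1 tP8 tP9

theorem tA4 : StA4 := Pool.Agent.Helper62.DC.mA4 Pool.Agent.Helper37.DC.mSS Pool.Agent.Helper37.DC.mSC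
theorem tP0 : StP0 := Pool.Agent.Helper38.DC.mP0 tL1 tL2 tL3 tL4 tL5 tL6 tM4 tM5
theorem tABS : StABS :=
  Pool.Agent.Helper93.DC.mA5 tP0 tP10 tM7 tF6 tF7 tTOP Pool.Agent.Helper34.DC.mA1 Pool.Agent.Helper28.DC.mA2
    (Pool.Agent.Helper79.DC.mA3 tL1 tL2 tL3 tL4 tL5) tA4 tL1 tL2 tL3 tL4 tL5

theorem tD3 : StD3 := Pool.Agent.Helper41.DC.mD3
theorem tD7 : StD7 :=
  Pool.Agent.Helper6.DC.mD7 tABS (Pool.Agent.Helper92.DC.mD1 tL1 tL2 tL3 tL4 tL5 tL6) Pool.Agent.Helper57.DC.mD2 tD3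
    (Pool.Agent.Helper79.DC.mD4 tD3) (Pool.Agent.Helper82.DC.mD5 tD3) (Pool.Agent.Helper82.DC.mD6 tD3)

theorem tG3 : StG3 := Pool.Agent.Helper12.DC.mG3
theorem tG1 : StG1 := mG1 tL1 tL2 tL3 tL4 tL5 tL6
theorem tG7 : StG7 :=
  Pool.Agent.Helper92.DC.mG7 tABS tG1 Pool.Agent.Helper72.DC.mG2 tG3 (Pool.Agent.Helper84.DC.mG4 tG3)
    (Pool.Agent.Helper6.DC.mG5 tG3) Pool.Agent.Helper16.DC.mG6

/-- Deterministic context-free languages. -/
theorem dcfl_mem {α : Type} [Fintype α] (M : DPDA α) : M.lang ∈ DSPACE (α := α) SSn := tD7 M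

/-- Languages of deterministic two-way multihead pushdown automata in polynomial time. -/
theorem logdcfl_mem {α : Type} [Fintype α] (M : MPDA α) (e : ℕ) (h : ∀ w ∈ M.lang, M.AccIn w ((w.length + 2) ^ e)) :
    M.lang ∈ DSPACE (α := α) SSn := tG7 M e h

end Pool.Agent.Helper73.DC
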