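import Pool.Agent.Helper73.DC.St7

set_option autoImplicit false

/-! Project DC (helper73), MP_26f0da_lc: deterministic two-way pushdown automata with several heads (definitions). -/

namespace Pool.Agent.Helper73.DC

open Finset
open scoped Classical

/-- A deterministic two-way pushdown automaton with `k` input heads on the tape `⊢ w ⊣`: finite sets of states and stack symbols, initial
state and stack symbol, accepting states, and moves `tr q Z x` (state, top stack symbol, symbols seen by the heads): `none` = no move is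
possible, otherwise the new state, the moves of the heads and the word which replaces the top symbol (its first letter is the new top). -/
structure MPDA (α : Type) where
  k : ℕ
  Q : Type
  Γ : Type
  finQ : Finite Q
  finΓ : Finite Γ
  q0 : Q
  z0 : Γ
  acc : Q → Prop
  tr : Q → Γ → (Fin k → Sym α) → Option (Q × (Fin k → Mv) × List Γ)

/-- New positions of the heads (they stay between the end markers, cells 0 and |w| + 1). -/
def nps {α : Type} {k : ℕ} (w : List α) (d : Fin k → Mv) (p : Fin k → ℕ) : Fin k → ℕ :=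
  fun j => min (mvN (d j) (p j)) (w.length + 1)

/-- One move; a configuration consists of the state, the positions of the heads and the stack (top first). -/
inductive MPDA.Step {α : Type} (M : MPDA α) (w : List α) :
    M.Q × (Fin M.k → ℕ) × List M.Γ → M.Q × (Fin M.k → ℕ) × List M.Γ → Prop where
  | mk (q q' : M.Q) (p : Fin M.k → ℕ) (d : Fin M.k → Mv) (Z : M.Γ) (s γ : List M.Γ) :
      M.tr q Z (fun j => symAt w (p j)) = some (q', d, γ) → MPDA.Step M w (q, p, Z :: s) (q', nps w d p, γ ++ s)

/-- A run of exactly `n` moves. -/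
def MPDA.Run {α : Type} (M : MPDA α) (w : List α) : ℕ → M.Q × (Fin M.k → ℕ) × List M.Γ → M.Q × (Fin M.k → ℕ) × List M.Γ → Prop
  | 0, c, d => c = d
  | n + 1, c, d => ∃ c', M.Step w c c' ∧ M.Run w n c' d

/-- `w` is accepted within `t` moves: started with all heads on the left end marker and the stack `z0` an accepting state is reached. -/
def MPDA.AccIn {α : Type} (M : MPDA α) (w : List α) (t : ℕ) : Prop :=
  ∃ l ≤ t, ∃ (q : M.Q) (p : Fin M.k → ℕ) (s : List M.Γ), M.acc q ∧ M.Run w l (M.q0, fun _ => 0, [M.z0]) (q, p, s)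

/-- The accepted language. -/
def MPDA.lang {α : Type} (M : MPDA α) : Set (List α) := {w | ∃ t, M.AccIn w t}

/-! ### Table systems -/

/-- Finite tables that describe a call structure on the nodes (t, c), t < F, c < (n+2)^k a code of k positions, coded as t (n+2)^k + c,
and the node F (n+2)^k (`accept`).  Kinds: 0 accept, 1 empty stack word, 3 move, 4 stuck, 5 stack word of length >= 2. -/
structure MTab where
  k : ℕ
  F : ℕ
  NQ : ℕ
  tk : ℕ → ℕ → ℕ
  tn : ℕ → ℕ → ℕ
  tm : ℕ → ℕ → ℕ → ℕ
  ts : ℕ → ℕ → ℕ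
  tq : ℕ → ℕ
  hF : 0 < F
  hn : ∀ t c, tn t c < F
  hs : ∀ t q, ts t q < F
  hq : ∀ t, tq t < NQ

/-- Code of the symbol in cell `i`. -/
noncomputable def sy {α : Type} [Fintype α] (w : List α) (i : ℕ) : ℕ := if i = 0 then 0 else lett w (i - 1) + 1

/-- The move with the number `c` (0 left, 1 stay, otherwise right). -/
def mvc (c p : ℕ) : ℕ := if c = 0 then p - 1 else if c = 1 then p else p + 1

section
variable {α : Type} [Fintype α] (T : MTab)

/-- Number of position codes. -/
def MTab.P (n : ℕ) : ℕ := (n + 2) ^ T.k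

/-- The accepting node. -/
def MTab.ac (n : ℕ) : ℕ := T.F * T.P n

/-- Code of the symbols seen by the heads in the positions coded by `x`. -/
noncomputable def MTab.sc (w : List α) (x : ℕ) : ℕ :=
  ∑ j ∈ range T.k, sy w (dg (w.length + 2) x j) * (Fintype.card α + 2) ^ j

/-- New position code. -/
noncomputable def MTab.np (w : List α) (t x : ℕ) : ℕ :=
  ∑ j ∈ range T.k, min (mvc (T.tm t (T.sc w x) j) (dg (w.length + 2) x j)) (w.length + 1) * (w.length + 2) ^ j

/-- Kind of a node. -/
noncomputable def MTab.kd (w : List α) (x : ℕ) : ℕ :=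
  if x < T.ac w.length then T.tk (x / T.P w.length) (T.sc w (x % T.P w.length))
  else if x = T.ac w.length then 0 else 6

/-- Leaf values (+1): 0 = accept, otherwise 1 + (state number) (n+2)^k + position code. -/
noncomputable def MTab.lf (w : List α) (x : ℕ) : ℕ :=
  if T.kd w x = 0 then 1
  else if T.kd w x = 1 ∧ x < T.ac w.length then T.tq (x / T.P w.length) * T.P w.length + x % T.P w.length + 2
  else 0

noncomputable def MTab.cl (w : List α) (x : ℕ) : ℕ :=
  if T.kd w x = 5 then T.tn (x / T.P w.length) (T.sc w (x % T.P w.length)) * T.P w.length + x % T.P w.length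
  else if T.kd w x = 4 then x
  else T.ac w.length

noncomputable def MTab.rs (w : List α) (x r : ℕ) : ℕ :=
  if T.kd w x = 3 then
    T.tn (x / T.P w.length) (T.sc w (x % T.P w.length)) * T.P w.length + T.np w (x / T.P w.length) (x % T.P w.length)
  else if T.kd w x = 4 then x
  else if T.kd w x = 5 ∧ r ≠ 0 ∧ (r - 1) / T.P w.length < T.NQ then
    T.ts (x / T.P w.length) ((r - 1) / T.P w.length) * T.P w.length + (r - 1) % T.P w.length
  else T.ac w.length

end

/-! ### The tables of a pushdown automaton -/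

/-- Code of a symbol. -/
noncomputable def scd {α : Type} [Fintype α] : Sym α → ℕ
  | Sym.lm => 0
  | Sym.rm => 1
  | Sym.ch a => cd a + 2

/-- Code of a tuple of symbols. -/
noncomputable def vcd {α : Type} [Fintype α] {k : ℕ} (x : Fin k → Sym α) : ℕ :=
  ∑ j : Fin k, scd (x j) * (Fintype.card α + 2) ^ (j : ℕ)

/-- Code of a tuple of positions. -/
def pcd (n : ℕ) {k : ℕ} (p : Fin k → ℕ) : ℕ := ∑ j : Fin k, p j * (n + 2) ^ (j : ℕ)

/-- Number of a move. -/
def mvd : Mv → ℕ
  | Mv.L => 0
  | Mv.S => 1
  | Mv.R => 2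

/-- `T` describes the pushdown automaton `M` through the numberings `num` of the pairs (state, stack word of length <= K) and `qn` of the
states. -/
structure MDesc {α : Type} [Fintype α] (M : MPDA α) (T : MTab) (K : ℕ) (num : M.Q → List M.Γ → ℕ) (qn : M.Q → ℕ) : Prop where
  hk : T.k = M.k
  hK : 1 ≤ K
  hKt : ∀ q Z x q' d γ, M.tr q Z x = some (q', d, γ) → γ.length ≤ K
  hnum : ∀ q β, β.length ≤ K → num q β < T.F
  inj : ∀ q β q' β', β.length ≤ K → β'.length ≤ K → num q β = num q' β' → q = q' ∧ β = β'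
  hqn : ∀ q, qn q < T.NQ
  qinj : ∀ q q', qn q = qn q' → q = q'
  kacc : ∀ q β c, β.length ≤ K → M.acc q → T.tk (num q β) c = 0
  knil : ∀ q c, ¬ M.acc q → T.tk (num q []) c = 1 ∧ T.tq (num q []) = qn q
  ktr : ∀ q Z x q' d γ, ¬ M.acc q → M.tr q Z x = some (q', d, γ) →
    T.tk (num q [Z]) (vcd x) = 3 ∧ T.tn (num q [Z]) (vcd x) = num q' γ ∧ ∀ j : Fin M.k, T.tm (num q [Z]) (vcd x) j = mvd (d j)
  kst : ∀ q Z x, ¬ M.acc q → M.tr q Z x = none → T.tk (num q [Z]) (vcd x) = 4
  ksq : ∀ q Z Y β c, (Z :: Y :: β).length ≤ K → ¬ M.acc q →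
    T.tk (num q (Z :: Y :: β)) c = 5 ∧ T.tn (num q (Z :: Y :: β)) c = num q [Z] ∧
      ∀ q', T.ts (num q (Z :: Y :: β)) (qn q') = num q' (Y :: β)

/-- The node of (q, β, positions p). -/
def mnd {α : Type} (M : MPDA α) (num : M.Q → List M.Γ → ℕ) (n : ℕ) (q : M.Q) (β : List M.Γ) (p : Fin M.k → ℕ) : ℕ :=
  num q β * (n + 2) ^ M.k + pcd n p

end Pool.Agent.Helper73.DC
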