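import Pool.Agent.Helper73.DC.St6

set_option autoImplicit false

/-! Project DC (helper73), MP_26f0da_lc: deterministic pushdown automata (definitions). -/

namespace Pool.Agent.Helper73.DC

open Finset
open scoped Classical

/-- A deterministic pushdown automaton: finite sets of states and stack symbols, initial state and stack symbol, accepting states,
reading moves `tr q Z a` and ε-moves `ep q Z` (new state and the word which replaces the top symbol `Z`, its first letter is the new
top); if an ε-move is possible in (q, Z) then no reading move is. -/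
structure DPDA (α : Type) where
  Q : Type
  Γ : Type
  finQ : Finite Q
  finΓ : Finite Γ
  q0 : Q
  z0 : Γ
  acc : Q → Prop
  tr : Q → Γ → α → Option (Q × List Γ)
  ep : Q → Γ → Option (Q × List Γ)
  det : ∀ q Z, ep q Z ≠ none → ∀ a, tr q Z a = none

/-- One move; a configuration consists of the state, the rest of the input and the stack (top first). -/
inductive DPDA.Step {α : Type} (M : DPDA α) : M.Q × List α × List M.Γ → M.Q × List α × List M.Γ → Prop where
  | rd (q q' : M.Q) (a : α) (u : List α) (Z : M.Γ) (s γ : List M.Γ) : M.tr q Z a = some (q', γ) →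
      DPDA.Step M (q, a :: u, Z :: s) (q', u, γ ++ s)
  | ep (q q' : M.Q) (u : List α) (Z : M.Γ) (s γ : List M.Γ) : M.ep q Z = some (q', γ) →
      DPDA.Step M (q, u, Z :: s) (q', u, γ ++ s)

/-- The language accepted by final state: some configuration with an accepting state is reached after the whole input is read. -/
def DPDA.lang {α : Type} (M : DPDA α) : Set (List α) :=
  {w | ∃ (q : M.Q) (s : List M.Γ), M.acc q ∧ Relation.ReflTransGen M.Step (M.q0, w, [M.z0]) (q, [], s)}

/-! ### Table systems -/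

/-- Finite tables that describe a call structure on the nodes (t, i), t < F, i <= n = |w|, coded as t (n+1) + i, and the node F (n+1)
(`accept`).  Kinds: 0 accept, 1 empty stack word, 2 ε-move, 3 reading move, 4 stuck, 5 stack word of length >= 2, 6 invalid. -/
structure Tab where
  F : ℕ
  NQ : ℕ
  tk : ℕ → ℕ → ℕ
  tn : ℕ → ℕ → ℕ
  ts : ℕ → ℕ → ℕ
  tb : ℕ → ℕ → ℕ
  tq : ℕ → ℕ
  hF : 0 < F
  hn : ∀ t c, tn t c < F
  hs : ∀ t q, ts t q < F
  hb : ∀ t c, tb t c < NQ + 2
  hq : ∀ t, tq t < NQ

section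
variable {α : Type} [Fintype α] (T : Tab)

/-- The accepting node. -/
def Tab.ac (n : ℕ) : ℕ := T.F * (n + 1)

/-- Kind of a node. -/
noncomputable def Tab.kd (w : List α) (x : ℕ) : ℕ :=
  if x < T.ac w.length then T.tk (x / (w.length + 1)) (lett w (x % (w.length + 1)))
  else if x = T.ac w.length then 0 else 6

/-- Leaf values (+1): 0 = accept, otherwise 1 + (state number) (n+1) + position. -/
noncomputable def Tab.lf (w : List α) (x : ℕ) : ℕ :=
  if T.kd w x = 0 then 1
  else if T.kd w x = 1 then T.tq (x / (w.length + 1)) * (w.length + 1) + x % (w.length + 1) + 2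
  else 0

noncomputable def Tab.cl (w : List α) (x : ℕ) : ℕ :=
  if T.kd w x = 5 then T.tn (x / (w.length + 1)) (lett w (x % (w.length + 1))) * (w.length + 1) + x % (w.length + 1)
  else if T.kd w x = 4 then x
  else T.ac w.length

noncomputable def Tab.rs (w : List α) (x r : ℕ) : ℕ :=
  if T.kd w x = 2 then T.tn (x / (w.length + 1)) (lett w (x % (w.length + 1))) * (w.length + 1) + x % (w.length + 1)
  else if T.kd w x = 3 then
    T.tn (x / (w.length + 1)) (lett w (x % (w.length + 1))) * (w.length + 1) + min (x % (w.length + 1) + 1) w.length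
  else if T.kd w x = 4 then x
  else if T.kd w x = 5 ∧ r ≠ 0 then
    T.ts (x / (w.length + 1)) ((r - 1) / (w.length + 1)) * (w.length + 1) + (r - 1) % (w.length + 1)
  else T.ac w.length

noncomputable def Tab.wt (w : List α) (x : ℕ) : ℕ := if T.kd w x = 3 ∨ T.kd w x = 6 then 1 else 0

noncomputable def Tab.f0 (w : List α) (x : ℕ) : ℕ :=
  if x < T.ac w.length then
    (if T.tb (x / (w.length + 1)) (lett w (x % (w.length + 1))) = 0 then 0
      else if T.tb (x / (w.length + 1)) (lett w (x % (w.length + 1))) = 1 then 1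
      else (T.tb (x / (w.length + 1)) (lett w (x % (w.length + 1))) - 2) * (w.length + 1) + x % (w.length + 1) + 2)
  else if x = T.ac w.length then 1 else 0

end

/-! ### The tables of a pushdown automaton -/

/-- Results of ε-computations: from state `q` and stack word `β` (nothing below is used), `b` = `the input is finished`: `none` = an
accepting configuration is reached, `some q'` = the word `β` is popped and the state is `q'`. -/
inductive EpR {α : Type} (M : DPDA α) (b : Prop) : M.Q → List M.Γ → Option M.Q → Prop where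
  | acc (q : M.Q) (β : List M.Γ) : b → M.acc q → EpR M b q β none
  | nil (q : M.Q) : ¬ (b ∧ M.acc q) → EpR M b q [] (some q)
  | mv (q q' : M.Q) (Z : M.Γ) (γ : List M.Γ) (r : Option M.Q) : ¬ (b ∧ M.acc q) → M.ep q Z = some (q', γ) →
      EpR M b q' γ r → EpR M b q [Z] r
  | sq (q q' : M.Q) (Z Y : M.Γ) (β : List M.Γ) (r : Option M.Q) : ¬ (b ∧ M.acc q) → EpR M b q [Z] (some q') →
      EpR M b q' (Y :: β) r → EpR M b q (Z :: Y :: β) r
  | sqa (q : M.Q) (Z Y : M.Γ) (β : List M.Γ) : ¬ (b ∧ M.acc q) → EpR M b q [Z] none → EpR M b q (Z :: Y :: β) none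

/-- `T` describes the pushdown automaton `M` through the numberings `num` of the pairs (state, stack word of length <= K) and `qn` of the
states; `c` = 0 stands for the end of the input, `c = cd a + 1` for the letter `a`. -/
structure Desc {α : Type} [Fintype α] (M : DPDA α) (T : Tab) (K : ℕ) (num : M.Q → List M.Γ → ℕ) (qn : M.Q → ℕ) : Prop where
  hK : 1 ≤ K
  hKt : ∀ q Z a q' γ, M.tr q Z a = some (q', γ) → γ.length ≤ K
  hKe : ∀ q Z q' γ, M.ep q Z = some (q', γ) → γ.length ≤ K
  hnum : ∀ q β, β.length ≤ K → num q β < T.F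
  inj : ∀ q β q' β', β.length ≤ K → β'.length ≤ K → num q β = num q' β' → q = q' ∧ β = β'
  hqn : ∀ q, qn q < T.NQ
  qinj : ∀ q q', qn q = qn q' → q = q'
  kinv : ∀ t c, (∀ q β, β.length ≤ K → num q β ≠ t) → T.tk t c = 6 ∧ T.tb t c = 0
  kacc : ∀ q β, β.length ≤ K → M.acc q → T.tk (num q β) 0 = 0
  knil : ∀ q c, ¬ (c = 0 ∧ M.acc q) → T.tk (num q []) c = 1 ∧ T.tq (num q []) = qn q
  kep : ∀ q Z q' γ c, ¬ (c = 0 ∧ M.acc q) → M.ep q Z = some (q', γ) → T.tk (num q [Z]) c = 2 ∧ T.tn (num q [Z]) c = num q' γ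
  ktr : ∀ q Z q' γ a, M.tr q Z a = some (q', γ) → T.tk (num q [Z]) (cd a + 1) = 3 ∧ T.tn (num q [Z]) (cd a + 1) = num q' γ
  kst : ∀ q Z c, ¬ (c = 0 ∧ M.acc q) → M.ep q Z = none → (∀ a, c = cd a + 1 → M.tr q Z a = none) → T.tk (num q [Z]) c = 4
  ksq : ∀ q Z Y β c, (Z :: Y :: β).length ≤ K → ¬ (c = 0 ∧ M.acc q) →
    T.tk (num q (Z :: Y :: β)) c = 5 ∧ T.tn (num q (Z :: Y :: β)) c = num q [Z] ∧
      ∀ q', T.ts (num q (Z :: Y :: β)) (qn q') = num q' (Y :: β)
  kb0 : ∀ q β c, β.length ≤ K → (T.tb (num q β) c = 0 ↔ ∀ r, ¬ EpR M (c = 0) q β r)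
  kb1 : ∀ q β c, β.length ≤ K → (T.tb (num q β) c = 1 ↔ EpR M (c = 0) q β none)
  kb2 : ∀ q β c q', β.length ≤ K → (T.tb (num q β) c = qn q' + 2 ↔ EpR M (c = 0) q β (some q'))

/-- The node of (q, β, position i). -/
def nde {α : Type} (M : DPDA α) (num : M.Q → List M.Γ → ℕ) (n : ℕ) (q : M.Q) (β : List M.Γ) (i : ℕ) : ℕ :=
  num q β * (n + 1) + i

end Pool.Agent.Helper73.DC
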