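import Pool.Agent.Helper73.DC.St3

set_option autoImplicit false

/-! Project DC (helper73), MP_26f0da_lc: statements, wave 3d: catalytic evaluation (Cook-Mertz) of a non-adaptive circuit.

Gates t = 1, 2, ..: W 1 = w1, W t = Γ (e t) (W (t-1)) (W (m t)) with 1 <= m t < t; all values < 2^L.  Registers: three blocks of L
elements of ZMod p, p prime, 2 L < p - 1, ω a generator.  The step number y < b^d (b = 6 (p-1)) is decoded to an operation: kind 0 nothing,
1 add the bits of w1 to block o, 2 multiply the two other blocks by ω, 3 update block o by the gate t. -/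

namespace Pool.Agent.Helper73.DC

open Finset
open scoped Classical

/-! ### Algebra -/

/-- Bit `i` of `v`. -/
def bt (v i : ℕ) : ℕ := v / 2 ^ i % 2

/-- The multilinear indicator of `a` (a number with `L` bits). -/
def dl (p L a : ℕ) (x : ℕ → ZMod p) : ZMod p := ∏ i ∈ range L, if bt a i = 1 then x i else 1 - x i

/-- MODULE M1.  The interpolation identity.
Proof.  (1) at 0/1 points: for a, v < 2^L: dl a (bits of v) = 1 if a = v, else 0 (some bit differs: `Nat.testBit` extensionality or
induction on L; a factor is 0).  (2) dl a (fun i => l * τ i + u i) is a polynomial in l of degree <= L: it is the evaluation at l of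
∏ (C τ * X + C u) resp. (1 - ..), a `Polynomial (ZMod p)` of natDegree <= L (`Polynomial.natDegree_prod_le`).  So
Q(l) := sum_ab dl a (..) dl b (..) Γ a b is the evaluation of a polynomial of natDegree <= 2 L < p - 1.  (3) for a polynomial Q of degree
< p - 1 over ZMod p: sum over all x of Q x = 0 (`FiniteField.sum_pow_lt_card_sub_one`), so the sum over x <> 0 is - Q 0.  (4) the
elements ω^(j+1), j < p - 1, are the nonzero elements, each once (ω generates: the powers ω^1, .., ω^(p-1) are different since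
ω^d <> 1 for 0 < d < p - 1, and there are p - 1 nonzero elements).  (5) Q 0 = sum_ab [a = va][b = vb] Γ a b = Γ va vb. -/
def StM1 : Prop :=
  ∀ (p L : ℕ) [Fact p.Prime] (om : ZMod p) (Ga : ℕ → ℕ → ZMod p) (tx ty : ℕ → ZMod p) (va vb : ℕ), 2 * L < p - 1 → om ≠ 0 →
    (∀ d, 0 < d → d < p - 1 → om ^ d ≠ 1) → va < 2 ^ L → vb < 2 ^ L →
    ∑ j ∈ range (p - 1), ∑ a ∈ range (2 ^ L), ∑ b ∈ range (2 ^ L),
      dl p L a (fun i => om ^ (j + 1) * tx i + (bt va i : ZMod p)) *
        dl p L b (fun i => om ^ (j + 1) * ty i + (bt vb i : ZMod p)) * Ga a b = - Ga va vb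

/-! ### Operations on registers -/

/-- Registers: block, index, value. -/
abbrev RG (p : ℕ) := ℕ → ℕ → ZMod p

/-- Operation: kind, gate, block, sign (0: add the value of the gate, 1: subtract it). -/
@[ext] structure Op where
  k : ℕ
  t : ℕ
  o : ℕ
  s : ℕ

/-- The sign as a number of ZMod p. -/
def sgn (p s : ℕ) : ZMod p := if s = 0 then 1 else -1

/-- Add `f i` to the element `i < L` of block `o`. -/
def addB {p : ℕ} (L o : ℕ) (f : ℕ → ZMod p) (r : RG p) : RG p :=
  fun k i => if k = o ∧ i < L then r k i + f i else r k i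

/-- Multiply the blocks `(o+1)%3` and `(o+2)%3` by `om`. -/
def sclB {p : ℕ} (L o : ℕ) (om : ZMod p) (r : RG p) : RG p :=
  fun k i => if (k = (o + 1) % 3 ∨ k = (o + 2) % 3) ∧ i < L then om * r k i else r k i

/-- Effect of an operation; `w1` value of gate 1, `e` gate types, `Ga` gate functions. -/
noncomputable def opB (p L : ℕ) (om : ZMod p) (w1 : ℕ) (e : ℕ → ℕ) (Ga : ℕ → ℕ → ℕ → ℕ) (q : Op) (r : RG p) : RG p :=
  if q.k = 1 then addB L q.o (fun i => sgn p q.s * (bt w1 i : ZMod p)) r
  else if q.k = 2 then sclB L q.o om r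
  else if q.k = 3 then
    addB L q.o (fun i => - (sgn p q.s * ∑ a ∈ range (2 ^ L), ∑ b ∈ range (2 ^ L),
      dl p L a (r ((q.o + 1) % 3)) * dl p L b (r ((q.o + 2) % 3)) * (bt (Ga (e q.t) a b) i : ZMod p))) r
  else r

/-- Decoding of the step number `y < b^d` for the gate `t`, block `o`, sign `s`; `m` = second inputs of the gates. -/
def dcd (b : ℕ) (m : ℕ → ℕ) : ℕ → ℕ → ℕ → ℕ → ℕ → Op
  | 0, t, o, s, y => if t ≤ 1 ∧ y = 0 then ⟨1, t, o, s⟩ else ⟨0, 0, 0, 0⟩
  | d + 1, t, o, s, y =>
    if t ≤ 1 then (if y = 0 then ⟨1, t, o, s⟩ else ⟨0, 0, 0, 0⟩)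
    else if y / b ^ d % 6 = 0 then (if y % b ^ d = 0 then ⟨2, t, o, s⟩ else ⟨0, 0, 0, 0⟩)
    else if y / b ^ d % 6 = 1 then dcd b m d (t - 1) ((o + 1) % 3) 0 (y % b ^ d)
    else if y / b ^ d % 6 = 2 then dcd b m d (m t) ((o + 2) % 3) 0 (y % b ^ d)
    else if y / b ^ d % 6 = 3 then (if y % b ^ d = 0 then ⟨3, t, o, s⟩ else ⟨0, 0, 0, 0⟩)
    else if y / b ^ d % 6 = 4 then dcd b m d (m t) ((o + 2) % 3) 1 (y % b ^ d)
    else dcd b m d (t - 1) ((o + 1) % 3) 1 (y % b ^ d)

/-- Perform the operations of the step numbers `0, .., n-1`. -/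
noncomputable def runB {p : ℕ} (F : ℕ → RG p → RG p) : ℕ → RG p → RG p
  | 0 => fun r => r
  | n + 1 => fun r => F n (runB F n r)

/-- MODULE M2 (hypothesis StM1).  The recursion adds the value of the gate to block `o` and changes nothing else.
Proof.  Induction on d for all t with 1 <= t <= d + 1 (t <= Tm), o < 3, s.  d = 0: t = 1, one operation (kind 1).  d + 1, t = 1: the
operation of y = 0 is kind 1, all others are nothing.  d + 1, t >= 2: the step numbers y = c b^d + y', c < b, y' < b^d; the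
slot c = 6 j + f has phase f.  Split the run into the b = 6 (p-1) slots (`runB` over c b^d + y': prove run over [0, (c+1) b^d) = slot c
after run over [0, c b^d)); in a slot of phase 0 or 3 exactly y' = 0 acts; in the other phases the slot is the run of
dcd b m d for the child (as y / b^d = c, y % b^d = y', b^d > 0), by induction it adds +- bits of W (t-1) (block (o+1)%3) or of W (m t)
(block (o+2)%3); the three blocks o, (o+1)%3, (o+2)%3 are different; for a child with output block x the induction hypothesis says that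
only block x changes.  After j complete rounds: blocks x, y are ω^j times the initial ones, block o has got
- sgn s * sum_(j'<j) q(ω^(j'+1) τx + W(t-1), ω^(j'+1) τy + W(m t)), elements i >= L and blocks >= 3 are unchanged.  After p - 1 rounds:
ω^(p-1) = 1 (`ZMod.pow_card_sub_one_eq_one`) and StM1 with Ga a b = bit i of Ga (e t) a b. -/
def StM2 : Prop :=
  ∀ (p L : ℕ) [Fact p.Prime] (om : ZMod p) (w1 : ℕ) (e m W : ℕ → ℕ) (Ga : ℕ → ℕ → ℕ → ℕ) (Tm : ℕ), 2 * L < p - 1 → om ≠ 0 →
    (∀ d, 0 < d → d < p - 1 → om ^ d ≠ 1) → W 1 = w1 → (∀ t, 1 ≤ t → t ≤ Tm → W t < 2 ^ L) →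
    (∀ t, 2 ≤ t → t ≤ Tm → 1 ≤ m t ∧ m t < t ∧ W t = Ga (e t) (W (t - 1)) (W (m t))) →
    ∀ (d t o s : ℕ) (r : RG p), 1 ≤ t → t ≤ Tm → t ≤ d + 1 → o < 3 →
      runB (fun y => opB p L om w1 e Ga (dcd (6 * (p - 1)) m d t o s y)) ((6 * (p - 1)) ^ d) r =
        addB L o (fun i => sgn p s * (bt (W t) i : ZMod p)) r

/-! ### Packed registers -/

/-- The number with the digits `h 0, .., h (n-1)` (mod p) in base p; the powers are truncated at `cap`. -/
def bld (cap p n : ℕ) (h : ℕ → ℕ) : ℕ := ∑ i ∈ range n, (h i % p) * pw cap p i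

/-- The number `g < p^(3 L)` represents the registers `r`. -/
def Rp (p L g : ℕ) (r : RG p) : Prop :=
  g < p ^ (3 * L) ∧ ∀ k < 3, ∀ i < L, ((dg p g (k * L + i) : ℕ) : ZMod p) = r k i

/-- Packed version of kind 1. -/
def addn (cap p L g o s w1 : ℕ) : ℕ :=
  bld cap p (3 * L) (fun j => if j / L = o then
    dg p g j + (if s = 0 then bt w1 (j % L) else p - bt w1 (j % L)) else dg p g j)

/-- Packed version of kind 2. -/
def scln (cap p L om g o : ℕ) : ℕ :=
  bld cap p (3 * L) (fun j => if j / L = o then dg p g j else om * dg p g j)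

/-- Packed version of `dl` for block `k` of `g`. -/
def dln (p L a g k : ℕ) : ℕ := (∏ i ∈ range L, (if bt a i = 1 then dg p g (k * L + i) else 1 + p - dg p g (k * L + i))) % p

/-- Packed version of the contribution of `(a, b)`, value `x` of the gate function, to kind 3. -/
def updn (cap p L g o s a b x : ℕ) : ℕ :=
  bld cap p (3 * L) (fun j => if j / L = o then
    dg p g j + (if s = 0 then p - (dln p L a g ((o + 1) % 3) * dln p L b g ((o + 2) % 3) * bt x (j % L)) % p
      else dln p L a g ((o + 1) % 3) * dln p L b g ((o + 2) % 3) * bt x (j % L)) else dg p g j)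

/-- MODULE M3.  The packed operations are correct.
Proof.  With cap = p^(3L) all truncated powers pw cap p i, i < 3 L, are exact.  bld .. < p^(3L) and its digit j < 3 L is h j % p
(induction on n, or `Nat.ofDigits`).  For j = k L + i, i < L, k < 3: j / L = k, j % L = i (L > 0 when such j exists).  Casts to ZMod p:
(x % p : ZMod p) = x, (p - u : ZMod p) = - u for u <= p; dln cast = dl (the cast of 1 + p - d is 1 - d as d <= p).  bt <= 1 <= p. -/
def StM3 : Prop :=
  ∀ (p L : ℕ) [Fact p.Prime] (g : ℕ) (r : RG p), Rp p L g r →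
    (∀ o s w1, o < 3 → Rp p L (addn (p ^ (3 * L)) p L g o s w1) (addB L o (fun i => sgn p s * (bt w1 i : ZMod p)) r)) ∧
    (∀ o om, o < 3 → Rp p L (scln (p ^ (3 * L)) p L om g o) (sclB L o (om : ZMod p) r)) ∧
    (∀ o s a b x, o < 3 → Rp p L (updn (p ^ (3 * L)) p L g o s a b x)
      (addB L o (fun i => - (sgn p s * (dl p L a (r ((o + 1) % 3)) * dl p L b (r ((o + 2) % 3)) * (bt x i : ZMod p)))) r))

/-- MODULE M4 (hypotheses StL1 .. StL6).  The packed operations are E2.
Proof.  bld: a bounded sum (StL3) whose term is E2 (`%`, `pw`); the inner function j ↦ .. is composed of `/`, `%`, `dg`, case distinction.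
bt v i = dg 2 v i.  dln: the product mod p by recursion with the step acc * factor % p (bounded by p if p > 0, by the
value for p = 0: use bound: acc * factor % p <= acc * factor for p = 0 is a problem; if p = 0 then x % 0 = x; so define the E2
function as if p = 0 then 0 else .. and assume 0 < p in the statement, see F 1).  The E2 statement is for the functions
(w, v) ↦ if p = 0 then 0 else op. -/
def StM4 : Prop :=
  ∀ {α : Type} [Fintype α] (F : ℕ → VF α), (∀ i, E2 (F i)) →
    E2 (fun w v => if F 1 w v = 0 then 0 else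
      addn (F 0 w v) (F 1 w v) (F 2 w v) (F 3 w v) (F 4 w v) (F 5 w v) (F 6 w v)) ∧
    E2 (fun w v => if F 1 w v = 0 then 0 else
      scln (F 0 w v) (F 1 w v) (F 2 w v) (F 3 w v) (F 4 w v) (F 5 w v)) ∧
    E2 (fun w v => if F 1 w v = 0 then 0 else
      updn (F 0 w v) (F 1 w v) (F 2 w v) (F 3 w v) (F 4 w v) (F 5 w v) (F 6 w v) (F 7 w v) (F 8 w v))

/-- Decoding with truncated powers; the second inputs are the digits of `hm` in base `bh`. -/
def dcdc (cap b bh hm : ℕ) : ℕ → ℕ → ℕ → ℕ → ℕ → Op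
  | 0, t, o, s, y => if t ≤ 1 ∧ y = 0 then ⟨1, t, o, s⟩ else ⟨0, 0, 0, 0⟩
  | d + 1, t, o, s, y =>
    if t ≤ 1 then (if y = 0 then ⟨1, t, o, s⟩ else ⟨0, 0, 0, 0⟩)
    else if y / pw cap b d % 6 = 0 then (if y % pw cap b d = 0 then ⟨2, t, o, s⟩ else ⟨0, 0, 0, 0⟩)
    else if y / pw cap b d % 6 = 1 then dcdc cap b bh hm d (t - 1) ((o + 1) % 3) 0 (y % pw cap b d)
    else if y / pw cap b d % 6 = 2 then dcdc cap b bh hm d (dg bh hm t) ((o + 2) % 3) 0 (y % pw cap b d)
    else if y / pw cap b d % 6 = 3 then (if y % pw cap b d = 0 then ⟨3, t, o, s⟩ else ⟨0, 0, 0, 0⟩)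
    else if y / pw cap b d % 6 = 4 then dcdc cap b bh hm d (dg bh hm t) ((o + 2) % 3) 1 (y % pw cap b d)
    else dcdc cap b bh hm d (t - 1) ((o + 1) % 3) 1 (y % pw cap b d)

/-- MODULE M5 (hypotheses StL1 .. StL5, StL8).  Decoding is E2 and exact.
Proof.  Iterate from d down to 0 the step on (stat, t, o, s, y) [stat = 0: still decoding; stat = kind + 1: finished]: simultaneous recursion StL8
with k = 5 and the recursion index i (present depth d - i); all components are bounded by t + y + hm + bh + b + 10 (dg bh hm t <= hm: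
it is hm / .. % bh <= hm).  After d + 1 steps the operation is found (at depth 0 every case finishes).  Prove that the iteration from depth d
computes dcdc (induction on the number of remaining levels).  Second part: pw cap b i = b^i for i <= d, if b^d <= cap and b >= 1;
the recursions agree. -/
def StM5 : Prop :=
  (∀ {α : Type} [Fintype α] (F : ℕ → VF α), (∀ i, E2 (F i)) →
    E2 (fun w v => (dcdc (F 0 w v) (F 1 w v) (F 2 w v) (F 3 w v) (F 4 w v) (F 5 w v) (F 6 w v) (F 7 w v) (F 8 w v)).k) ∧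
    E2 (fun w v => (dcdc (F 0 w v) (F 1 w v) (F 2 w v) (F 3 w v) (F 4 w v) (F 5 w v) (F 6 w v) (F 7 w v) (F 8 w v)).t) ∧
    E2 (fun w v => (dcdc (F 0 w v) (F 1 w v) (F 2 w v) (F 3 w v) (F 4 w v) (F 5 w v) (F 6 w v) (F 7 w v) (F 8 w v)).o) ∧
    E2 (fun w v => (dcdc (F 0 w v) (F 1 w v) (F 2 w v) (F 3 w v) (F 4 w v) (F 5 w v) (F 6 w v) (F 7 w v) (F 8 w v)).s)) ∧
  (∀ (cap b bh hm d t o s y : ℕ), 1 ≤ b → b ^ d ≤ cap →
    dcdc cap b bh hm d t o s y = dcd b (fun j => dg bh hm j) d t o s y)

/-- MODULE M6.  A generator exists and is found by bounded search.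
Proof.  `ZMod p` has a cyclic unit group (`IsCyclic`); a generator u has order p - 1, so u^d <> 1 for 0 < d < p - 1, and om = u.val < p is a
natural number with om^d % p <> 1 for these d (p >= 3; for p = 2: om = 1, no conditions).  Second part: conversely such a number
gives om <> 0 in ZMod p if p - 1 > 1 (0^1 = 0.. use: if om % p = 0 .. it must be excluded: condition om^(p-1) % p = 1 % p). -/
def StM6 : Prop :=
  ∀ (p : ℕ) [Fact p.Prime],
    (∃ om < p, (∀ d < p - 1, 0 < d → om ^ d % p ≠ 1) ∧ om ^ (p - 1) % p = 1 % p) ∧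
    (∀ om : ℕ, (∀ d < p - 1, 0 < d → om ^ d % p ≠ 1) → om ^ (p - 1) % p = 1 % p →
      (om : ZMod p) ≠ 0 ∧ ∀ d, 0 < d → d < p - 1 → (om : ZMod p) ^ d ≠ 1)

/-- MODULE M7 (hypotheses StL1 .. StL5, StL7).  Prime and generator are E2 functions of L.
Proof.  By Bertrand (`Nat.exists_prime_lt_and_le_two_mul`) there is a prime p with 2 L + 2 < p <= 2 (2 L + 2); bounded search (bmin) for the
least p in the range with p prime: `∀ d < p, 2 <= d → p % d <> 0`, p >= 2.  ω: bounded search for the least om < p with the conditions of StM6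
(powers mod p by recursion: acc * om % p). -/
def StM7 : Prop :=
  ∃ P O : ℕ → ℕ, (∀ {α : Type} [Fintype α] (F : VF α), E2 F → E2 (fun w v => P (F w v)) ∧ E2 (fun w v => O (F w v))) ∧
    ∀ L, (P L).Prime ∧ 2 * L + 1 < P L ∧ P L ≤ 4 * L + 4 ∧ O L < P L ∧
      (∀ d < P L - 1, 0 < d → O L ^ d % P L ≠ 1) ∧ O L ^ (P L - 1) % P L = 1 % P L

end Pool.Agent.Helper73.DC
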