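import Pool.Agent.Helper73.DC.Spec
import Pool.Agent.Helper73.DC.St4

set_option autoImplicit false

/-! Project DC (helper73), MP_26f0da_lc: the program of one level (definitions).

Local variables (all `< M`): 0 argument X, 1 answer ANS, 2 A0 = f X, 3 W1, 4 T (number of events), 5 HE (event types, digits in base
Bh), 6 HM (second inputs, digits in base Bh), 7 ST (stack of open event numbers, base Bh), 8 FIN, 9 RES, 10 I (bit number), 11 OLD,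
12 OV (outcome value), 13 Y (step number), 14 OK (kind), 15 OT (gate), 16 OO (block), 17 OS (sign), 18 GA, 19 GB (arguments of the
gate function), 20 GV (its value), 21 WX, 22 WC, 23 WS, 24 WF (walk), 25 WT (target), 26 C1, 27 V1, 28 C2, 29 V2, 30 PS, 31 PH, 32 PR,
33 PT (pop), 34 PG (guard), 35 SG (sign of the run), 36 NW, 37 TY, 38 VA, 39 AC (action code).
Parameters: 0 M, 1 G = p^(3L), 2 M0, 3 D, 4 L, 5 2^L, 6 p, 7 ω, 8 b = 6(p-1), 9 Dp, 10 b^Dp, 11 kk, 12 Bh. -/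

namespace Pool.Agent.Helper73.DC

open Finset
open scoped Classical

/-- Local variable `i` in the context of an assignment. -/
def lo (i : ℕ) (v : ℕ → ℕ) : ℕ := v (2 + i)

/-- Parameter `j` in the context of an assignment. -/
def pa (j : ℕ) (v : ℕ → ℕ) : ℕ := v (42 + j)

/-- The global register in the context of an assignment. -/
def gl (v : ℕ → ℕ) : ℕ := v 1

/-- Sequence of commands. -/
def sq {α : Type} : List (Cmd α) → Cmd α
  | [] => Cmd.rep (fun _ _ => 0) (Cmd.glb (fun _ v => gl v))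
  | c :: cs => Cmd.seq c (sq cs)

/-- Five fields in base `B`. -/
def enc5 (B a b c d e : ℕ) : ℕ := a + B * (b + B * (c + B * (d + B * e)))

section
variable {α : Type} (cl : List α → ℕ → ℕ) (rs : List α → ℕ → ℕ → ℕ)

/-- One step of a walk. -/
noncomputable def walkStep : Cmd α := sq [
  Cmd.asg 26 (fun w v => cl w (lo 21 v)),
  Cmd.call 26 27,
  Cmd.asg 28 (fun w v => rs w (lo 21 v) (lo 27 v - 1)),
  Cmd.call 28 29,
  Cmd.asg 24 (fun _ v => if lo 23 v = 0 ∧ lo 27 v = 0 ∧ lo 22 v + 1 = lo 25 v then lo 21 v else lo 24 v),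
  Cmd.asg 22 (fun _ v => if lo 23 v = 0 ∧ lo 27 v = 0 then lo 22 v + 1 else lo 22 v),
  Cmd.asg 21 (fun _ v => if lo 23 v = 0 ∧ lo 27 v = 0 then lo 26 v
    else if lo 23 v = 0 ∧ lo 29 v = 0 then lo 28 v else lo 21 v),
  Cmd.asg 23 (fun _ v => if lo 23 v = 0 ∧ lo 27 v ≠ 0 ∧ lo 29 v ≠ 0 then lo 29 v else lo 23 v)]

/-- Walk from variable 21 with target variable 25. -/
noncomputable def walkP : Cmd α := sq [
  Cmd.asg 22 (fun _ _ => 0), Cmd.asg 23 (fun _ _ => 0), Cmd.asg 24 (fun _ _ => 0),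
  Cmd.rep (fun _ v => v 3) (walkStep cl rs)]

/-- One round of a pop sequence. -/
noncomputable def popStep : Cmd α := sq [
  Cmd.asg 21 (fun _ v => lo 30 v),
  Cmd.asg 25 (fun _ v => lo 31 v),
  walkP cl rs,
  Cmd.asg 26 (fun w v => rs w (lo 24 v) (lo 32 v)),
  Cmd.call 26 27,
  Cmd.asg 34 (fun _ v => if lo 33 v = 0 ∧ lo 31 v ≠ 0 then 1 else 0),
  Cmd.asg 32 (fun _ v => if lo 34 v = 1 then (if lo 27 v ≠ 0 then lo 27 v - 1 else lo 26 v) else lo 32 v),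
  Cmd.asg 33 (fun _ v => if lo 34 v = 1 ∧ lo 27 v = 0 then 1 else lo 33 v),
  Cmd.asg 31 (fun _ v => if lo 34 v = 1 then lo 31 v - 1 else lo 31 v)]

/-- Pop sequence in the segment of variable 30, from variables 31, 32, 33. -/
noncomputable def popP : Cmd α := Cmd.rep (fun _ v => v 3) (popStep cl rs)

/-- Evaluation of the gate function of the event type of gate 15 at the arguments 18, 19; value in 20. -/
noncomputable def gamP : Cmd α := sq [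
  Cmd.asg 30 (fun _ v => dg (pa 2 v) (lo 18 v) 0),
  Cmd.asg 31 (fun _ v => dg (pa 2 v) (lo 18 v) 1),
  Cmd.asg 32 (fun _ v => dg (pa 2 v) (lo 18 v) 2 - 1),
  Cmd.asg 33 (fun _ _ => 0),
  popP cl rs,
  Cmd.asg 21 (fun _ v => lo 32 v),
  Cmd.asg 25 (fun _ _ => 0),
  walkP cl rs,
  Cmd.asg 20 (fun _ v =>
    (if dg (pa 12 v) (lo 5 v) (lo 15 v) = 1 then
      enc5 (pa 2 v) (lo 32 v) (lo 22 v) (lo 23 v) (dg (pa 2 v) (lo 18 v) 0) (lo 31 v)
    else if dg (pa 12 v) (lo 5 v) (lo 15 v) = 0 then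
      enc5 (pa 2 v) (dg (pa 2 v) (lo 19 v) 3) (dg (pa 2 v) (lo 19 v) 4) (lo 32 v + 1) 0 0
    else (if dg (pa 2 v) (lo 18 v) 2 = 0 then 2 else lo 33 v) + 3 * lo 32 v) % pa 5 v)]

/-- One contribution `(a, b)` of an update. -/
noncomputable def stepB : Cmd α := sq [
  gamP cl rs,
  Cmd.glb (fun _ v => if pa 6 v = 0 then 0 else if lo 14 v = 3 then
    updn (pa 1 v) (pa 6 v) (pa 4 v) (gl v) (lo 16 v) (lo 17 v) (lo 18 v) (lo 19 v) (lo 20 v) else gl v),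
  Cmd.asg 19 (fun _ v => lo 19 v + 1)]

/-- All `b` for one `a`. -/
noncomputable def stepA : Cmd α := sq [
  Cmd.asg 19 (fun _ _ => 0),
  Cmd.rep (fun _ v => v 5) (stepB cl rs),
  Cmd.asg 18 (fun _ v => lo 18 v + 1)]

/-- All pairs `(a, b)`. -/
noncomputable def opP : Cmd α := sq [
  Cmd.asg 18 (fun _ _ => 0),
  Cmd.rep (fun _ v => v 5) (stepA cl rs)]

/-- The operation with the step number of variable 13. -/
noncomputable def stepY : Cmd α := sq [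
  Cmd.asg 14 (fun _ v => (dcdc (pa 10 v) (pa 8 v) (pa 12 v) (lo 6 v) (pa 9 v) (lo 4 v + 1) 0 (lo 35 v) (lo 13 v)).k),
  Cmd.asg 15 (fun _ v => (dcdc (pa 10 v) (pa 8 v) (pa 12 v) (lo 6 v) (pa 9 v) (lo 4 v + 1) 0 (lo 35 v) (lo 13 v)).t),
  Cmd.asg 16 (fun _ v => (dcdc (pa 10 v) (pa 8 v) (pa 12 v) (lo 6 v) (pa 9 v) (lo 4 v + 1) 0 (lo 35 v) (lo 13 v)).o),
  Cmd.asg 17 (fun _ v => (dcdc (pa 10 v) (pa 8 v) (pa 12 v) (lo 6 v) (pa 9 v) (lo 4 v + 1) 0 (lo 35 v) (lo 13 v)).s),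
  Cmd.glb (fun _ v => if pa 6 v = 0 then 0 else
    if lo 14 v = 1 then addn (pa 1 v) (pa 6 v) (pa 4 v) (gl v) (lo 16 v) (lo 17 v) (lo 3 v)
    else if lo 14 v = 2 then scln (pa 1 v) (pa 6 v) (pa 4 v) (pa 7 v) (gl v) (lo 16 v) else gl v),
  opP cl rs,
  Cmd.asg 13 (fun _ v => lo 13 v + 1)]

/-- The whole run for the gate `T + 1`, block 0, sign variable 35. -/
noncomputable def prunP : Cmd α := sq [
  Cmd.asg 13 (fun _ _ => 0),
  Cmd.rep (fun _ v => v 10) (stepY cl rs)]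

/-- Extraction of bit number 10 of the outcome. -/
noncomputable def bitP : Cmd α := sq [
  Cmd.asg 11 (fun _ v => dg (pa 6 v) (gl v) (lo 10 v)),
  Cmd.asg 35 (fun _ _ => 0),
  prunP cl rs,
  Cmd.asg 36 (fun _ v => (dg (pa 6 v) (gl v) (lo 10 v) + pa 6 v - lo 11 v) % pa 6 v),
  Cmd.asg 35 (fun _ _ => 1),
  prunP cl rs,
  Cmd.asg 12 (fun _ v => lo 12 v + lo 36 v * pw (pa 5 v) 2 (lo 10 v)),
  Cmd.asg 10 (fun _ v => lo 10 v + 1)]

/-- The outcome of the query gate `T + 1` in variable 12. -/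
noncomputable def outP : Cmd α := sq [
  Cmd.asg 12 (fun _ _ => 0), Cmd.asg 10 (fun _ _ => 0),
  Cmd.rep (fun _ v => v 4) (bitP cl rs)]

/-- One event. -/
noncomputable def hstP : Cmd α := sq [
  Cmd.asg 5 (fun _ v => sdc (pa 0 v) (pa 12 v) (lo 5 v) (lo 4 v + 1) 2),
  Cmd.asg 6 (fun _ v => sdc (pa 0 v) (pa 12 v) (lo 6 v) (lo 4 v + 1) 1),
  outP cl rs,
  Cmd.asg 37 (fun _ v => lo 12 v % 3),
  Cmd.asg 38 (fun _ v => lo 12 v / 3),
  Cmd.asg 39 (fun _ v => if lo 8 v ≠ 0 then 0 else if lo 37 v = 1 then 1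
    else if lo 37 v = 0 then (if lo 7 v ≠ 0 then 2 else 3) else 4),
  Cmd.asg 5 (fun _ v => if lo 39 v = 1 then sdc (pa 0 v) (pa 12 v) (lo 5 v) (lo 4 v + 1) 1
    else if lo 39 v = 2 then sdc (pa 0 v) (pa 12 v) (lo 5 v) (lo 4 v + 1) 0 else lo 5 v),
  Cmd.asg 6 (fun _ v => if lo 39 v = 2 then sdc (pa 0 v) (pa 12 v) (lo 6 v) (lo 4 v + 1) (lo 7 v % pa 12 v) else lo 6 v),
  Cmd.asg 9 (fun _ v => if lo 39 v = 3 then lo 38 v + 1 else lo 9 v),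
  Cmd.asg 8 (fun _ v => if lo 39 v = 3 ∨ lo 39 v = 4 then 1 else lo 8 v),
  Cmd.asg 7 (fun _ v => if lo 39 v = 1 then lo 7 v * pa 12 v + (lo 4 v + 1)
    else if lo 39 v = 2 then lo 7 v / pa 12 v else lo 7 v),
  Cmd.asg 4 (fun _ v => if lo 39 v = 1 ∨ lo 39 v = 2 then lo 4 v + 1 else lo 4 v)]

/-- The program of one level. -/
noncomputable def body : Cmd α := sq [
  Cmd.call 0 2,
  Cmd.asg 21 (fun _ v => lo 0 v),
  Cmd.asg 25 (fun _ _ => 0),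
  walkP cl rs,
  Cmd.asg 3 (fun _ v => enc5 (pa 2 v) (lo 0 v) (lo 22 v) (lo 23 v) 0 0),
  Cmd.asg 4 (fun _ _ => 1),
  Cmd.rep (fun _ v => v 11) (hstP cl rs),
  Cmd.asg 1 (fun _ v => if lo 2 v ≠ 0 then lo 2 v else lo 9 v)]

end

/-- The gate function of event type `e` relative to the oracle `f` (base `M0` of the fields, values mod `Q` = 2^L). -/
noncomputable def Gam (M0 Q D : ℕ) (cl : ℕ → ℕ) (rs : ℕ → ℕ → ℕ) (f : ℕ → ℕ) (e a b : ℕ) : ℕ :=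
  (if e = 1 then
    enc5 M0 (popf D cl rs f (dg M0 a 0) (dg M0 a 1) (dg M0 a 2 - 1)).r
      (walk D cl rs f (popf D cl rs f (dg M0 a 0) (dg M0 a 1) (dg M0 a 2 - 1)).r 0).c
      (walk D cl rs f (popf D cl rs f (dg M0 a 0) (dg M0 a 1) (dg M0 a 2 - 1)).r 0).s
      (dg M0 a 0) (popf D cl rs f (dg M0 a 0) (dg M0 a 1) (dg M0 a 2 - 1)).h
  else if e = 0 then
    enc5 M0 (dg M0 b 3) (dg M0 b 4) ((popf D cl rs f (dg M0 a 0) (dg M0 a 1) (dg M0 a 2 - 1)).r + 1) 0 0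
  else (if dg M0 a 2 = 0 then 2 else (popf D cl rs f (dg M0 a 0) (dg M0 a 1) (dg M0 a 2 - 1)).t)
    + 3 * (popf D cl rs f (dg M0 a 0) (dg M0 a 1) (dg M0 a 2 - 1)).r) % Q

/-- The conditions on the parameters. -/
structure Prm {α : Type} (cl : List α → ℕ → ℕ) (rs : List α → ℕ → ℕ → ℕ) (w : List α) (p : ℕ → ℕ) : Prop where
  hcl : ∀ x, cl w x < p 3
  hrs : ∀ x r, rs w x r < p 3
  hD : p 3 + 1 < p 2
  hQ : p 5 = 2 ^ p 4
  hM0 : p 2 ^ 5 ≤ p 5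
  hQM : p 5 < p 0
  hp : (p 6).Prime
  hpL : 2 * p 4 + 1 < p 6
  hpM : p 6 < p 0
  ho : ∀ d < p 6 - 1, 0 < d → p 7 ^ d % p 6 ≠ 1
  ho' : p 7 ^ (p 6 - 1) % p 6 = 1 % p 6
  hG : p 1 = p 6 ^ (3 * p 4)
  hb : p 8 = 6 * (p 6 - 1)
  hbD : p 10 = p 8 ^ p 9
  hbM : p 10 < p 0
  hkD : p 11 + 1 ≤ p 9
  hBh : p 11 + 3 ≤ p 12
  hBM : p 12 ^ (p 11 + 3) ≤ p 0

/-- The callback `cb` answers with `f` at the nodes `x < D = p 3` and does not change the global register. -/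
def Orc (p : ℕ → ℕ) (f : ℕ → ℕ) (cb : ℕ → ℕ → ℕ × ℕ) : Prop :=
  (∀ x, f x < p 2) ∧ ∀ x < p 3, ∀ g < p 1, cb x g = (f x, g)

/-- The gate function with the parameters `p` on the input `w`. -/
noncomputable def GG {α : Type} (cl : List α → ℕ → ℕ) (rs : List α → ℕ → ℕ → ℕ) (w : List α) (p f : ℕ → ℕ) : ℕ → ℕ → ℕ → ℕ :=
  Gam (p 2) (p 5) (p 3) (cl w) (rs w) f

/-- `W` are the values of the gates `1, .., n` of the circuit with event types `HE`, second inputs `HM` and first gate `w1`. -/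
def Circ {α : Type} (cl : List α → ℕ → ℕ) (rs : List α → ℕ → ℕ → ℕ) (w : List α) (p f : ℕ → ℕ) (he hm w1 n : ℕ)
    (W : ℕ → ℕ) : Prop :=
  W 1 = w1 ∧ (∀ t, 1 ≤ t → t ≤ n → W t < p 5) ∧
    ∀ t, 2 ≤ t → t ≤ n → 1 ≤ dg (p 12) hm t ∧ dg (p 12) hm t < t ∧
      W t = GG cl rs w p f (dg (p 12) he t) (W (t - 1)) (W (dg (p 12) hm t))

/-- Code of a stack of event numbers (head = top). -/
def scode (B : ℕ) : List ℕ → ℕ
  | [] => 0
  | j :: js => scode B js * B + j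

/-- The local variables `l` after `n` events correspond to the state `a` of the macro machine. -/
def HInv {α : Type} (cl : List α → ℕ → ℕ) (rs : List α → ℕ → ℕ → ℕ) (w : List α) (p f l : ℕ → ℕ) (a : MS) (n : ℕ) : Prop :=
  ∃ (W : ℕ → ℕ) (js : List ℕ),
    1 ≤ l 4 ∧ l 4 ≤ n + 1 ∧ Circ cl rs w p f (l 5) (l 6) (l 3) (l 4) W ∧
    l 5 < p 12 ^ (p 11 + 3) ∧ l 6 < p 12 ^ (p 11 + 3) ∧ l 7 = scode (p 12) js ∧ js.length ≤ n ∧
    (∀ j ∈ js, 2 ≤ j ∧ j ≤ l 4) ∧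
    (a.fin = false → l 8 = 0 ∧ dg (p 2) (W (l 4)) 0 = a.s ∧ dg (p 2) (W (l 4)) 1 = a.h ∧ dg (p 2) (W (l 4)) 2 = a.q ∧
      a.st = js.map (fun j => (dg (p 2) (W j) 3, dg (p 2) (W j) 4)) ∧ a.res = 0) ∧
    (a.fin = true → l 8 ≠ 0) ∧ l 9 = a.res

end Pool.Agent.Helper73.DC
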