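import Pool.Agent.Helper73.DC.St3

set_option autoImplicit false

/-! Project DC (helper73), MP_26f0da_lc: specification of one level (definitions, and the two top statements SS, SC of wave 3b). -/

namespace Pool.Agent.Helper73.DC

open Finset
open scoped Classical

/-! ### Call structures -/

/-- Big step semantics of a call structure.  `lf x = ρ+1`: node `x` is a leaf with value `ρ`; `lf x = 0`: the value of `x` is the value of
`rs x ρ₁` where `ρ₁` is the value of `cl x`.  `Ev lf cl rs wt x ρ m n`: node `x` has the value `ρ`, the measure of its derivation (sum of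
the weights `wt` of its nodes) is `m` and the number of nodes is `n`. -/
inductive Ev (lf cl : ℕ → ℕ) (rs : ℕ → ℕ → ℕ) (wt : ℕ → ℕ) : ℕ → ℕ → ℕ → ℕ → Prop where
  | leaf (x r : ℕ) : lf x = r + 1 → Ev lf cl rs wt x r (wt x) 1
  | node (x r1 m1 n1 r2 m2 n2 : ℕ) : lf x = 0 → Ev lf cl rs wt (cl x) r1 m1 n1 → Ev lf cl rs wt (rs x r1) r2 m2 n2 →
      Ev lf cl rs wt x r2 (wt x + m1 + m2) (1 + n1 + n2)

/-! ### Walks and pops relative to an oracle `f` (0 = undefined, ρ+1 = value ρ) -/

/-- State of a walk: node, number of frames, leaf value (0 = still walking), frame found. -/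
@[ext] structure WS where
  x : ℕ
  c : ℕ
  s : ℕ
  fr : ℕ

/-- One step of a walk that looks for frame number `t`. -/
def wstep (cl : ℕ → ℕ) (rs : ℕ → ℕ → ℕ) (f : ℕ → ℕ) (t : ℕ) (a : WS) : WS :=
  if a.s ≠ 0 then a
  else if f (cl a.x) = 0 then ⟨cl a.x, a.c + 1, 0, if a.c + 1 = t then a.x else a.fr⟩
  else if f (rs a.x (f (cl a.x) - 1)) = 0 then ⟨rs a.x (f (cl a.x) - 1), a.c, 0, a.fr⟩
  else ⟨a.x, a.c, f (rs a.x (f (cl a.x) - 1)), a.fr⟩

/-- Walk of `D` steps from `x`. -/
def walk (D : ℕ) (cl : ℕ → ℕ) (rs : ℕ → ℕ → ℕ) (f : ℕ → ℕ) (x t : ℕ) : WS := (wstep cl rs f t)^[D] ⟨x, 0, 0, 0⟩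

/-- State of a pop sequence: frames left, returned value (or new segment start if `t = 1`), status. -/
@[ext] structure PS where
  h : ℕ
  r : ℕ
  t : ℕ

/-- One round of a pop sequence in the segment which starts at `s`. -/
def pstep (D : ℕ) (cl : ℕ → ℕ) (rs : ℕ → ℕ → ℕ) (f : ℕ → ℕ) (s : ℕ) (a : PS) : PS :=
  if a.t = 0 ∧ a.h ≠ 0 then
    if f (rs (walk D cl rs f s a.h).fr a.r) ≠ 0 then ⟨a.h - 1, f (rs (walk D cl rs f s a.h).fr a.r) - 1, 0⟩
    else ⟨a.h - 1, rs (walk D cl rs f s a.h).fr a.r, 1⟩
  else a

/-- Pop sequence of `D` rounds. -/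
def popf (D : ℕ) (cl : ℕ → ℕ) (rs : ℕ → ℕ → ℕ) (f : ℕ → ℕ) (s h r : ℕ) : PS := (pstep D cl rs f s)^[D] ⟨h, r, 0⟩

/-! ### The macro machine -/

/-- State: current segment start, frames left, value + 1 just returned, stack of (segment start, frames left), result, finished. -/
structure MS where
  s : ℕ
  h : ℕ
  q : ℕ
  st : List (ℕ × ℕ)
  res : ℕ
  fin : Bool

/-- Macro step. -/
def mstep (D : ℕ) (cl : ℕ → ℕ) (rs : ℕ → ℕ → ℕ) (f : ℕ → ℕ) (a : MS) : MS :=
  if a.fin = true then a
  else if a.q = 0 then { a with fin := true }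
  else if (popf D cl rs f a.s a.h (a.q - 1)).t = 1 then
    { s := (popf D cl rs f a.s a.h (a.q - 1)).r
      h := (walk D cl rs f (popf D cl rs f a.s a.h (a.q - 1)).r 0).c
      q := (walk D cl rs f (popf D cl rs f a.s a.h (a.q - 1)).r 0).s
      st := (a.s, (popf D cl rs f a.s a.h (a.q - 1)).h) :: a.st
      res := 0
      fin := false }
  else
    match a.st with
    | [] => { a with res := (popf D cl rs f a.s a.h (a.q - 1)).r + 1, fin := true }
    | p :: st' => { s := p.1, h := p.2, q := (popf D cl rs f a.s a.h (a.q - 1)).r + 1, st := st', res := 0, fin := false }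

/-- Start of the macro machine at the node `c`. -/
def minit (D : ℕ) (cl : ℕ → ℕ) (rs : ℕ → ℕ → ℕ) (f : ℕ → ℕ) (c : ℕ) : MS :=
  { s := c, h := (walk D cl rs f c 0).c, q := (walk D cl rs f c 0).s, st := [], res := 0, fin := false }

/-- The next level: from the oracle `f` to the oracle `SP f`. -/
def SP (D kk : ℕ) (cl : ℕ → ℕ) (rs : ℕ → ℕ → ℕ) (f : ℕ → ℕ) (c : ℕ) : ℕ :=
  if f c ≠ 0 then f c else ((mstep D cl rs f)^[kk] (minit D cl rs f c)).res

/-- TOP STATEMENT SS.  Soundness.
Proof.  Ev is deterministic (the value, measure and size are determined by the node).  Define the value of a stack: frames of the segment s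
below height h: the frame number j of s is (walk D s j).fr, it is a node y_j with lf y_j = 0 (since f y_j = 0: every node visited by a walk that
starts at a heavy node is heavy, and lf x <> 0 implies f x <> 0) such that: y_(j+1) (or the leaf of the walk) is reached from cl y_j by
tail steps x → rs x ρ1 with Ev (cl x) ρ1.  Fin(s, j, ρ) := returning ρ to frame j, then the value of the segment start s is
determined: Claim: if Ev (rs y_h ρ) ρ' then value ρ at height h gives value ρ' at height h - 1; if h = 0 and the value is ρ then Ev s ρ.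
Invariant of the macro machine (not finished, q <> 0): for every ρ*: [q - 1 returned at height h of segment s leads to value ρ1 of s,
this at height h' of s' leads to .., finally value ρ* of c] is a derivation of Ev c ρ*.  So the invariant is: if the stack of pending
(s, h) returns the final value ρ* (a recursively defined relation), then Ev c ρ*.  Final step: DONE(ρ) with empty stack: Ev c ρ. -/
def StSS : Prop :=
  ∀ (lf cl : ℕ → ℕ) (rs : ℕ → ℕ → ℕ) (wt f : ℕ → ℕ) (D kk : ℕ), (∀ x, lf x ≠ 0 → f x ≠ 0) →
    (∀ x r, f x = r + 1 → ∃ m n, Ev lf cl rs wt x r m n) →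
    ∀ c r, SP D kk cl rs f c = r + 1 → ∃ m n, Ev lf cl rs wt c r m n

/-- TOP STATEMENT SC.  Completeness.
Proof.  Let Ev c r m n, m < k K, f c = 0.  Induction on the derivation shows: the evaluation of a heavy terminating node a (f a = 0, Ev a r m n)
by the macro machine (started with any stack below) takes 2 S - 1 macro steps including its final DONE, where S is the number of segments,
and S K <= m.  Indeed the walk from a visits nodes a = x_0, x_1, .., pairwise different since the derivation sizes decrease strictly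
(x_(i+1) is cl x_i or rs x_i ρ1, a premise of the derivation of x_i), all < D, so it ends within D steps at a node x_j with f x_j = 0 and
f (cl x_j), f (rs x_j _) <> 0; the measure of x_j is >= K because otherwise f x_j <> 0.  The frames y_1, .., y_h (h <= D) are those x_i from
which the walk went to cl x_i.  Return phase: at frame y_h with the value ρ (the value of cl y_h): rs y_h ρ is a premise of the derivation of
y_h; if light, go on; if heavy, it is a new segment start with its own derivation (induction), its measure is disjoint from the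
rest: m(y_h) >= m(cl y_h) + m(rs y_h ρ).  So the number of segments times K is at most the measure.  Total: S K <= m < k K, so S < k, and
2 S - 1 <= 2 k <= kk steps.  In the pop sequences at most h <= D rounds are needed. -/
def StSC : Prop :=
  ∀ (lf cl : ℕ → ℕ) (rs : ℕ → ℕ → ℕ) (wt f : ℕ → ℕ) (D kk k K : ℕ), (∀ x, lf x ≠ 0 → f x ≠ 0) →
    (∀ x r, f x = r + 1 → ∃ m n, Ev lf cl rs wt x r m n) → (∀ x, cl x < D ∧ ∀ r, rs x r < D) → 2 * k ≤ kk →
    (∀ x r m n, x < D → Ev lf cl rs wt x r m n → m < K → f x ≠ 0) →
    ∀ c r m n, c < D → Ev lf cl rs wt c r m n → m < k * K → SP D kk cl rs f c ≠ 0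

end Pool.Agent.Helper73.DC
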