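import Pool.Agent.Helper73.DC.E2a

set_option autoImplicit false

/-! Project DC (helper73), MP_26f0da_lc: statements, wave 2 (library of E2 functions), with proofs in words.
Proved tools (file E2a.lean): `E2.poly`, `E2.supp`, `E2.brec` (recursion with an E2 bound), `E2.rename`, `E2.sh1`, `E2.sh2`,
`E2.const`, `E2.add`, `E2.mul`, `E2.powc`, `E2.fsum`, `E2.subst`, `E2.sub1`, `E2.sub2`. -/

namespace Pool.Agent.Helper73.DC

open Finset
open scoped Classical

/-- A predicate is E2 if its characteristic function is. -/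
def E2P {α : Type} [Fintype α] (p : List α → (ℕ → ℕ) → Prop) : Prop :=
  E2 (fun w v => if p w v then 1 else 0)

/-- Bounded search: the least `i < b` with `p i`, or `b` if there is none. -/
noncomputable def bmin (b : ℕ) (p : ℕ → Prop) : ℕ := ∑ j ∈ range b, if ∀ i < j + 1, ¬ p i then 1 else 0

/-- Truncated power: `min (b^e) (cap+1)`. -/
def pw (cap b e : ℕ) : ℕ := min (b ^ e) (cap + 1)

/-- Digit number `i` of `x` in base `B`. -/
def dg (B x i : ℕ) : ℕ := x / B ^ i % B

/-- `x` with digit number `i` in base `B` replaced by `d`. -/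
def sd (B x i d : ℕ) : ℕ := x - dg B x i * B ^ i + d * B ^ i

/-- The same with a truncated power (equal to `sd B x i d` if `B ^ i ≤ cap`). -/
def sdc (cap B x i d : ℕ) : ℕ := x - dg B x i * pw cap B i + d * pw cap B i

/-- MODULE L1.  Truncated subtraction, and min, max.
Proof.  pred: prec 0 (fun _ u => u 0) counts: value at y+1 is y; so x - 1 = prec .. x, bounded by x.  F - G: prec F (pred of u 1)
with count G w v, value F w v - y, bounded by F w v.  min F G = F - (F - G), max F G = G + (F - G). -/
def StL1 : Prop :=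
  ∀ {α : Type} [Fintype α] (F G : VF α), E2 F → E2 G →
    E2 (fun w v => F w v - G w v) ∧ E2 (fun w v => min (F w v) (G w v)) ∧ E2 (fun w v => max (F w v) (G w v))

/-- MODULE L2 (hypothesis StL1).  Predicates and case distinction.
Proof.  (if F <= G then 1 else 0) = 1 - (F - G) (truncated: F - G = 0 iff F <= G, else the result is 0).  not: 1 - χ; and: product;
or: 1 - (1-χ)(1-χ'); eq: both <=; lt: not <=.  ite: χ * F + (1 - χ) * G. -/
def StL2 : Prop :=
  ∀ {α : Type} [Fintype α],
    (∀ F G : VF α, E2 F → E2 G → E2P (fun w v => F w v ≤ G w v) ∧ E2P (fun w v => F w v < G w v) ∧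
      E2P (fun w v => F w v = G w v)) ∧
    (∀ p q : List α → (ℕ → ℕ) → Prop, E2P p → E2P q → E2P (fun w v => ¬ p w v) ∧ E2P (fun w v => p w v ∧ q w v) ∧
      E2P (fun w v => p w v ∨ q w v)) ∧
    (∀ (p : List α → (ℕ → ℕ) → Prop) (F G : VF α), E2P p → E2 F → E2 G → E2 (fun w v => if p w v then F w v else G w v))

/-- MODULE L3 (hypotheses StL1, StL2).  Bounded sums, quantifiers and search; the bound variable is entry 0 of the context.
Proof.  Sum: prec 0 (u 1 + T w (scons (u 0) (fun i => u (i+2)))) with count H; the step is E2 by `E2.subst` (or `E2.sub1` and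
`E2.rename`); bounded by H * X^c (each term T w (scons i v) with i <= H is <= (|w| + i + sumK K v + 2)^c by `E2.poly`;
so the bound E2 function H * (|w| + H + sumK K v + 2)^c works, sumK K v is E2 by `E2.fsum`).  Product of characteristic functions:
∀ i < H, p i iff the number of i < H with not p i is 0; ∃ = not ∀ not.  bmin: a bounded sum of a bounded quantifier (the context of
the inner predicate: entries i, j, v; bound j + 1). -/
def StL3 : Prop :=
  ∀ {α : Type} [Fintype α],
    (∀ T H : VF α, E2 T → E2 H → E2 (fun w v => ∑ i ∈ range (H w v), T w (scons i v))) ∧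
    (∀ (p : List α → (ℕ → ℕ) → Prop) (H : VF α), E2P p → E2 H →
      E2P (fun w v => ∀ i < H w v, p w (scons i v)) ∧ E2P (fun w v => ∃ i < H w v, p w (scons i v)) ∧
      E2 (fun w v => bmin (H w v) (fun i => p w (scons i v))))

/-- MODULE L4 (hypotheses StL1, StL2, StL3).  Division and remainder.
Proof.  x / y = #{j < x : (j+1) * y <= x} if y > 0 (a bounded sum), and 0 if y = 0.  x % y = x - y * (x / y). -/
def StL4 : Prop :=
  ∀ {α : Type} [Fintype α] (F G : VF α), E2 F → E2 G → E2 (fun w v => F w v / G w v) ∧ E2 (fun w v => F w v % G w v)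

/-- MODULE L5 (hypotheses StL1, StL2, StL3, StL4).  Truncated powers, digits, binary logarithm.
Proof.  pw cap b e by recursion on e: pw cap b 0 = 1 (= min 1 (cap+1)), pw cap b (e+1) = min (pw cap b e * b) (cap + 1)
(if b^e <= cap clear; otherwise b^e >= cap+1, and b >= 1 gives both sides cap+1; for b = 0, e > 0: b^e = 0; e = 0, cap = 0: check);
bounded by cap + 1.  dg B x i: if pw x B i = x + 1 (that is B^i > x) then x / B^i = 0, so dg = 0 % B = 0; else x / pw % B.
sdc: composition.
Nat.log 2 x = bmin x (fun i => x < 2^(i+1)) for x >= 1 (2^(i+1) > x tested by pw x 2 (i+1) = x+1), and 0 for x = 0 (bmin 0 = 0).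
For x = 1: bmin 1 (i = 0: 1 < 2) = 0.  Use the specification of bmin: it is the least i < b with p i, or b (prove it: count the
j < b with no i <= j satisfying p). -/
def StL5 : Prop :=
  ∀ {α : Type} [Fintype α] (F G H D C : VF α), E2 F → E2 G → E2 H → E2 D → E2 C →
    E2 (fun w v => pw (F w v) (G w v) (H w v)) ∧ E2 (fun w v => dg (F w v) (G w v) (H w v)) ∧
    E2 (fun w v => sdc (C w v) (F w v) (G w v) (H w v) (D w v)) ∧
    E2 (fun w v => Nat.log 2 (F w v))

/-- MODULE L6 (hypotheses StL1, StL2).  Finite tables.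
Proof.  The function is the finite sum over i < m of (if F w v = i then t i else 0) (`E2.fsum`); for the second one the sum over all
pairs (i, j) of range m × range m. -/
def StL6 : Prop :=
  ∀ {α : Type} [Fintype α] (F G : VF α) (m : ℕ) (t : ℕ → ℕ) (t' : ℕ → ℕ → ℕ), E2 F → E2 G →
    E2 (fun w v => if F w v < m then t (F w v) else 0) ∧
    E2 (fun w v => if F w v < m ∧ G w v < m then t' (F w v) (G w v) else 0)

/-- MODULE L7.  Specification of the bounded search.
Proof.  bmin b p counts the j < b such that no i <= j satisfies p.  If i0 < b is the least number with p these are exactly the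
j < i0; if no i < b satisfies p they are all j < b. -/
def StL7 : Prop :=
  ∀ (b : ℕ) (p : ℕ → Prop),
    (∀ i0 < b, p i0 → (∀ i < i0, ¬ p i) → bmin b p = i0) ∧ ((∀ i < b, ¬ p i) → bmin b p = b) ∧
    ((∃ i < b, p i) → bmin b p < b ∧ p (bmin b p) ∧ ∀ i < bmin b p, ¬ p i) ∧ bmin b p ≤ b

end Pool.Agent.Helper73.DC
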