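import Pool.Agent.Helper73.DC.St2

set_option autoImplicit false

/-! Project DC (helper73), MP_26f0da_lc: statements, wave 3a: a for-loop language with recursion levels, and its flattening.

A command acts on a state (ℓ, g): ℓ are the local variables of the present level (all values < M = π 0, number of variables m), g is the
global register (value < G = π 1).  The command `call i j` performs variable j := value of the next lower level at the argument
variable i; the lower level may use g but has its own local variables.  THEOREM (StF6): the value of level R is an E2 function of w,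
the parameters π, R, the argument, and a number N which exceeds M^(m (R+1)), G and the number of steps. -/

namespace Pool.Agent.Helper73.DC

open Finset
open scoped Classical

/-- `u 0, .., u (k-1), v 0, v 1, ..` -/
def cat (k : ℕ) (u v : ℕ → ℕ) : ℕ → ℕ := fun j => if j < k then u j else v (j - k)

/-- Simultaneous recursion for `k` functions. -/
def vrec {α : Type} (k : ℕ) (F G : ℕ → VF α) (w : List α) (v : ℕ → ℕ) : ℕ → ℕ → ℕ
  | 0 => fun i => F i w v
  | y + 1 => fun i => G i w (scons y (cat k (vrec k F G w v y) v))

/-- MODULE L8 (hypotheses StL1, StL2, StL3, StL4, StL5).  Simultaneous bounded recursion.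
Proof.  Pack the k components with Nat.pair (or, as all are <= B w v, in base B w v + 1 with `dg` and `pw`): acc = pair (u 0) (pair (u 1)
(.. )).  Nat.pair a b = if a < b then b*b + a else a*a + a + b is E2; unpair is E2 (`Nat.sqrt` by bounded search, or
unpair components by bounded search: (unpair n).1 = the least i < n+1 such that exists j < n+1 with pair i j = n).  The packed
recursion is an `E2.brec` whose bound is the packing of k copies of B w v (Nat.pair is monotone in both arguments:
`Nat.pair_lt_pair_left`, `Nat.pair_lt_pair_right`; or use base-(B+1) digits and bound (B+1)^k).  Step: unpack, apply G i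
(`E2.subst`), pack.  Components with index >= k are irrelevant because `cat k` only uses u j for j < k. -/
def StL8 : Prop :=
  ∀ {α : Type} [Fintype α] (k : ℕ) (F G : ℕ → VF α) (H B : VF α), (∀ i < k, E2 (F i)) → (∀ i < k, E2 (G i)) → E2 H → E2 B →
    (∀ w v y, y ≤ H w v → ∀ i < k, vrec k F G w v y i ≤ B w v) →
    ∀ i < k, E2 (fun w v => vrec k F G w v (H w v) i)

/-! ### The language -/

/-- Commands: assignment to a local variable, assignment to the global register, sequence, repetition (the number of repetitions
depends only on the word and the parameters), call of the next lower level. -/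
inductive Cmd (α : Type) where
  | asg : ℕ → VF α → Cmd α
  | glb : VF α → Cmd α
  | seq : Cmd α → Cmd α → Cmd α
  | rep : VF α → Cmd α → Cmd α
  | call : ℕ → ℕ → Cmd α

/-- The context in which the functions in assignments are evaluated: entry 0: level, entry 1: global register, entries 2, .., m+1:
local variables, entries m+2, ..: parameters. -/
def ctx (m r g : ℕ) (l p : ℕ → ℕ) : ℕ → ℕ := scons r (scons g (cat m l p))

/-- Well-formedness: variables `< m`, all functions are E2. -/
def Cmd.ok {α : Type} [Fintype α] (m : ℕ) : Cmd α → Prop
  | Cmd.asg i F => i < m ∧ E2 F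
  | Cmd.glb F => E2 F
  | Cmd.seq c d => c.ok m ∧ d.ok m
  | Cmd.rep n c => E2 n ∧ c.ok m
  | Cmd.call i j => i < m ∧ j < m

/-- Meaning of a command at level `r`; `cb x g` is the meaning of the next lower level at the argument `x` and global register `g`. -/
def sem {α : Type} (w : List α) (p : ℕ → ℕ) (m : ℕ) (cb : ℕ → ℕ → ℕ × ℕ) (r : ℕ) : Cmd α → (ℕ → ℕ) × ℕ → (ℕ → ℕ) × ℕ
  | Cmd.asg i F, s => (Function.update s.1 i (F w (ctx m r s.2 s.1 p) % p 0), s.2)
  | Cmd.glb F, s => (s.1, F w (ctx m r s.2 s.1 p) % p 1)
  | Cmd.seq c d, s => sem w p m cb r d (sem w p m cb r c s)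
  | Cmd.rep n c, s => (sem w p m cb r c)^[n w p] s
  | Cmd.call i j, s => (Function.update s.1 j ((cb (s.1 i) s.2).1 % p 0), (cb (s.1 i) s.2).2)

/-- Initial local variables: variable 0 is the argument. -/
def ini (x : ℕ) : ℕ → ℕ := fun i => if i = 0 then x else 0

/-- Meaning of level `r`: argument and global register to value and global register. -/
def VV {α : Type} (w : List α) (p : ℕ → ℕ) (m : ℕ) (bs : VF α) (body : Cmd α) : ℕ → ℕ → ℕ → ℕ × ℕ
  | 0 => fun x g => (bs w (scons x p) % p 0, g)
  | r + 1 => fun x g =>
      ((sem w p m (VV w p m bs body r) (r + 1) body (ini x, g)).1 1,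
       (sem w p m (VV w p m bs body r) (r + 1) body (ini x, g)).2)

/-- Number of elementary steps of a command, `t` = number of steps of the next lower level. -/
def tm {α : Type} (w : List α) (p : ℕ → ℕ) (t : ℕ) : Cmd α → ℕ
  | Cmd.asg _ _ => 1
  | Cmd.glb _ => 1
  | Cmd.seq c d => tm w p t c + tm w p t d
  | Cmd.rep n c => n w p * tm w p t c
  | Cmd.call _ _ => t + 2

/-- Number of elementary steps of level `r`. -/
def Tot {α : Type} (w : List α) (p : ℕ → ℕ) (body : Cmd α) : ℕ → ℕ
  | 0 => 1
  | r + 1 => tm w p (Tot w p body r) body

/-! ### Flattening, abstract form -/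

/-- Full states: local variables of all levels, global register. -/
abbrev FS := (ℕ → ℕ → ℕ) × ℕ

/-- Replace the local variables of level `r`. -/
def setL (s : FS) (r : ℕ) (l : ℕ → ℕ) : FS := (Function.update s.1 r l, s.2)

/-- Elementary step number `τ` of a command at level `r` (>= 1); `sub` are the elementary steps of the next lower level. -/
def mu {α : Type} (w : List α) (p : ℕ → ℕ) (m : ℕ) (t : ℕ) (sub : ℕ → FS → FS) (r : ℕ) : Cmd α → ℕ → FS → FS
  | Cmd.asg i F, _, s => setL s r (Function.update (s.1 r) i (F w (ctx m r s.2 (s.1 r) p) % p 0))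
  | Cmd.glb F, _, s => (s.1, F w (ctx m r s.2 (s.1 r) p) % p 1)
  | Cmd.seq c d, y, s => if y < tm w p t c then mu w p m t sub r c y s else mu w p m t sub r d (y - tm w p t c) s
  | Cmd.rep _ c, y, s => mu w p m t sub r c (y % tm w p t c) s
  | Cmd.call i j, y, s =>
      if y = 0 then setL s (r - 1) (ini (s.1 r i))
      else if y ≤ t then sub (y - 1) s
      else setL s r (Function.update (s.1 r) j (s.1 (r - 1) 1 % p 0))

/-- Elementary step number `y` of level `r`. -/
def MU {α : Type} (w : List α) (p : ℕ → ℕ) (m : ℕ) (bs : VF α) (body : Cmd α) : ℕ → ℕ → FS → FS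
  | 0 => fun _ s => setL s 0 (Function.update (s.1 0) 1 (bs w (scons (s.1 0 0) p) % p 0))
  | r + 1 => fun y s => mu w p m (Tot w p body r) (MU w p m bs body r) (r + 1) body y s

/-- Perform the steps `a, a+1, .., a+n-1`. -/
def runs (f : ℕ → FS → FS) (a : ℕ) : ℕ → FS → FS
  | 0 => fun s => s
  | n + 1 => fun s => f (a + n) (runs f a n s)

/-- MODULE F1.  Flattening.
Proof.  Claim A (by induction on r): for every full state s with s.1 r = ini x the state s' = runs (MU r) 0 (Tot r) s satisfies s'.1 r 1 =
(VV r x s.2).1, s'.2 = (VV r x s.2).2 and s'.1 q = s.1 q for all q > r.  r = 0: one step.  Step r → r + 1: Claim B (by induction on the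
command c, for all s and all offsets): if (l', g') = sem .. (VV r) (r+1) c (s.1 (r+1), s.2) then s' = the result of performing
the steps mu .. c 0, .., mu .. c (tm c - 1) on s satisfies s'.1 (r+1) = l', s'.2 = g' and s'.1 q = s.1 q for q > r + 1 (nothing is
claimed for the levels <= r).  seq: split the run at tm c (`runs` of a sum; the steps of d appear shifted).  rep n c: induction on n: the
steps with numbers k * tm c + y, y < tm c, are the steps y of c (mod).  If tm c = 0 there are no steps and c must be the
identity on (l, g): from Claim B for c with no steps (or directly: tm c = 0 only through rep with 0 repetitions).  call: step 0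
initialises level r, the steps 1, .., t are the steps of level r (Claim A with r; it does not change level r + 1), step t + 1 copies
the value.  Note the value is taken mod p 0 also in `sem`. -/
def StF1 : Prop :=
  ∀ {α : Type} (w : List α) (p : ℕ → ℕ) (m : ℕ) (bs : VF α) (body : Cmd α) (R x : ℕ) (s : FS), s.1 R = ini x →
    (runs (MU w p m bs body R) 0 (Tot w p body R) s).1 R 1 = (VV w p m bs body R x s.2).1 ∧
    (runs (MU w p m bs body R) 0 (Tot w p body R) s).2 = (VV w p m bs body R x s.2).2

/-! ### Decoding of the step number -/

/-- Number of elementary actions of a command (a call has three: initialisation, lower level, copy of the value). -/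
def sz {α : Type} : Cmd α → ℕ
  | Cmd.asg _ _ => 1
  | Cmd.glb _ => 1
  | Cmd.seq c d => sz c + sz d
  | Cmd.rep _ c => sz c
  | Cmd.call _ _ => 3

/-- The action (first component, `< sz c`) performed at step `y`, and the step number in the lower level (second component). -/
def fnd {α : Type} (w : List α) (p : ℕ → ℕ) (t : ℕ) : Cmd α → ℕ → ℕ × ℕ
  | Cmd.asg _ _, _ => (0, 0)
  | Cmd.glb _, _ => (0, 0)
  | Cmd.seq c d, y => if y < tm w p t c then fnd w p t c y else
      (sz c + (fnd w p t d (y - tm w p t c)).1, (fnd w p t d (y - tm w p t c)).2)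
  | Cmd.rep _ c, y => fnd w p t c (y % tm w p t c)
  | Cmd.call _ _, y => if y = 0 then (0, 0) else if y ≤ t then (1, y - 1) else (2, 0)

/-- Action number `a` is `work of the lower level`. -/
def low {α : Type} : Cmd α → ℕ → Prop
  | Cmd.asg _ _, _ => False
  | Cmd.glb _, _ => False
  | Cmd.seq c d, a => if a < sz c then low c a else low d (a - sz c)
  | Cmd.rep _ c, a => low c a
  | Cmd.call _ _, a => a = 1

/-- Action number `a` at level `r` (not a low one). -/
def mic {α : Type} (w : List α) (p : ℕ → ℕ) (m r : ℕ) : Cmd α → ℕ → FS → FS
  | Cmd.asg i F, _, s => setL s r (Function.update (s.1 r) i (F w (ctx m r s.2 (s.1 r) p) % p 0))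
  | Cmd.glb F, _, s => (s.1, F w (ctx m r s.2 (s.1 r) p) % p 1)
  | Cmd.seq c d, a, s => if a < sz c then mic w p m r c a s else mic w p m r d (a - sz c) s
  | Cmd.rep _ c, a, s => mic w p m r c a s
  | Cmd.call i j, a, s =>
      if a = 0 then setL s (r - 1) (ini (s.1 r i))
      else if a = 1 then s
      else setL s r (Function.update (s.1 r) j (s.1 (r - 1) 1 % p 0))

/-- Descent: from (level, step number) to (level, step number) as long as the action is low.  State `(r, y, 0)`; the third
component is `a + 1` when the action `a` has been found at level `r` (`1` at level 0). -/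
noncomputable def dsc {α : Type} (w : List α) (p : ℕ → ℕ) (body : Cmd α) (q : ℕ × ℕ × ℕ) : ℕ × ℕ × ℕ :=
  if q.2.2 ≠ 0 then q else
    if q.1 = 0 then (0, q.2.1, 1) else
      if low body (fnd w p (Tot w p body (q.1 - 1)) body q.2.1).1 then
        (q.1 - 1, (fnd w p (Tot w p body (q.1 - 1)) body q.2.1).2, 0)
      else (q.1, q.2.1, (fnd w p (Tot w p body (q.1 - 1)) body q.2.1).1 + 1)

/-- MODULE F2.  Decoding.
Proof.  (1) fnd: the first component is < sz c; mu c y s = if low c a then sub y' s else mic c a s where (a, y') = fnd c y (induction on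
c; for rep: `mu` and `fnd` both use y % tm c).  (2) by induction on r, MU r y s equals the result of the descent: iterate dsc
R + 1 times starting from (R, y, 0); the result is (r', y', a+1); then MU R y s = (if r' = 0 then base step else mic r' body a s).
(Level 0 is reached after at most R low steps, then one more step sets the flag.)  Prove for all r <= n: (dsc)^[n+1] (r, y, 0). -/
def StF2 : Prop :=
  ∀ {α : Type} (w : List α) (p : ℕ → ℕ) (m : ℕ) (bs : VF α) (body : Cmd α) (R y : ℕ) (s : FS),
    ((dsc w p body)^[R + 1] (R, y, 0)).1 ≤ R ∧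
    MU w p m bs body R y s =
      (if ((dsc w p body)^[R + 1] (R, y, 0)).1 = 0 then
        setL s 0 (Function.update (s.1 0) 1 (bs w (scons (s.1 0 0) p) % p 0))
      else mic w p m ((dsc w p body)^[R + 1] (R, y, 0)).1 body (((dsc w p body)^[R + 1] (R, y, 0)).2.2 - 1) s)

/-! ### Packed states -/

/-- The number `x` packs the local variables of the levels `0, .., R` (variable `i < m` of level `r` is digit `r m + i` in base M). -/
def Pck (M m R : ℕ) (x : ℕ) (l : ℕ → ℕ → ℕ) : Prop :=
  x < M ^ (m * (R + 1)) ∧ ∀ r ≤ R, ∀ i < m, dg M x (r * m + i) = l r i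

/-- MODULE F3.  Packed digits can be changed.
Proof.  If d < M and B = M: x = sum of digits; sd changes only digit i: sd M x i d = x - dg * M^i + d * M^i; write
x = q M^(i+1) + dg M^i + x0 with x0 < M^i (`Nat.div_add_mod`); then sd = q M^(i+1) + d M^i + x0.  Digit j of it: for j = i it is d; for
j < i it is digit j of x0; for j > i: digit j - i - 1 of q.  The bound x < M^n is kept if i < n.  sdc = sd if M^i <= cap. -/
def StF3 : Prop :=
  ∀ (M x i d n : ℕ), 0 < M → d < M → i < n → x < M ^ n →
    sd M x i d < M ^ n ∧ (∀ j, dg M (sd M x i d) j = if j = i then d else dg M x j) ∧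
    (∀ cap, M ^ i ≤ cap → sdc cap M x i d = sd M x i d)

/-- Context of the packed functions: entry 0: N (cap), 1: level r, 2: action a (or step number y), 3: packed x, 4: g, 5: t, from 6 on: parameters. -/
def pctx (N r a x g t : ℕ) (p : ℕ → ℕ) : ℕ → ℕ := scons N (scons r (scons a (scons x (scons g (scons t p)))))

/-- MODULE F4 (hypotheses StL1 .. StL6, StF3).  The packed actions are E2.
Proof.  Induction on the command c; in the induction the action number a is decoded by `if a < sz c`.  Packed versions:
asg i F: x := sdc N M x (r m + i) (F w (ctx m r g (fun i => dg M x (r m + i)) p) % M): the inner function is E2 by `E2.subst` (entries of ctx: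
level, g, digits, parameters: F has finite support, but subst works with all entries: entry 2 + i of `ctx m r g l p` is dg M x (r m + i) for
i < m and p (i - m) for i >= m, each an E2 function of the packed context).  glb: the same for g with % p 1.  call, a = 0: the m successive
replacements of the digits (r-1) m + i by (digit r m + i0 if i = 0 else 0) (composition of m sdc's, m is a constant); a = 2: digit
r m + j := digit (r-1) m + 1, mod M.  Correctness: Pck is kept (StF3; the positions r' m + i with i < m are different for different (r', i)),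
as M^(m (R+1)) <= N all truncated powers are exact; M = p 0 > 0.  In the statement both components are given: X (new x) and Gg (new g).
For the action a = 1 of a call nothing changes. -/
def StF4 : Prop :=
  ∀ {α : Type} [Fintype α] (m : ℕ) (c : Cmd α), 2 ≤ m → c.ok m →
    ∃ X Gg : VF α, E2 X ∧ E2 Gg ∧
      ∀ (w : List α) (p : ℕ → ℕ) (R N r a x g t : ℕ) (l : ℕ → ℕ → ℕ), 0 < p 0 → (p 0) ^ (m * (R + 1)) ≤ N → 1 ≤ r → r ≤ R →
        (∀ q i, l q i < p 0) → Pck (p 0) m R x l →
        Pck (p 0) m R (X w (pctx N r a x g t p)) (mic w p m r c a (l, g)).1 ∧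
        Gg w (pctx N r a x g t p) = (mic w p m r c a (l, g)).2

/-- MODULE F5 (hypotheses StL1 .. StL6).  Decoding is E2.
Proof.  tm w p t c is E2 in (t, p) by induction on c.  fnd: by induction on c, both components (case distinctions, %, tm).  low c a: a
finite condition: by induction on c it is E2P.  Context here: entry 0: y, entry 1: t, from 2 on: p.  -/
def StF5 : Prop :=
  ∀ {α : Type} [Fintype α] (m : ℕ) (c : Cmd α), c.ok m →
    E2 (α := α) (fun w v => tm w (fun i => v (i + 2)) (v 1) c) ∧
    E2 (α := α) (fun w v => (fnd w (fun i => v (i + 2)) (v 1) c (v 0)).1) ∧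
    E2 (α := α) (fun w v => (fnd w (fun i => v (i + 2)) (v 1) c (v 0)).2) ∧
    E2P (α := α) (fun _ v => low c (v 0))

/-- MODULE F6 (hypotheses StL1 .. StL8, StF1 .. StF5).  The value of level R is E2.
Proof.  Context: entry 0: N, entry 1: R, entry 2: x, entry 3: g, from 4 on: p.  (1) Tot is computed with truncation: tt r = min (Tot r) (N+1) by
recursion: tt 0 = min 1 (N+1), tt (r+1) = min (tm .. (tt r) body) (N + 1) (tm is monotone in t and tm t c < t only if ... : in fact
we only need tt r = Tot r for the r <= R with Tot r <= N; Tot r <= Tot R is not needed: assume N >= Tot r for all r <= R, see the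
hypothesis).  (2) descent: dsc iterated R + 1 times on (r, y, a): simultaneous recursion StL8 with k = 3, all values <= N + sz body + R + 1
(fnd's second component is <= y and y <= N).  (3) outer recursion over the step numbers y < Tot R with the components (packed x, g): StL8, k = 2, bounded by N + p 1
+ g (truncate by % or min with N to have the bound for all inputs, e.g. replace the new value X by min X N, Gg by min Gg (N)); initial packed
value: x at digit R m + 0: (x % M) * pw N M (R m), g.  (4) by StF1 and StF2 the result is digit R m + 1 of the final packed number.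
The full state is (l, g) with l the unpacked digits; mic, MU preserve `all l q i < p 0` (as every assigned value is taken mod p 0, ini x has
value x < p 0) and need only levels <= R.  The result for arbitrary inputs not satisfying the hypotheses is irrelevant. -/
def StF6 : Prop :=
  ∀ {α : Type} [Fintype α] (m : ℕ) (bs : VF α) (body : Cmd α), 2 ≤ m → E2 bs → body.ok m →
    ∃ A : VF α, E2 A ∧
      ∀ (w : List α) (p : ℕ → ℕ) (N R x g : ℕ), 0 < p 0 → x < p 0 → g < p 1 → p 1 ≤ N → (p 0) ^ (m * (R + 1)) ≤ N →
        (∀ r ≤ R, Tot w p body r ≤ N) →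
        A w (scons N (scons R (scons x (scons g p)))) = (VV w p m bs body R x g).1

/-- Number of nested repetitions. -/
def dpt {α : Type} : Cmd α → ℕ
  | Cmd.asg _ _ => 0
  | Cmd.glb _ => 0
  | Cmd.seq c d => dpt c + dpt d
  | Cmd.rep _ c => dpt c + 1
  | Cmd.call _ _ => 0

/-- All repetition numbers are `<= X`. -/
def Cmd.rle {α : Type} (w : List α) (p : ℕ → ℕ) (X : ℕ) : Cmd α → Prop
  | Cmd.asg _ _ => True
  | Cmd.glb _ => True
  | Cmd.seq c d => c.rle w p X ∧ d.rle w p X
  | Cmd.rep n c => n w p ≤ X ∧ c.rle w p X
  | Cmd.call _ _ => True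

/-- MODULE F7.  Bound for the number of steps.
Proof.  tm t c <= sz c * X^(dpt c) * (t + 2) by induction on c (X >= 1).  With a = sz body * X^(dpt body) >= 1 (sz >= 1): Tot 0 = 1,
Tot (r+1) <= a (Tot r + 2) <= 3 a Tot r if Tot r >= 1, in general Tot r + 2 <= (3a)^r * 3: induction: Tot (r+1) + 2 <= a ((3a)^r 3) + 2 <=
3 (3a)^(r+1). -/
def StF7 : Prop :=
  ∀ {α : Type} (w : List α) (p : ℕ → ℕ) (body : Cmd α) (X : ℕ), 1 ≤ X → body.rle w p X → ∀ r,
    Tot w p body r + 2 ≤ 3 * (3 * (sz body * X ^ dpt body)) ^ r

end Pool.Agent.Helper73.DC
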