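import Pool.Agent.Helper73.DC.St5

set_option autoImplicit false

/-! Project DC (helper73), MP_26f0da_lc: statements, wave 4a: parameters and the abstract theorem. -/

namespace Pool.Agent.Helper73.DC

open Finset
open scoped Classical

/-- The space bound (log n)^2/log log n. -/
def SSn (n : ℕ) : ℕ := Nat.log 2 n ^ 2 / (Nat.log 2 (Nat.log 2 n) + 1)

def lam (n : ℕ) : ℕ := Nat.log 2 (n + 2) + 1
def lll (n : ℕ) : ℕ := Nat.log 2 (lam n)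
def eee (n : ℕ) : ℕ := lll n / 2 + 1
def kkk (n : ℕ) : ℕ := 2 * 2 ^ eee n
/-- Number of levels. -/
def RR (e n : ℕ) : ℕ := (e * lam n) / eee n + 1
def LL (e n : ℕ) : ℕ := 5 * (e + 2) * lam n

/-- The parameters; `P`, `O` are the prime and the generator of StM7. -/
def prm (P O : ℕ → ℕ) (e C n N : ℕ) : ℕ → ℕ
  | 0 => 2 ^ (C * lam n)
  | 1 => pw N (P (LL e n)) (3 * LL e n)
  | 2 => (n + 2) ^ e + 2
  | 3 => (n + 2) ^ e
  | 4 => LL e n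
  | 5 => 2 ^ LL e n
  | 6 => P (LL e n)
  | 7 => O (LL e n)
  | 8 => 6 * (P (LL e n) - 1)
  | 9 => kkk n + 1
  | 10 => (6 * (P (LL e n) - 1)) ^ (kkk n + 1)
  | 11 => kkk n
  | 12 => kkk n + 3
  | _ => 0

/-- MODULE A1.  Numbers.
Proof.  Write λ = lam n >= 2, l = lll n, so 2^l <= λ < 2^(l+1).  (v) 2^(λ-1) <= n + 2 < 2^λ, so 2^λ <= 2 (n+2) <= (n+2)^2.
(i) (n+2)^e + 2 <= (n+2)^(e+2) (n + 2 >= 2: 2 <= (n+2)^e (n+2)) <= 2^(λ (e+2)); fifth power.  (ii) kkk n = 2^(l/2+2) and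
2^(l/2+2) squared = 2^(2(l/2)+4) <= 16 λ; so kk <= 4 sqrt λ; (kk + 3) log2(kk+3) and (kk + 1) log2 (6 q) with 6 q <= 6 (4 LL + 4) <= C0 λ: log2
(C0 λ) <= c0 + l + 1; kk (l + c1) <= C λ because l + c1 <= c2 2^(l/2) (for all l) and 2^(l/2) kk <= 4 * 2^l <= 4 λ.
Formal: find C with (6 (q-1))^(kk+1) <= (2^(c0+l+1))^(kk+1) = 2^((c0+l+1)(kk+1)) < 2^(C λ).  (iii) ee * (e λ / ee + 1) > e λ, so
(2^ee)^R = 2^(ee R) > 2^(e λ) >= (n+2)^e (for e = 0: 1 < 2^(ee R)).  (iv) q^(3 L) <= 2^((c0 + l + 1) 15 (e+2) λ) and l + c <= C (R + 1): for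
e = 0, R = 1?  assume 1 <= e: R + 1 >= λ/ee >= 2^l/(l/2+1) >= c l; (all l: 2^l >= (l/2+1) l / 4). -/
def StA1 : Prop :=
  ∀ e : ℕ, 1 ≤ e → ∃ C : ℕ, ∀ n q : ℕ, 2 ≤ q → q ≤ 4 * LL e n + 4 →
    ((n + 2) ^ e + 2) ^ 5 ≤ 2 ^ LL e n ∧ 2 ^ LL e n < 2 ^ (C * lam n) ∧ q < 2 ^ (C * lam n) ∧
    (6 * (q - 1)) ^ (kkk n + 1) < 2 ^ (C * lam n) ∧ (kkk n + 3) ^ (kkk n + 3) ≤ 2 ^ (C * lam n) ∧
    (n + 2) ^ e < (2 ^ eee n) ^ RR e n ∧ q ^ (3 * LL e n) ≤ 2 ^ (C * lam n * (RR e n + 1)) ∧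
    2 ^ lam n ≤ (n + 2) ^ 2

/-- MODULE A2.  Asymptotics.
Proof.  With λ, l as above: R + 1 <= e λ / (l/2+1) + 2 <= 2 e λ/(l+1) + 2, so (C (R+1) + 1) log2(n+2) <= C1 (λ^2/(l+1)) + C1 λ in real numbers, and
λ <= 4 (λ^2/(l+1)) as l + 1 <= 2 λ.  For n >= 16: λ = log2 (n+2) + 1 <= log2 n + 2 <= 2 log2 n, and with μ = log2 n >= 4: l = log2 λ >= log2 μ, so
λ^2/(l+1) <= 4 μ^2/(log2 μ + 1) <= 4 (SSn n + 1) (floor).  For n < 16 the left side is bounded by a constant (maximum over finitely many n). -/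
def StA2 : Prop :=
  ∀ e C : ℕ, ∃ C' : ℕ, ∀ n : ℕ, (C * (RR e n + 1) + 1) * Nat.log 2 (n + 2) ≤ C' * SSn n + C'

/-- MODULE A3 (hypotheses StL1 .. StL5).  The parameters are E2.
Proof.  lam, lll, eee: Nat.log 2 (StL5), /.  2^(C λ) = pw cap 2 (C λ) with cap = (n+2)^(2 C) (as 2^λ <= (n+2)^2), similarly 2^ee <= 2^λ, 2^LL.  Entry 10:
pw cap (6 (P - 1)) (kk + 1) with cap = 2^(C λ) by hypothesis.  Entry 1 is a pw.  For j >= 13: 0.  RR: /, +, *. -/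
def StA3 : Prop :=
  ∀ {α : Type} [Fintype α] (P O : ℕ → ℕ) (e C : ℕ),
    (∀ F : VF α, E2 F → E2 (fun w v => P (F w v)) ∧ E2 (fun w v => O (F w v))) →
    (∀ n, (6 * (P (LL e n) - 1)) ^ (kkk n + 1) ≤ 2 ^ (C * lam n)) →
    (∀ j, E2 (α := α) (fun w v => prm P O e C w.length (v 0) j)) ∧ E2 (α := α) (fun w _ => RR e w.length)

/-- The abstract theorem.  A language described by a call structure with polynomially many nodes, E2 functions and polynomial measure is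
in DSPACE((log n)^2/log log n). -/
def StABS : Prop :=
  ∀ {α : Type} [Fintype α] (L : Set (List α)) (cl f0 lf wt : List α → ℕ → ℕ) (rs : List α → ℕ → ℕ → ℕ) (c0 : List α → ℕ) (e : ℕ),
    E2 (fun w v => cl w (v 0)) → E2 (fun w v => rs w (v 0) (v 1)) → E2 (fun w v => f0 w (v 0)) → E2 (fun w _ => c0 w) →
    (∀ w x, cl w x < (w.length + 2) ^ e) → (∀ w x r, rs w x r < (w.length + 2) ^ e) → (∀ w x, f0 w x < (w.length + 2) ^ e) →
    (∀ w, c0 w < (w.length + 2) ^ e) → (∀ w x, lf w x ≠ 0 → f0 w x ≠ 0) →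
    (∀ w x r, f0 w x = r + 1 → ∃ m n, Ev (lf w) (cl w) (rs w) (wt w) x r m n) →
    (∀ w x r n, Ev (lf w) (cl w) (rs w) (wt w) x r 0 n → f0 w x ≠ 0) →
    (∀ w, w ∈ L ↔ ∃ m n, Ev (lf w) (cl w) (rs w) (wt w) (c0 w) 0 m n) →
    (∀ w m n, Ev (lf w) (cl w) (rs w) (wt w) (c0 w) 0 m n → m < (w.length + 2) ^ e) →
    L ∈ DSPACE (α := α) SSn

/-- MODULE A4 (hypotheses StSS, StSC).  Correctness of the levels.
Proof.  f_r = (SP D kk cl rs)^[r] f0.  By induction on r: f_r x = ρ + 1 implies Ev x ρ (StSS); lf x <> 0 implies f_r x <> 0 (SP f x = f x if f x <> 0);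
Ev x ρ m n, x < D, m < k^r implies f_r x <> 0 (StSC with K = k^r; r = 0: m = 0).  Ev is deterministic in the value (induction), so if Ev c ρ m n
with m < k^R then f_R c = ρ + 1. -/
def StA4 : Prop :=
  ∀ (lf cl : ℕ → ℕ) (rs : ℕ → ℕ → ℕ) (wt f0 : ℕ → ℕ) (D kk k R c : ℕ), (∀ x, lf x ≠ 0 → f0 x ≠ 0) →
    (∀ x r, f0 x = r + 1 → ∃ m n, Ev lf cl rs wt x r m n) → (∀ x r n, Ev lf cl rs wt x r 0 n → f0 x ≠ 0) →
    (∀ x, cl x < D ∧ ∀ r, rs x r < D) → 2 * k ≤ kk → c < D →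
    (∀ m n, Ev lf cl rs wt c 0 m n → m < k ^ R) →
    (((SP D kk cl rs)^[R] f0 c = 1) ↔ ∃ m n, Ev lf cl rs wt c 0 m n)

/-- MODULE A5 (hypotheses StP0, StP10, StM7, StF6, StF7, StTOP, StA1, StA2, StA3, StA4, StL1 .. StL5).  The abstract theorem.
Proof.  We may assume 1 <= e (increase e: (n+2)^e <= (n+2)^(e+1)).  P, O from StM7, C from StA1 (for q = P (LL e n)), body, S, d from StP0.
With N = (n+2)^(Rf n), Rf n = C2 (RR e n + 1), n = |w|, p = prm P O e C n N: Prm holds (StA1, StM7; p 1 = p6^(3L) because p6^(3L) <= 2^(C λ (R+1)) <= (n+2)^(2 C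
(R+1)) <= N), p 0 ^ (40 (R+1)) <= N if C2 >= 80 C, Tot r + 2 <= 3 (3 S X^d)^r with X = 2^(C λ) (StF7, rle from StP0: p 3 <= p 5 <= X etc.) <= N if C2 is large
(3 * (3 S)^R <= 2^(2 + s R) with 3 S <= 2^s).  A from StF6 with bs w v = f0 w (v 0) and m = 40; F w v = if A w (scons (v 0) (scons (RR e |w|) (scons (c0 w)
(scons 0 (prm P O e C |w| (v 0)))))) = 1 then 1 else 0: E2 by `E2.subst`, StA3, StL2.  By StF6 and StP10 the value of A is (SP ..)^[R] f0 (c0 w), and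
by StA4 (k = 2^eee, kk = kkk = 2 k, measure < (n+2)^e < k^R by StA1) it is 1 iff w ∈ L.  StTOP: L ∈ DSPACE((Rf + 1) log2 (n+2)), which is
contained in DSPACE(SSn) by StA2 (DSPACE S ⊆ DSPACE S' if S <= C' S' + C'). -/
def StA5 : Prop := StABS

end Pool.Agent.Helper73.DC
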