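import Pool.Agent.Helper73.DC.Pda

set_option autoImplicit false

/-! Project DC (helper73), MP_26f0da_lc: statements, wave 4b: deterministic context-free languages. -/

namespace Pool.Agent.Helper73.DC

open Finset
open scoped Classical

/-- The resume function, cut off for large (never occurring) returned values. -/
noncomputable def rsb {α : Type} [Fintype α] (T : Tab) (w : List α) (x r : ℕ) : ℕ :=
  if (r - 1) / (w.length + 1) < T.NQ then T.rs w x r else T.ac w.length

/-- MODULE D1 (hypotheses StL1 .. StL6).  The functions of a table system are E2 and polynomially bounded.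
Proof.  n = |w| is `E2.len`; t = x / (n+1), i = x % (n+1), c = lett w i <= |α| (`lett_le` or `Fintype` bound), so all table values are finite tables: for x <
F (n+1) we have t < F; for `rsb` also (r - 1)/(n+1) < NQ.  A finite table h t c (t < F, c <= A) of an E2 argument pair is E2: case distinction over the finitely
many pairs (induction on F and A with the case distinction of StL2, or a double `fsum` of indicator times constant).  Only the truth values of tk t c = j, the
numbers tn, ts < F, tb < NQ + 2 matter.  Bounds: all nodes <= F (n+1), values of f0 <= (NQ - 1) (n+1) + n + 2 (tb < NQ + 2; if tb >= 2 then NQ >= 1); with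
F, NQ <= 2^e0 everything is < (n+2)^(e0 + 3) (2 <= n + 2).  In the kind 4 cases x < F (n+1) (kind 4 <> 0, 6 and x = F (n+1) has kind 0). -/
def StD1 : Prop :=
  ∀ {α : Type} [Fintype α] (T : Tab),
    E2 (α := α) (fun w v => T.cl w (v 0)) ∧ E2 (α := α) (fun w v => rsb T w (v 0) (v 1)) ∧ E2 (α := α) (fun w v => T.f0 w (v 0)) ∧
    (∀ t < T.F, E2 (α := α) (fun w _ => t * (w.length + 1))) ∧
    ∃ e : ℕ, ∀ (w : List α) (x r : ℕ), T.cl w x < (w.length + 2) ^ e ∧ rsb T w x r < (w.length + 2) ^ e ∧
      T.f0 w x < (w.length + 2) ^ e ∧ T.ac w.length < (w.length + 2) ^ e ∧ w.length < (w.length + 2) ^ e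

/-- MODULE D2.  Every pushdown automaton is described by a table system.
Proof.  K = maximum of 1 and the lengths of the words in the finitely many moves.  The pairs (q, β) with |β| <= K form a finite type; num from
an enumeration (`Finite.exists_equiv_fin`), arbitrary outside.  Tables by cases (classical choice): decode t to (q, β) if t is a number of
such a pair, c to a letter.  tb: if some EpR M (c = 0) q β r holds, r is unique (determinism of EpR: induction on the first derivation, the
cases are exclusive); put 1 for none and qn q' + 2 for some q'.  For c > |α| (no letter): c <> 0, no letter a has cd a + 1 = c: kst, kep apply as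
stated.  cd is injective.  EpR is used only for c = 0 or c <> 0. -/
def StD2 : Prop :=
  ∀ {α : Type} [Fintype α] (M : DPDA α), ∃ (T : Tab) (K : ℕ) (num : M.Q → List M.Γ → ℕ) (qn : M.Q → ℕ), Desc M T K num qn

/-- MODULE D3.  The kinds of the nodes of a word.
Proof.  For i <= n: nde / (n+1) = num q β, nde % (n+1) = i, nde < F (n+1).  lett w i = 0 iff i = n (i <= n); lett w i = cd a + 1 iff w[i]? = some a.  All
items follow from Desc by unfolding. In the reading case i < n so min (i+1) n = i + 1. -/
def StD3 : Prop :=
  ∀ {α : Type} [Fintype α] (M : DPDA α) (T : Tab) (K : ℕ) (num : M.Q → List M.Γ → ℕ) (qn : M.Q → ℕ), Desc M T K num qn →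
    ∀ (w : List α) (i : ℕ), i ≤ w.length →
      (∀ q β, β.length ≤ K → i = w.length → M.acc q → T.lf w (nde M num w.length q β i) = 1) ∧
      (∀ q, ¬ (i = w.length ∧ M.acc q) → T.lf w (nde M num w.length q [] i) = qn q * (w.length + 1) + i + 2) ∧
      (∀ q Z q' γ r, ¬ (i = w.length ∧ M.acc q) → M.ep q Z = some (q', γ) →
        T.lf w (nde M num w.length q [Z] i) = 0 ∧ T.cl w (nde M num w.length q [Z] i) = T.ac w.length ∧
        rsb T w (nde M num w.length q [Z] i) 0 = nde M num w.length q' γ i ∧ T.wt w (nde M num w.length q [Z] i) = 0 ∧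
        (r = 0 → rsb T w (nde M num w.length q [Z] i) r = nde M num w.length q' γ i)) ∧
      (∀ q Z q' γ a, w[i]? = some a → M.tr q Z a = some (q', γ) →
        T.lf w (nde M num w.length q [Z] i) = 0 ∧ T.cl w (nde M num w.length q [Z] i) = T.ac w.length ∧
        rsb T w (nde M num w.length q [Z] i) 0 = nde M num w.length q' γ (i + 1) ∧ T.wt w (nde M num w.length q [Z] i) = 1) ∧
      (∀ q Z, ¬ (i = w.length ∧ M.acc q) → M.ep q Z = none → (∀ a, w[i]? = some a → M.tr q Z a = none) →
        T.lf w (nde M num w.length q [Z] i) = 0 ∧ T.cl w (nde M num w.length q [Z] i) = nde M num w.length q [Z] i) ∧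
      (∀ q Z Y β, (Z :: Y :: β).length ≤ K → ¬ (i = w.length ∧ M.acc q) →
        T.lf w (nde M num w.length q (Z :: Y :: β) i) = 0 ∧
        T.cl w (nde M num w.length q (Z :: Y :: β) i) = nde M num w.length q [Z] i ∧
        T.wt w (nde M num w.length q (Z :: Y :: β) i) = 0 ∧
        rsb T w (nde M num w.length q (Z :: Y :: β) i) 0 = T.ac w.length ∧
        ∀ q' j, j ≤ w.length →
          rsb T w (nde M num w.length q (Z :: Y :: β) i) (qn q' * (w.length + 1) + j + 1) = nde M num w.length q' (Y :: β) j) ∧
      T.lf w (T.ac w.length) = 1 ∧ T.wt w (T.ac w.length) = 0 ∧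
      (∀ x, T.ac w.length < x → T.lf w x = 0 ∧ T.wt w x = 1)

/-- MODULE D4 (hypothesis StD3).  Derivations give runs.
Proof.  Induction on the derivation Ev, for the node of (q, β, i) with |β| <= K, i <= n.  Value 0: an accepting configuration is reachable from (q, w.drop i, β ++
s) for every s; value r + 1 (r = qn q' (n+1) + j with i <= j <= n): (q, w.drop i, β ++ s) →* (q', w.drop j, s) for every s, and j = i + m.  Also for value
0: m <= n - i.  Cases by StD3 (accepting leaf: the configuration itself; empty word; ε-move: the premise for cl is the leaf ac with value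
0 and measure 0; reading: drop i = a :: drop (i+1); stuck: Ev of a node needs a smaller Ev of the same node: impossible by the size; sequence: apply the
induction hypothesis to [Z] with s := Y :: β ++ s; value 0 of [Z]: rs .. 0 = ac).  Note all derivations of the node ac have value 0, m = 0. -/
def StD4 : Prop :=
  ∀ {α : Type} [Fintype α] (M : DPDA α) (T : Tab) (K : ℕ) (num : M.Q → List M.Γ → ℕ) (qn : M.Q → ℕ), Desc M T K num qn →
    ∀ (w : List α) (x v m k : ℕ), Ev (T.lf w) (T.cl w) (rsb T w) (T.wt w) x v m k →
      ∀ (q : M.Q) (β : List M.Γ) (i : ℕ), β.length ≤ K → i ≤ w.length → x = nde M num w.length q β i →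
        (v = 0 → i + m ≤ w.length ∧ ∀ s : List M.Γ, ∃ (q' : M.Q) (s' : List M.Γ), M.acc q' ∧
          Relation.ReflTransGen M.Step (q, w.drop i, β ++ s) (q', [], s')) ∧
        (v ≠ 0 → ∃ (q' : M.Q) (j : ℕ), v = qn q' * (w.length + 1) + j + 1 ∧ j = i + m ∧ j ≤ w.length ∧
          ∀ s : List M.Γ, Relation.ReflTransGen M.Step (q, w.drop i, β ++ s) (q', w.drop j, s))

/-- A run of exactly `n` moves. -/
def DPDA.Run {α : Type} (M : DPDA α) : ℕ → M.Q × List α × List M.Γ → M.Q × List α × List M.Γ → Prop
  | 0, c, d => c = d
  | n + 1, c, d => ∃ c', M.Step c c' ∧ M.Run n c' d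

/-- MODULE D5 (hypothesis StD3).  Runs give derivations.
Proof.  Strong induction on the number ℓ of moves, for all (q, β, i) with |β| <= K, i <= n: (a) if a run of ℓ moves leads from (q, w.drop i, β) to an
accepting configuration (q', [], s') then Ev of the node has the value 0; (b) if a run of ℓ moves leads from (q, w.drop i, β) to (q', u', [])
then Ev of the node has the value 0, or the value qn q' (n+1) + j + 1 with u' = w.drop j, j <= n.  If i = n and q is accepting: leaf with
value 0.  Otherwise β = []: no move is possible, ℓ = 0: (b) leaf; in (a) q' = q, w.drop i = [] means i = n and q accepting, excluded.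
β = [Z]: ℓ = 0: (a) excluded, (b) impossible; first move ε or reading (deterministic): apply the induction to (q'', γ, i or i+1).
β = Z :: Y :: β': look at the first moment when the stack is exactly Y :: β' (decompose the run: either the whole run stays above, then it is a run of (q, u, [Z]) with
Y :: β' appended below (stack words δ ++ Y :: β' with δ <> [] at all times but maybe the last): lemma: a run from (q, u, δ ++ τ) of ℓ moves either is a run
of (q, u, δ) with τ appended, or splits into a run of ℓ1 moves (q, u, δ) → (q1, u1, []) and a run of ℓ - ℓ1 moves from (q1, u1, τ), induction on ℓ);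
ℓ1 >= 1 because the stack word [Z] is not empty, so both parts are shorter; for ℓ1 < ℓ or = ℓ: if ℓ1 = ℓ the rest has 0 moves < ℓ.  By
induction Ev of (q, [Z], i) (for ℓ1 = ℓ use the case β = [Z] of the same ℓ, which was proved first) has value 0 (then so has the node: rs .. 0 = ac) or
the right value, then the induction hypothesis for (q1, Y :: β', j). -/
def StD5 : Prop :=
  ∀ {α : Type} [Fintype α] (M : DPDA α) (T : Tab) (K : ℕ) (num : M.Q → List M.Γ → ℕ) (qn : M.Q → ℕ), Desc M T K num qn →
    ∀ (w : List α) (l : ℕ) (q : M.Q) (β : List M.Γ) (i : ℕ), β.length ≤ K → i ≤ w.length →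
      (∀ (q' : M.Q) (s' : List M.Γ), M.acc q' → M.Run l (q, w.drop i, β) (q', [], s') →
        ∃ m k, Ev (T.lf w) (T.cl w) (rsb T w) (T.wt w) (nde M num w.length q β i) 0 m k) ∧
      (∀ (q' : M.Q) (u' : List α), M.Run l (q, w.drop i, β) (q', u', []) →
        (∃ m k, Ev (T.lf w) (T.cl w) (rsb T w) (T.wt w) (nde M num w.length q β i) 0 m k) ∨
        ∃ j m k, j ≤ w.length ∧ u' = w.drop j ∧
          Ev (T.lf w) (T.cl w) (rsb T w) (T.wt w) (nde M num w.length q β i) (qn q' * (w.length + 1) + j + 1) m k)

/-- MODULE D6 (hypothesis StD3).  The base function.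
Proof.  (1) leaves: lf w x <> 0 implies f0 w x <> 0: x = ac: f0 = 1; x < ac with kind 0 or 1: x is the node of some (q, β, i) (otherwise kind 6), i =
x % (n+1); kind 0: by exclusion c = 0 and acc q (the other cases of Desc give the kinds 1..5), so EpR.acc and kb1; kind 1: β = []; EpR.nil.
(2) soundness: f0 w x = r + 1: x = ac, r = 0: leaf.  x < ac: tb <> 0, so x is the node of (q, β, i) and EpR M (c = 0) q β ρ (kb1, kb2; tb is 1 or qn q' + 2: by
kb0 some EpR holds); prove by induction on EpR that Ev of the node of (q, β, i) holds with the value 0 (ρ = none) or qn q' (n+1) + i + 1 (ρ = some q'), using StD3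
(c = 0 iff i = n).  (3) completeness: Ev x r 0 k implies f0 w x <> 0: induction on Ev (measure 0, all measures of the premises are 0):
x = ac; x > ac or invalid nodes have weight 1; for a node (q, β, i): EpR exists (reading nodes have weight 1, stuck nodes have no
derivation (size), a value r1 of the first premise with measure 0 at (q, [Z], i) is 0 or qn q' (n+1) + i + 1). -/
def StD6 : Prop :=
  ∀ {α : Type} [Fintype α] (M : DPDA α) (T : Tab) (K : ℕ) (num : M.Q → List M.Γ → ℕ) (qn : M.Q → ℕ), Desc M T K num qn →
    ∀ (w : List α),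
      (∀ x, T.lf w x ≠ 0 → T.f0 w x ≠ 0) ∧
      (∀ x r, T.f0 w x = r + 1 → ∃ m n, Ev (T.lf w) (T.cl w) (rsb T w) (T.wt w) x r m n) ∧
      (∀ x r n, Ev (T.lf w) (T.cl w) (rsb T w) (T.wt w) x r 0 n → T.f0 w x ≠ 0)

/-- MODULE D7 (hypotheses StABS, StD1 .. StD6).  Deterministic context-free languages are in DSPACE((log n)^2/log log n).
Proof.  StABS with cl, f0, lf, wt, rsb of the tables (StD2) and c0 w = num q0 [z0] * (n+1) (node of (q0, [z0], 0)), e from StD1 (c0 w < ac).  w ∈ L iff Ev c0 0: StD4
(i = 0, s = []) and StD5 (a ReflTransGen is a Run of some length).  Measure: m <= n < (n+2)^e (StD4). -/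
def StD7 : Prop :=
  ∀ {α : Type} [Fintype α] (M : DPDA α), M.lang ∈ DSPACE (α := α) SSn

end Pool.Agent.Helper73.DC
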