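import Pool.Agent.Helper73.DC.Mda

set_option autoImplicit false

/-! Project DC (helper73), MP_26f0da_lc: statements, wave 4c: LogDCFL (deterministic two-way multihead pushdown automata in polynomial time). -/

namespace Pool.Agent.Helper73.DC

open Finset
open scoped Classical

/-- MODULE G1 (hypotheses StL1 .. StL6).  The functions of a table system are E2 and polynomially bounded.
Proof.  n = |w| is `E2.len`; P = (n+2)^k (`E2.powc`), t = x / P, x % P, digits dg (StL5), sy: case distinction with `E2.letr`; `sc` and `np` are sums over range k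
(`E2.fsum`).  sc w x <= A0 := k (A + 2) (A + 2)^k with A = Fintype.card α (lett <= A), so all table values are finite tables: for x < F P we have t < F;
the entries tm t c j (j < k), tk, tn, tq, ts (for (r-1)/P < NQ) are needed only for t < F, c <= A0.  A finite table h t c of an E2 argument pair: StL6 (second
part, m = max of the two bounds + 1) under the case distinction x < F P.  mvc: case distinction.  Note that rs, cl, lf use the tables only if kd is 1, 3 or
5, where x < F P (kd = 6 or 0 otherwise).  Bounds: np < P (digits <= n + 1; sum over j < k of d_j (n+2)^j < (n+2)^k), so all nodes are <= F P, values of lf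
<= (NQ - 1) P + P + 1; with F, NQ + 2 <= 2^e0 everything is < (n+2)^(e0 + k + 2). -/
def StG1 : Prop :=
  ∀ {α : Type} [Fintype α] (T : MTab),
    E2 (α := α) (fun w v => T.cl w (v 0)) ∧ E2 (α := α) (fun w v => T.rs w (v 0) (v 1)) ∧ E2 (α := α) (fun w v => T.lf w (v 0)) ∧
    (∀ t : ℕ, E2 (α := α) (fun w _ => t * (w.length + 2) ^ T.k)) ∧
    ∃ e : ℕ, ∀ (w : List α) (x r : ℕ), T.cl w x < (w.length + 2) ^ e ∧ T.rs w x r < (w.length + 2) ^ e ∧
      T.lf w x < (w.length + 2) ^ e ∧ T.ac w.length < (w.length + 2) ^ e

/-- MODULE G2.  Every multihead pushdown automaton is described by a table system.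
Proof.  K = maximum of 1 and the lengths of the words in the finitely many moves (Q, Γ and Fin k → Sym α are finite).  The pairs (q, β) with |β| <= K
form a finite type; num from an enumeration (`Finite.exists_equiv_fin`), arbitrary outside.  Tables by cases (classical choice): decode t to (q, β) if t is a number of
such a pair, c to a tuple x with vcd x = c if there is one; vcd is injective (digits scd <= A + 1 < A + 2, scd injective). -/
def StG2 : Prop :=
  ∀ {α : Type} [Fintype α] (M : MPDA α), ∃ (T : MTab) (K : ℕ) (num : M.Q → List M.Γ → ℕ) (qn : M.Q → ℕ), MDesc M T K num qn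

/-- MODULE G3.  The kinds of the nodes of a word.
Proof.  pcd n p < (n+2)^k and dg (n+2) (pcd n p) j = p j for j < k, as p j <= n + 1 (base n + 2 digits).  So mnd / P = num q β, mnd % P = pcd n p, mnd < F P (P = T.P n,
T.k = M.k).  sy w i = scd (symAt w i), hence T.sc w (pcd n p) = vcd (fun j => symAt w (p j)) (sum over range k = sum over Fin k).  mvc (mvd d) i = mvN d i,
so T.np = pcd n (nps w d p).  All items follow from MDesc by unfolding (NQ > 0 by hqn; (qn q' P + pcd p' + 1 - 1) / P = qn q', % P = pcd p'). -/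
def StG3 : Prop :=
  ∀ {α : Type} [Fintype α] (M : MPDA α) (T : MTab) (K : ℕ) (num : M.Q → List M.Γ → ℕ) (qn : M.Q → ℕ), MDesc M T K num qn →
    ∀ (w : List α) (p : Fin M.k → ℕ), (∀ j, p j ≤ w.length + 1) →
      (∀ q β, β.length ≤ K → M.acc q → T.lf w (mnd M num w.length q β p) = 1) ∧
      (∀ q, ¬ M.acc q → T.lf w (mnd M num w.length q [] p) = qn q * (w.length + 2) ^ M.k + pcd w.length p + 2) ∧
      (∀ q Z q' d γ, ¬ M.acc q → M.tr q Z (fun j => symAt w (p j)) = some (q', d, γ) →
        T.lf w (mnd M num w.length q [Z] p) = 0 ∧ T.cl w (mnd M num w.length q [Z] p) = T.ac w.length ∧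
        T.rs w (mnd M num w.length q [Z] p) 0 = mnd M num w.length q' γ (nps w d p)) ∧
      (∀ q Z, ¬ M.acc q → M.tr q Z (fun j => symAt w (p j)) = none →
        T.lf w (mnd M num w.length q [Z] p) = 0 ∧ T.cl w (mnd M num w.length q [Z] p) = mnd M num w.length q [Z] p) ∧
      (∀ q Z Y β, (Z :: Y :: β).length ≤ K → ¬ M.acc q →
        T.lf w (mnd M num w.length q (Z :: Y :: β) p) = 0 ∧
        T.cl w (mnd M num w.length q (Z :: Y :: β) p) = mnd M num w.length q [Z] p ∧
        T.rs w (mnd M num w.length q (Z :: Y :: β) p) 0 = T.ac w.length ∧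
        ∀ q' (p' : Fin M.k → ℕ), (∀ j, p' j ≤ w.length + 1) →
          T.rs w (mnd M num w.length q (Z :: Y :: β) p) (qn q' * (w.length + 2) ^ M.k + pcd w.length p' + 1) =
            mnd M num w.length q' (Y :: β) p') ∧
      T.lf w (T.ac w.length) = 1

/-- MODULE G4 (hypothesis StG3).  Derivations give runs.
Proof.  Induction on the derivation Ev, for the node of (q, β, p) with |β| <= K, positions <= n + 1.  Value 0: an accepting state is reachable from (q, p, β ++ s)
for every s; value qn q' P + pcd p' + 1: (q, p, β ++ s) runs to (q', p', s) for every s.  Cases by StG3: accepting state: the configuration itself (0 moves);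
empty word: 0 moves; move: the premise for cl is the leaf ac with value 0 (all derivations of ac have value 0), first move and then the induction
hypothesis (nps w d p <= n + 1); stuck: Ev of a node needs a smaller Ev of the same node, impossible by the size (do strong induction on the size k, or
prove first: cl x = x and lf x = 0 imply no Ev of x); sequence: the induction hypothesis for [Z] with s := Y :: β ++ s; value 0 of [Z]: fine for the whole
(the value of ac is 0); otherwise continue with (q', Y :: β, p').  Runs compose (lengths add). -/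
def StG4 : Prop :=
  ∀ {α : Type} [Fintype α] (M : MPDA α) (T : MTab) (K : ℕ) (num : M.Q → List M.Γ → ℕ) (qn : M.Q → ℕ), MDesc M T K num qn →
    ∀ (w : List α) (x v m k : ℕ), Ev (T.lf w) (T.cl w) (T.rs w) (fun _ => 1) x v m k →
      ∀ (q : M.Q) (β : List M.Γ) (p : Fin M.k → ℕ), β.length ≤ K → (∀ j, p j ≤ w.length + 1) → x = mnd M num w.length q β p →
        (v = 0 → ∀ s : List M.Γ, ∃ (l : ℕ) (q' : M.Q) (p' : Fin M.k → ℕ) (s' : List M.Γ), M.acc q' ∧ M.Run w l (q, p, β ++ s) (q', p', s')) ∧
        (v ≠ 0 → ∃ (q' : M.Q) (p' : Fin M.k → ℕ), v = qn q' * (w.length + 2) ^ M.k + pcd w.length p' + 1 ∧ (∀ j, p' j ≤ w.length + 1) ∧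
          ∀ s : List M.Γ, ∃ l : ℕ, M.Run w l (q, p, β ++ s) (q', p', s))

/-- MODULE G5 (hypothesis StG3).  Runs give derivations.
Proof.  Strong induction on the number l of moves, for all (q, β, p) with |β| <= K, positions <= n + 1; m <= the bound B(l, β) := (3K+3) l + 3 |β| + (2 if β = [] else
0) - 1.  (a) a run of l moves from (q, p, β) to an accepting state: Ev of the node has the value 0; (b) a run of l moves from (q, p, β) to (q', p', []): Ev has the
value 0, or the value qn q' P + pcd p' + 1 (and p' <= n + 1).  If q is accepting: leaf, value 0, m = 1.  Otherwise β = []: l = 0: (a) excluded, (b) leaf,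
m = 1.  β = [Z]: l = 0: (a) excluded, (b) impossible; first move (deterministic): induction for (q1, γ, nps w d p) and l - 1 moves; m = 1 + 1 + m' (1 for the
leaf ac): m + 1 <= 3 + m' and m' + 1 <= (3K+3)(l-1) + 3 K or (γ = []) m' + 1 <= (3K+3)(l-1) + 2; fine.  β = Z :: Y :: β': decompose the run (lemma:
a run of l moves from (q, p, δ ++ τ) either is a run of (q, p, δ) with τ appended, or splits into a run of l1 moves (q, p, δ) → (q1, p1, []) and a run of l - l1
moves from (q1, p1, τ); induction on l).  l1 >= 1 because [Z] is not empty.  Use the case [Z] with l or l1 moves (already proved) and the induction hypothesis for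
(q1, Y :: β', p1) with l - l1 < l moves: m = 1 + m1 + m2, m1 + 1 <= (3K+3) l1 + 3, m2 + 1 <= (3K+3)(l - l1) + 3 (|β| - 1): m + 1 = (m1 + 1) + (m2 + 1).  Value 0
of [Z]: m = 1 + m1 + 1, m + 1 <= (3K+3) l + 3 + 2 <= (3K+3) l + 3 |β|. -/
def StG5 : Prop :=
  ∀ {α : Type} [Fintype α] (M : MPDA α) (T : MTab) (K : ℕ) (num : M.Q → List M.Γ → ℕ) (qn : M.Q → ℕ), MDesc M T K num qn →
    ∀ (w : List α) (l : ℕ) (q : M.Q) (β : List M.Γ) (p : Fin M.k → ℕ), β.length ≤ K → (∀ j, p j ≤ w.length + 1) →
      (∀ (q' : M.Q) (p' : Fin M.k → ℕ) (s' : List M.Γ), M.acc q' → M.Run w l (q, p, β) (q', p', s') →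
        ∃ m k, m + 1 ≤ (3 * K + 3) * l + 3 * β.length + (if β = [] then 2 else 0) ∧
          Ev (T.lf w) (T.cl w) (T.rs w) (fun _ => 1) (mnd M num w.length q β p) 0 m k) ∧
      (∀ (q' : M.Q) (p' : Fin M.k → ℕ), M.Run w l (q, p, β) (q', p', []) →
        ∃ m k, m + 1 ≤ (3 * K + 3) * l + 3 * β.length + (if β = [] then 2 else 0) ∧
          (Ev (T.lf w) (T.cl w) (T.rs w) (fun _ => 1) (mnd M num w.length q β p) 0 m k ∨
            (∀ j, p' j ≤ w.length + 1) ∧ Ev (T.lf w) (T.cl w) (T.rs w) (fun _ => 1) (mnd M num w.length q β p)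
              (qn q' * (w.length + 2) ^ M.k + pcd w.length p' + 1) m k))

/-- MODULE G6.  Derivations are unique.
Proof.  Induction on the first derivation; the leaf condition lf x = r + 1 decides the case and the value. -/
def StG6 : Prop :=
  ∀ (lf cl : ℕ → ℕ) (rs : ℕ → ℕ → ℕ) (wt : ℕ → ℕ) (x r m n r' m' n' : ℕ),
    Ev lf cl rs wt x r m n → Ev lf cl rs wt x r' m' n' → r = r' ∧ m = m' ∧ n = n'

/-- MODULE G7 (hypotheses StABS, StG1 .. StG6).  Languages of deterministic two-way multihead pushdown automata with polynomial time are in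
DSPACE((log n)^2/log log n).
Proof.  StABS with cl, rs, lf of the tables (StG2), f0 := lf, wt := fun _ _ => 1, c0 w := num q0 [z0] * (n+2)^k (the node of (q0, [z0], all heads on 0), since
pcd n 0 = 0).  Conditions: lf x <> 0 → f0 x <> 0 trivial; f0 x = r + 1: `Ev.leaf`; measure 0 is impossible (the measure of a derivation is >= 1).  w ∈ L iff Ev c0 0:
StG4 (s = []) and StG5.  Measure: if Ev c0 0 m n then w ∈ L (StG4), so w is accepted within (n+2)^e moves, StG5 gives a derivation with m' + 1 <= (3K+3)(n+2)^e + 3,
StG6: m = m'.  The exponent: large enough for StG1, c0 < ac (hnum) and (3K+3)(n+2)^e + 3 <= (3K+6) (n+2)^e <= (n+2)^e'. -/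
def StG7 : Prop :=
  ∀ {α : Type} [Fintype α] (M : MPDA α) (e : ℕ), (∀ w ∈ M.lang, M.AccIn w ((w.length + 2) ^ e)) → M.lang ∈ DSPACE (α := α) SSn

end Pool.Agent.Helper73.DC
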